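import Pool.Agent.Q169.BilHomotopy

/-!
Approximation of a monotone tangent angle by profiles.
-/

set_option autoImplicit false

open Set MeasureTheory Real Filter
open scoped ContDiff ENNReal Topology

namespace Q169.Billiard

/-- The primitive of the Poisson kernel. -/
noncomputable def H (r x : ℝ) : ℝ :=
  1 / 2 + x / (2 * π) + arctan (r * sin x / (1 - r * cos x)) / π

theorem denom_pos {r : ℝ} (h0 : 0 ≤ r) (h1 : r < 1) (x : ℝ) : 0 < 1 - r * cos x := by
  nlinarith [cos_le_one x, neg_one_le_cos x]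

theorem hasDerivAt_H {r : ℝ} (h0 : 0 ≤ r) (h1 : r < 1) (x : ℝ) :
    HasDerivAt (H r) ((1 - r ^ 2) / (2 * π * (1 - 2 * r * cos x + r ^ 2))) x := by
  have hd := denom_pos h0 h1 x
  have h2 : HasDerivAt (fun x => r * sin x / (1 - r * cos x))
      ((r * cos x * (1 - r * cos x) - r * sin x * (-(r * -sin x))) / (1 - r * cos x) ^ 2) x :=
    ((hasDerivAt_sin x).const_mul r).div (((hasDerivAt_cos x).const_mul r).const_sub 1) hd.ne'
  have h3 := ((((hasDerivAt_id x).div_const (2 * π)).const_add (1 / 2)).add (h2.arctan.div_const π))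
  have hp : 0 < 1 - 2 * r * cos x + r ^ 2 := by
    nlinarith [sq_nonneg (r - cos x), sin_sq_add_cos_sq x, sq_nonneg (sin x),
      sq_nonneg (1 - r * cos x), cos_le_one x, neg_one_le_cos x]
  refine h3.congr_deriv ?_
  have hpi := pi_pos
  have e1 : 1 + (r * sin x / (1 - r * cos x)) ^ 2 =
      (1 - 2 * r * cos x + r ^ 2) / (1 - r * cos x) ^ 2 := by
    field_simp
    nlinarith [sin_sq_add_cos_sq x]
  rw [e1]
  field_simp
  nlinarith [sin_sq_add_cos_sq x]

theorem contDiff_H {r : ℝ} (h0 : 0 ≤ r) (h1 : r < 1) : ContDiff ℝ ∞ (H r) := by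
  have h2 : ContDiff ℝ ∞ fun x => r * sin x / (1 - r * cos x) :=
    (contDiff_const.mul contDiff_sin).div (contDiff_const.sub (contDiff_const.mul contDiff_cos))
      fun x => (denom_pos h0 h1 x).ne'
  exact (contDiff_const.add (contDiff_id.div_const _)).add ((contDiff_arctan.comp h2).div_const _)

theorem H_per (r x : ℝ) : H r (x + 2 * π) = H r x + 1 := by
  have hpi := pi_pos
  simp only [H, sin_add_two_pi, cos_add_two_pi]
  field_simp
  ring

theorem H_deriv_ge {r : ℝ} (h0 : 0 ≤ r) (h1 : r < 1) (x : ℝ) :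
    (1 - r ^ 2) / (2 * π * (1 + r) ^ 2) ≤ deriv (H r) x := by
  rw [(hasDerivAt_H h0 h1 x).deriv]
  have hp : 0 < 1 - 2 * r * cos x + r ^ 2 := by
    nlinarith [sq_nonneg (r - cos x), sin_sq_add_cos_sq x, sq_nonneg (sin x),
      sq_nonneg (1 - r * cos x), cos_le_one x, neg_one_le_cos x]
  have hpi := pi_pos
  apply div_le_div_of_nonneg_left
  · nlinarith
  · positivity
  · have : 1 - 2 * r * cos x + r ^ 2 ≤ (1 + r) ^ 2 := by nlinarith [neg_one_le_cos x]
    gcongr

theorem H_neg (r x : ℝ) : H r (-x) = 1 - H r x := by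
  simp only [H, sin_neg, cos_neg, mul_neg, neg_div, arctan_neg]
  ring

/-- Choice of the parameter. -/
theorem exists_r {δ : ℝ} (h0 : 0 < δ) (h1 : δ < 1) : ∃ r : ℝ, 0 ≤ r ∧ r < 1 ∧ 1 - δ ≤ H r δ := by
  have hpi := pi_gt_three
  have hc : ContinuousAt (fun r => H r δ) 1 := by
    have hne : (1 : ℝ) - 1 * cos δ ≠ 0 := by
      have : cos δ < 1 := by
        have h2 := cos_lt_cos_of_nonneg_of_le_pi (le_refl 0) (by linarith) h0
        rwa [cos_zero] at h2
      linarith
    have h3 : ContinuousAt (fun r : ℝ => r * sin δ / (1 - r * cos δ)) 1 :=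
      ((continuous_id.mul continuous_const).continuousAt).div
        ((continuous_const.sub (continuous_id.mul continuous_const)).continuousAt) hne
    exact continuousAt_const.add (((continuous_arctan.continuousAt).comp h3).div_const π)
  have hv : H 1 δ = 1 := by
    have h3 : 1 * sin δ / (1 - 1 * cos δ) = tan (π / 2 - δ / 2) := by
      rw [tan_pi_div_two_sub, tan_eq_sin_div_cos]
      have e1 : sin δ = 2 * sin (δ / 2) * cos (δ / 2) := by
        rw [← sin_two_mul]; ring_nf
      have e2 : cos δ = 1 - 2 * sin (δ / 2) ^ 2 := by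
        have := cos_two_mul' (δ / 2)
        have h4 : 2 * (δ / 2) = δ := by ring
        rw [h4] at this
        nlinarith [sin_sq_add_cos_sq (δ / 2)]
      have h5 : 0 < sin (δ / 2) := sin_pos_of_pos_of_lt_pi (by linarith) (by linarith)
      rw [e1, e2]
      field_simp
      ring
    simp only [H]
    rw [h3, arctan_tan (by linarith) (by linarith)]
    have : π ≠ 0 := pi_ne_zero
    field_simp
    ring
  have hev : ∀ᶠ r in 𝓝[<] (1 : ℝ), 1 - δ < H r δ := by
    have h2 : ∀ᶠ r in 𝓝 (1 : ℝ), 1 - δ < H r δ :=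
      hc.eventually (lt_mem_nhds (by show 1 - δ < H 1 δ; rw [hv]; linarith))
    exact h2.filter_mono nhdsWithin_le_nhds
  have hev2 : ∀ᶠ r in 𝓝[<] (1 : ℝ), r ∈ Ioo (0 : ℝ) 1 := Ioo_mem_nhdsLT (by norm_num)
  obtain ⟨r, hr1, hr2⟩ := (hev.and hev2).exists
  exact ⟨r, hr2.1.le, hr2.2, hr1.le⟩

section param

variable {θ : ℝ → ℝ}

theorem hasDerivAt_param {𝕜 : Type*} [RCLike 𝕜] (hθ : Monotone θ) {w f f' : ℝ → 𝕜}
    (hw : Measurable w) (hw1 : ∀ t, ‖w t‖ ≤ 1) (hf : ∀ x, HasDerivAt f (f' x) x)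
    (hf' : Continuous f') (x : ℝ) :
    HasDerivAt (fun x => ∫ t in (0 : ℝ)..1, w t * f (x - θ t)) (∫ t in (0 : ℝ)..1, w t * f' (x - θ t)) x := by
  have hfc : Continuous f := continuous_iff_continuousAt.2 fun x => (hf x).continuousAt
  have hmeas : ∀ g : ℝ → 𝕜, Continuous g → ∀ y, Measurable fun t => w t * g (y - θ t) := fun g hg y =>
    hw.mul (hg.measurable.comp (measurable_const.sub hθ.measurable))
  have hcpt : ∀ g : ℝ → 𝕜, Continuous g → ∃ M, ∀ y ∈ Metric.ball x 1, ∀ t ∈ Icc (0 : ℝ) 1,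
      ‖w t * g (y - θ t)‖ ≤ M := by
    intro g hg
    obtain ⟨M, hM⟩ := (isCompact_Icc (a := x - 1 - θ 1) (b := x + 1 - θ 0)).exists_bound_of_continuousOn
      hg.continuousOn
    refine ⟨M, fun y hy t ht => ?_⟩
    have h1 := hθ ht.1
    have h2 := hθ ht.2
    rw [Metric.mem_ball, Real.dist_eq, abs_lt] at hy
    have h3 := hM (y - θ t) ⟨by linarith, by linarith⟩
    rw [norm_mul]
    calc ‖w t‖ * ‖g (y - θ t)‖ ≤ 1 * ‖g (y - θ t)‖ := by gcongr; exact hw1 t
      _ ≤ M := by rw [one_mul]; exact h3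
  obtain ⟨M, hM⟩ := hcpt f' hf'
  obtain ⟨M', hM'⟩ := hcpt f hfc
  refine (intervalIntegral.hasDerivAt_integral_of_dominated_loc_of_deriv_le
    (s := Metric.ball x 1) (bound := fun _ => M) (F := fun x t => w t * f (x - θ t))
    (F' := fun x t => w t * f' (x - θ t)) (Metric.ball_mem_nhds x one_pos) ?_ ?_ ?_ ?_ ?_ ?_).2
  · exact Eventually.of_forall fun y => (hmeas f hfc y).aestronglyMeasurable
  · rw [intervalIntegrable_iff, uIoc_of_le zero_le_one]
    refine Measure.integrableOn_of_bounded (M := M') (by simp) (hmeas f hfc x).aestronglyMeasurable ?_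
    refine (ae_restrict_iff' measurableSet_Ioc).2 (Eventually.of_forall fun t ht => ?_)
    exact hM' x (Metric.mem_ball_self one_pos) t ⟨ht.1.le, ht.2⟩
  · exact (hmeas f' hf' x).aestronglyMeasurable
  · refine Eventually.of_forall fun t ht y hy => ?_
    rw [uIoc_of_le zero_le_one] at ht
    exact hM y hy t ⟨ht.1.le, ht.2⟩
  · exact intervalIntegrable_const
  · refine Eventually.of_forall fun t _ y _ => ?_
    have h1 : HasDerivAt (fun y => f (y - θ t)) (f' (y - θ t)) y := (hf (y - θ t)).comp_sub_const y (θ t)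
    exact h1.const_mul (w t)

theorem contDiff_param (hθ : Monotone θ) (n : ℕ) : ∀ f : ℝ → ℝ, ContDiff ℝ ∞ f →
    ContDiff ℝ n fun x => ∫ t in (0 : ℝ)..1, f (x - θ t) := by
  have hder : ∀ f : ℝ → ℝ, ContDiff ℝ ∞ f → ∀ x, HasDerivAt (fun x => ∫ t in (0 : ℝ)..1, f (x - θ t))
      (∫ t in (0 : ℝ)..1, deriv f (x - θ t)) x := by
    intro f hf x
    have h := hasDerivAt_param hθ (w := fun _ => (1 : ℝ)) measurable_const (fun _ => by simp)
      (fun y => ((hf.differentiable (by simp)) y).hasDerivAt) (hf.continuous_deriv (by simp)) x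
    simpa using h
  induction n with
  | zero =>
    intro f hf
    refine contDiff_zero.2 ?_
    exact continuous_iff_continuousAt.2 fun x => (hder f hf x).continuousAt
  | succ n ih =>
    intro f hf
    have h1 : ((n + 1 : ℕ) : WithTop ℕ∞) = (n : WithTop ℕ∞) + 1 := by norm_cast
    rw [h1, contDiff_succ_iff_deriv]
    refine ⟨fun x => (hder f hf x).differentiableAt, by simp, ?_⟩
    have h2 : deriv (fun x => ∫ t in (0 : ℝ)..1, f (x - θ t)) =
        fun x => ∫ t in (0 : ℝ)..1, deriv f (x - θ t) := funext fun x => (hder f hf x).deriv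
    rw [h2]
    exact ih _ (contDiff_infty_iff_deriv.1 hf).2

end param

end Q169.Billiard
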