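import Mathlib

/-!
Definitions for `MP_fd4af6_gt`: billiard tables, the geometric distance and convex curves
parametrized by arc length. The plane `ℝ²` is `ℂ` with its Euclidean norm.
-/

set_option autoImplicit false

open Set MeasureTheory
open scoped ContDiff ENNReal

namespace Q169.Billiard

/-- The determinant `det (u, v)` of two vectors of the plane. -/
def cross (u v : ℂ) : ℝ := u.re * v.im - u.im * v.re

/-- The curve `γ` is the boundary of the compact convex set `K` with nonempty interior. -/
def Bounds (γ : ℝ → ℂ) (K : Set ℂ) : Prop :=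
  Convex ℝ K ∧ IsCompact K ∧ (interior K).Nonempty ∧ frontier K = range γ

/-- Billiard tables, given by the counterclockwise arc-length parametrization `γ` of the boundary
of a smooth convex body with perimeter `1` and strictly positive curvature; maps on
`S¹ = ℝ / ℤ` are `1`-periodic maps on `ℝ`, the marked point is `γ 0`. Since
`det (γ', γ'')` is the signed curvature, `curvature` says both that the curvature is positive and
that `γ` is traversed counterclockwise. -/
structure IsTable (γ : ℝ → ℂ) : Prop where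
  smooth : ContDiff ℝ ∞ γ
  periodic : ∀ q, γ (q + 1) = γ q
  simple : ∀ q q', γ q = γ q' → ∃ k : ℤ, q' = q + k
  speed : ∀ q, ‖deriv γ q‖ = 1
  curvature : ∀ q, 0 < cross (deriv γ q) (deriv (deriv γ) q)
  convex : ∃ K, Bounds γ K

/-- `Γ` is a smooth homotopy `(γ_s)`, `γ_s = Γ (s, ·)`, from `α` to `β` through billiard tables. -/
structure IsHomotopy (Γ : ℝ × ℝ → ℂ) (α β : ℝ → ℂ) : Prop where
  smooth : ContDiff ℝ ∞ Γ
  table : ∀ s ∈ Icc (0 : ℝ) 1, IsTable fun q => Γ (s, q)
  start : ∀ q, Γ (0, q) = α q
  finish : ∀ q, Γ (1, q) = β q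

/-- `∫₀¹ max_q ‖∂γ_s/∂s (q)‖ ds`. -/
noncomputable def homotopyLength (Γ : ℝ × ℝ → ℂ) : ℝ≥0∞ :=
  ∫⁻ s in Icc (0 : ℝ) 1, ⨆ q : ℝ, ‖deriv (fun s' => Γ (s', q)) s‖ₑ

/-- The geometric distance `d_B`. -/
noncomputable def dB (α β : ℝ → ℂ) : ℝ≥0∞ :=
  ⨅ (Γ : ℝ × ℝ → ℂ) (_ : IsHomotopy Γ α β), homotopyLength Γ

/-- Continuous simple closed curves of length `1`, parametrized counterclockwise by arc length,
that bound a convex set. Counterclockwise means that `C` runs once in the positive sense around
an interior point `p` of the convex set: the angle `φ` of `C q - p` increases by `2 π`. -/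
structure IsConvexCurve (C : ℝ → ℂ) : Prop where
  continuous : Continuous C
  periodic : ∀ q, C (q + 1) = C q
  simple : ∀ q q', C q = C q' → ∃ k : ℤ, q' = q + k
  arcLength : HasUnitSpeedOn C univ
  convex : ∃ K, Bounds C K ∧ ∃ p ∈ interior K, ∃ φ : ℝ → ℝ, Continuous φ ∧
    (∀ q, φ (q + 1) = φ q + 2 * Real.pi) ∧
    ∀ q, C q - p = ‖C q - p‖ * Complex.exp (φ q * Complex.I)

end Q169.Billiard
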