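import Pool.Agent.Q169.BilTable

/-!
An upper bound for the geometric distance.
-/

set_option autoImplicit false

open Set MeasureTheory Real Filter
open scoped ContDiff ENNReal Topology

namespace Q169.Billiard

theorem integral_shift_diff {f : ℝ → ℝ} {T c : ℝ} (hi : ∀ u v : ℝ, IntervalIntegrable f volume u v)
    (hper : ∀ x, f (x + T) = f x + c) (η : ℝ) :
    ∫ x in (0 : ℝ)..T, (f (x + η) - f (x - η)) = 2 * η * c := by
  have i1' : IntervalIntegrable (fun x => f (x + η)) volume 0 T := by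
    have := (hi (0 + η) (T + η)).comp_add_right η
    simpa using this
  have i2' : IntervalIntegrable (fun x => f (x - η)) volume 0 T := by
    have := (hi (0 - η) (T - η)).comp_sub_right η
    simpa using this
  rw [intervalIntegral.integral_sub i1' i2', intervalIntegral.integral_comp_add_right (fun x => f x),
    intervalIntegral.integral_comp_sub_right (fun x => f x)]
  have e1 : (∫ x in (0 + η)..(T + η), f x) - ∫ x in (0 - η)..(T - η), f x =
      (∫ x in (T - η)..(T + η), f x) - ∫ x in (0 - η)..(0 + η), f x := by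
    have i1 := intervalIntegral.integral_add_adjacent_intervals (hi (0 - η) (0 + η))
      (hi (0 + η) (T + η))
    have i2 := intervalIntegral.integral_add_adjacent_intervals (hi (0 - η) (T - η))
      (hi (T - η) (T + η))
    linarith
  have e2 : ∫ x in (T - η)..(T + η), f x = ∫ x in (0 - η)..(0 + η), (f x + c) := by
    have i3 : (fun x => f x + c) = fun x => f (x + T) := funext fun x => (hper x).symm
    rw [i3, intervalIntegral.integral_comp_add_right (fun x => f x)]
    congr 1 <;> ring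
  rw [e1, e2, intervalIntegral.integral_add (hi _ _) (continuous_const.intervalIntegrable _ _),
    intervalIntegral.integral_const, smul_eq_mul]
  ring

/-- The homotopy. -/
noncomputable def homo (Q₀ Q₁ : ℝ → ℝ) (c : ℂ) (p : ℝ × ℝ) : ℂ :=
  curve (fun x => (1 - smoothTransition p.1) * Q₀ x + smoothTransition p.1 * Q₁ x) c p.2

theorem σ_mem (s : ℝ) : smoothTransition s ∈ Icc (0 : ℝ) 1 :=
  ⟨smoothTransition.nonneg s, smoothTransition.le_one s⟩

/-- The velocity function. -/
noncomputable def W (Q₀ Q₁ : ℝ → ℝ) (x : ℝ) : ℂ :=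
  (P Q₁ x - P Q₀ x) - e x * ((Q₁ x - Q₀ x : ℝ) : ℂ)

namespace Prof

variable {Q₀ Q₁ : ℝ → ℝ}

theorem contDiff_homo (h₀ : Prof Q₀) (h₁ : Prof Q₁) (c : ℂ) : ContDiff ℝ ∞ (homo Q₀ Q₁ c) := by
  have hσ : ContDiff ℝ ∞ smoothTransition := smoothTransition.contDiff
  have hσ' : ContDiff ℝ ∞ fun p : ℝ × ℝ => smoothTransition p.1 := hσ.comp contDiff_fst
  have hΘ := h₀.contDiff_ang h₁ hσ σ_mem
  have hΘ0 : ContDiff ℝ ∞ fun p : ℝ × ℝ =>
      ang (fun x => (1 - smoothTransition p.1) * Q₀ x + smoothTransition p.1 * Q₁ x) 0 :=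
    hΘ.comp (contDiff_fst.prodMk (contDiff_const (c := (0 : ℝ))))
  have heq : homo Q₀ Q₁ c = fun p => c +
      (((1 - smoothTransition p.1 : ℝ) : ℂ) * P Q₀ (ang (fun x => (1 - smoothTransition p.1) * Q₀ x +
        smoothTransition p.1 * Q₁ x) p.2) + (smoothTransition p.1 : ℂ) * P Q₁ (ang (fun x =>
        (1 - smoothTransition p.1) * Q₀ x + smoothTransition p.1 * Q₁ x) p.2)) -
      (((1 - smoothTransition p.1 : ℝ) : ℂ) * P Q₀ (ang (fun x => (1 - smoothTransition p.1) * Q₀ x +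
        smoothTransition p.1 * Q₁ x) 0) + (smoothTransition p.1 : ℂ) * P Q₁ (ang (fun x =>
        (1 - smoothTransition p.1) * Q₀ x + smoothTransition p.1 * Q₁ x) 0)) := by
    funext p
    simp only [homo, curve]
    rw [h₀.P_combo h₁, h₀.P_combo h₁]
  rw [heq]
  have c1 : ContDiff ℝ ∞ fun p : ℝ × ℝ => ((1 - smoothTransition p.1 : ℝ) : ℂ) :=
    Complex.ofRealCLM.contDiff.comp (contDiff_const.sub hσ')
  have c2 : ContDiff ℝ ∞ fun p : ℝ × ℝ => (smoothTransition p.1 : ℂ) :=
    Complex.ofRealCLM.contDiff.comp hσ'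
  exact (contDiff_const.add ((c1.mul (h₀.contDiff_P.comp hΘ)).add (c2.mul (h₁.contDiff_P.comp hΘ)))).sub
    ((c1.mul (h₀.contDiff_P.comp hΘ0)).add (c2.mul (h₁.contDiff_P.comp hΘ0)))

theorem isHomotopy (h₀ : Prof Q₀) (h₁ : Prof Q₁) (c : ℂ) :
    IsHomotopy (homo Q₀ Q₁ c) (curve Q₀ c) (curve Q₁ c) where
  smooth := h₀.contDiff_homo h₁ c
  table s _ := (h₀.combo h₁ (σ_mem s)).isTable c
  start q := by
    have : (fun x => (1 - smoothTransition 0) * Q₀ x + smoothTransition 0 * Q₁ x) = Q₀ := by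
      funext x
      rw [smoothTransition.zero]
      ring
    simp only [homo, this]
  finish q := by
    have : (fun x => (1 - smoothTransition 1) * Q₀ x + smoothTransition 1 * Q₁ x) = Q₁ := by
      funext x
      rw [smoothTransition.one]
      ring
    simp only [homo, this]

theorem hasDerivAt_W (h₀ : Prof Q₀) (h₁ : Prof Q₁) (x : ℝ) :
    HasDerivAt (W Q₀ Q₁) (-(Complex.I * e x * ((Q₁ x - Q₀ x : ℝ) : ℂ))) x := by
  have h2 : HasDerivAt (fun x => ((Q₁ x - Q₀ x : ℝ) : ℂ)) ((deriv Q₁ x - deriv Q₀ x : ℝ) : ℂ) x :=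
    ((h₁.hasDerivAt x).sub (h₀.hasDerivAt x)).ofReal_comp
  refine (((h₁.hasDerivAt_P x).sub (h₀.hasDerivAt_P x)).sub ((hasDerivAt_e x).mul h2)).congr_deriv ?_
  push_cast
  ring

theorem W_per (h₀ : Prof Q₀) (h₁ : Prof Q₁) (x : ℝ) (k : ℤ) :
    W Q₀ Q₁ (x + k * (2 * π)) = W Q₀ Q₁ x := by
  have h4 : e (x + k * (2 * π)) = e x := by
    have := (show Function.Periodic e (2 * π) from e_add_two_pi).int_mul k x
    simpa using this
  simp only [W, h₀.P_per_int, h₁.P_per_int, h₀.per_int, h₁.per_int, h4, add_sub_add_right_eq_sub]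

theorem W_bound (h₀ : Prof Q₀) (h₁ : Prof Q₁) (a b : ℝ) :
    ‖W Q₀ Q₁ b - W Q₀ Q₁ a‖ ≤ ∫ x in (0 : ℝ)..(2 * π), |Q₁ x - Q₀ x| := by
  obtain ⟨k, hk1, hk2⟩ := exists_shift a b
  rw [← h₀.W_per h₁ b k]
  set b' := b + k * (2 * π)
  have hcont : Continuous fun x => Q₁ x - Q₀ x := h₁.smooth.continuous.sub h₀.smooth.continuous
  have hc : Continuous fun x => -(Complex.I * e x * ((Q₁ x - Q₀ x : ℝ) : ℂ)) :=
    ((continuous_const.mul continuous_e).mul (Complex.continuous_ofReal.comp hcont)).neg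
  have hi : ∀ u v : ℝ, IntervalIntegrable (fun x => |Q₁ x - Q₀ x|) volume u v := fun u v =>
    hcont.abs.intervalIntegrable _ _
  rw [← intervalIntegral.integral_eq_sub_of_hasDerivAt (fun x _ => h₀.hasDerivAt_W h₁ x)
    (hc.intervalIntegrable _ _)]
  calc ‖∫ x in a..b', -(Complex.I * e x * ((Q₁ x - Q₀ x : ℝ) : ℂ))‖
      ≤ ∫ x in a..b', ‖-(Complex.I * e x * ((Q₁ x - Q₀ x : ℝ) : ℂ))‖ :=
        intervalIntegral.norm_integral_le_integral_norm hk1
    _ = ∫ x in a..b', |Q₁ x - Q₀ x| := by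
        congr 1
        funext x
        rw [norm_neg, norm_mul, norm_mul, Complex.norm_I, norm_e, Complex.norm_real, one_mul, one_mul,
          Real.norm_eq_abs]
    _ ≤ ∫ x in a..(a + 2 * π), |Q₁ x - Q₀ x| := by
        rw [← intervalIntegral.integral_add_adjacent_intervals (hi a b') (hi b' (a + 2 * π))]
        have : 0 ≤ ∫ x in b'..(a + 2 * π), |Q₁ x - Q₀ x| :=
          intervalIntegral.integral_nonneg hk2.le (fun x _ => abs_nonneg (Q₁ x - Q₀ x))
        linarith
    _ = ∫ x in (0 : ℝ)..(2 * π), |Q₁ x - Q₀ x| := by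
        have hper : Function.Periodic (fun x => |Q₁ x - Q₀ x|) (2 * π) := fun x => by
          simp only [h₀.per, h₁.per, add_sub_add_right_eq_sub]
        have := hper.intervalIntegral_add_eq a 0
        rwa [zero_add] at this

theorem hasDerivAt_homo (h₀ : Prof Q₀) (h₁ : Prof Q₁) (c : ℂ) (s q : ℝ) :
    HasDerivAt (fun s' => homo Q₀ Q₁ c (s', q)) (deriv smoothTransition s •
      (W Q₀ Q₁ (ang (fun x => (1 - smoothTransition s) * Q₀ x + smoothTransition s * Q₁ x) q) -
       W Q₀ Q₁ (ang (fun x => (1 - smoothTransition s) * Q₀ x + smoothTransition s * Q₁ x) 0))) s := by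
  have hσ : ContDiff ℝ ∞ smoothTransition := smoothTransition.contDiff
  have hσd : HasDerivAt smoothTransition (deriv smoothTransition s) s :=
    ((hσ.differentiable (by simp)) s).hasDerivAt
  have hΘ := h₀.contDiff_ang h₁ hσ σ_mem
  have key : ∀ q : ℝ, HasDerivAt (fun s => P (fun x => (1 - smoothTransition s) * Q₀ x +
      smoothTransition s * Q₁ x) (ang (fun x => (1 - smoothTransition s) * Q₀ x +
      smoothTransition s * Q₁ x) q)) (deriv smoothTransition s •
      W Q₀ Q₁ (ang (fun x => (1 - smoothTransition s) * Q₀ x + smoothTransition s * Q₁ x) q)) s := by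
    intro q
    have hθs : ContDiff ℝ ∞ fun s : ℝ =>
        ang (fun x => (1 - smoothTransition s) * Q₀ x + smoothTransition s * Q₁ x) q :=
      hΘ.comp (contDiff_id.prodMk (contDiff_const (c := q)))
    set θ : ℝ → ℝ := fun s : ℝ =>
      ang (fun x => (1 - smoothTransition s) * Q₀ x + smoothTransition s * Q₁ x) q with hθ
    have hθd : HasDerivAt θ (deriv θ s) s := ((hθs.differentiable (by simp)) s).hasDerivAt
    have e1 : (fun s => P (fun x => (1 - smoothTransition s) * Q₀ x +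
      smoothTransition s * Q₁ x) (ang (fun x => (1 - smoothTransition s) * Q₀ x +
      smoothTransition s * Q₁ x) q)) = fun s => ((1 - smoothTransition s : ℝ) : ℂ) * P Q₀ (θ s) +
        ((smoothTransition s : ℝ) : ℂ) * P Q₁ (θ s) := by
      funext s
      rw [h₀.P_combo h₁]
    rw [e1]
    have d0 : HasDerivAt (fun s => P Q₀ (θ s)) (deriv θ s • (e (θ s) * ((deriv Q₀ (θ s) : ℝ) : ℂ))) s :=
      (h₀.hasDerivAt_P (θ s)).scomp s hθd
    have d1 : HasDerivAt (fun s => P Q₁ (θ s)) (deriv θ s • (e (θ s) * ((deriv Q₁ (θ s) : ℝ) : ℂ))) s :=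
      (h₁.hasDerivAt_P (θ s)).scomp s hθd
    have s0 : HasDerivAt (fun s => ((1 - smoothTransition s : ℝ) : ℂ))
        ((-deriv smoothTransition s : ℝ) : ℂ) s := (hσd.const_sub 1).ofReal_comp
    have s1 : HasDerivAt (fun s => ((smoothTransition s : ℝ) : ℂ))
        ((deriv smoothTransition s : ℝ) : ℂ) s := hσd.ofReal_comp
    have eq1 : (fun s => (1 - smoothTransition s) * Q₀ (θ s) + smoothTransition s * Q₁ (θ s)) =
        fun _ => q := by
      funext s
      exact (h₀.combo h₁ (σ_mem s)).Q_ang q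
    have q0 : HasDerivAt (fun s => Q₀ (θ s)) (deriv Q₀ (θ s) * deriv θ s) s :=
      (h₀.hasDerivAt (θ s)).comp s hθd
    have q1 : HasDerivAt (fun s => Q₁ (θ s)) (deriv Q₁ (θ s) * deriv θ s) s :=
      (h₁.hasDerivAt (θ s)).comp s hθd
    have eq2 : HasDerivAt (fun s => (1 - smoothTransition s) * Q₀ (θ s) +
      smoothTransition s * Q₁ (θ s)) _ s := ((hσd.const_sub 1).mul q0).add (hσd.mul q1)
    rw [eq1] at eq2
    have eq3 := eq2.unique (hasDerivAt_const s q)
    refine ((s0.mul d0).add (s1.mul d1)).congr_deriv ?_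
    have eq4 : ((-deriv smoothTransition s * Q₀ (θ s) + (1 - smoothTransition s) *
        (deriv Q₀ (θ s) * deriv θ s) + (deriv smoothTransition s * Q₁ (θ s) + smoothTransition s *
        (deriv Q₁ (θ s) * deriv θ s)) : ℝ) : ℂ) = 0 := by
      rw [eq3]; simp
    simp only [W, Complex.real_smul]
    push_cast at eq4 ⊢
    linear_combination (e (θ s)) * eq4
  have h1 := ((key q).const_add c).sub (key 0)
  refine (h1.congr_deriv ?_)
  rw [smul_sub]

theorem dB_le (h₀ : Prof Q₀) (h₁ : Prof Q₁) (c : ℂ) {M : ℝ}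
    (hM : ∀ s ∈ Icc (0 : ℝ) 1, |deriv smoothTransition s| ≤ M) :
    dB (curve Q₀ c) (curve Q₁ c) ≤
      ENNReal.ofReal (M * ∫ x in (0 : ℝ)..(2 * π), |Q₁ x - Q₀ x|) := by
  refine (iInf₂_le (homo Q₀ Q₁ c) (h₀.isHomotopy h₁ c)).trans ?_
  unfold homotopyLength
  calc ∫⁻ s in Icc (0 : ℝ) 1, ⨆ q : ℝ, ‖deriv (fun s' => homo Q₀ Q₁ c (s', q)) s‖ₑ
      ≤ ∫⁻ _ in Icc (0 : ℝ) 1, ENNReal.ofReal (M * ∫ x in (0 : ℝ)..(2 * π), |Q₁ x - Q₀ x|) := by
        refine setLIntegral_mono measurable_const fun s hs => iSup_le fun q => ?_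
        rw [(h₀.hasDerivAt_homo h₁ c s q).deriv, ← ofReal_norm]
        refine ENNReal.ofReal_le_ofReal ?_
        rw [norm_smul, Real.norm_eq_abs]
        have i1 := h₀.W_bound h₁
          (ang (fun x => (1 - smoothTransition s) * Q₀ x + smoothTransition s * Q₁ x) 0)
          (ang (fun x => (1 - smoothTransition s) * Q₀ x + smoothTransition s * Q₁ x) q)
        have i2 : 0 ≤ M := (abs_nonneg _).trans (hM s hs)
        exact mul_le_mul (hM s hs) i1 (norm_nonneg _) i2
    _ = ENNReal.ofReal (M * ∫ x in (0 : ℝ)..(2 * π), |Q₁ x - Q₀ x|) := by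
        rw [setLIntegral_const, Real.volume_Icc]
        simp

/-- Levy closeness gives closeness in the mean. -/
theorem integral_le (h₀ : Prof Q₀) (h₁ : Prof Q₁) {η : ℝ} (hη : 0 ≤ η)
    (H1 : ∀ q, ang Q₁ q ≤ ang Q₀ (q + η) + η) (H2 : ∀ q, ang Q₀ q ≤ ang Q₁ (q + η) + η) :
    ∫ x in (0 : ℝ)..(2 * π), |Q₁ x - Q₀ x| ≤ 2 * η + 2 * π * η := by
  have m0 := h₀.strictMono.monotone
  have m1 := h₁.strictMono.monotone
  have A1 : ∀ x, Q₀ (x - η) ≤ Q₁ x + η := by
    intro x
    have h := H1 (Q₁ x)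
    rw [h₁.ang_Q] at h
    have h2 : x - η ≤ ang Q₀ (Q₁ x + η) := by linarith
    have := m0 h2
    rwa [h₀.Q_ang] at this
  have A2 : ∀ x, Q₁ (x - η) ≤ Q₀ x + η := by
    intro x
    have h := H2 (Q₀ x)
    rw [h₀.ang_Q] at h
    have h2 : x - η ≤ ang Q₁ (Q₀ x + η) := by linarith
    have := m1 h2
    rwa [h₁.Q_ang] at this
  have A3 : ∀ x, |Q₁ x - Q₀ x| ≤ Q₀ (x + η) - Q₀ (x - η) + η := by
    intro x
    have b1 := A1 x
    have b2 := A2 (x + η)
    rw [add_sub_cancel_right] at b2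
    have b3 : Q₀ x ≤ Q₀ (x + η) := m0 (by linarith)
    have b4 : Q₀ (x - η) ≤ Q₀ x := m0 (by linarith)
    rw [abs_le]
    constructor <;> linarith
  have hc : Continuous Q₀ := h₀.smooth.continuous
  have hc1 : Continuous fun x => Q₀ (x + η) := hc.comp (continuous_id.add continuous_const)
  have hc2 : Continuous fun x => Q₀ (x - η) := hc.comp (continuous_id.sub continuous_const)
  have hi : ∀ u v : ℝ, IntervalIntegrable Q₀ volume u v := fun u v => hc.intervalIntegrable _ _
  calc ∫ x in (0 : ℝ)..(2 * π), |Q₁ x - Q₀ x|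
      ≤ ∫ x in (0 : ℝ)..(2 * π), (Q₀ (x + η) - Q₀ (x - η) + η) := by
        refine intervalIntegral.integral_mono_on (by positivity) ?_ ?_ fun x _ => A3 x
        · exact ((h₁.smooth.continuous.sub hc).abs).intervalIntegrable _ _
        · exact ((hc1.sub hc2).add continuous_const).intervalIntegrable _ _
    _ = (∫ x in (0 : ℝ)..(2 * π), (Q₀ (x + η) - Q₀ (x - η))) + 2 * π * η := by
        rw [intervalIntegral.integral_add, intervalIntegral.integral_const]
        · simp
        · exact (hc1.sub hc2).intervalIntegrable _ _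
        · exact continuous_const.intervalIntegrable _ _
    _ = 2 * η + 2 * π * η := by
        rw [integral_shift_diff hi h₀.per, mul_one]

end Prof

end Q169.Billiard
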