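import Pool.Agent.Q169.BilTheta

/-!
Every convex curve is the limit of a Cauchy sequence of billiard tables.
-/

set_option autoImplicit false

open Set MeasureTheory Real Filter
open scoped ContDiff ENNReal Topology

namespace Q169.Billiard

theorem main {C : ℝ → ℂ} (hC : IsConvexCurve C) :
    ∃ α : ℕ → ℝ → ℂ, (∀ i, IsTable (α i)) ∧
      (∀ ε > 0, ∃ N, ∀ i ≥ N, ∀ j ≥ N, dB (α i) (α j) < ε) ∧
      TendstoUniformly α C atTop := by
  obtain ⟨θ, hθ, hper, hint⟩ := exists_tang hC
  have hpi := pi_pos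
  have hcl : ∫ t in (0 : ℝ)..1, e (θ t) = 0 := by
    have h1 := hint 1
    have h2 := hC.periodic 0
    rw [zero_add] at h2
    rw [h2] at h1
    simpa using h1
  set δ : ℕ → ℝ := fun i => 1 / ((i : ℝ) + 2) with hδ
  have hδ0 : ∀ i, 0 < δ i := fun i => by simp only [hδ]; positivity
  have hδ1 : ∀ i, δ i < 1 := fun i => by
    simp only [hδ]
    rw [div_lt_one (by positivity)]
    have : (0 : ℝ) ≤ i := Nat.cast_nonneg i
    linarith
  have hδanti : ∀ i j, i ≤ j → δ j ≤ δ i := fun i j hij => by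
    simp only [hδ]
    have : (i : ℝ) ≤ j := by exact_mod_cast hij
    gcongr
  have hδlim : Tendsto δ atTop (𝓝 0) := by
    have h1 := (tendsto_one_div_add_atTop_nhds_zero_nat (𝕜 := ℝ)).comp (tendsto_add_atTop_nat 1)
    refine h1.congr fun i => ?_
    simp only [hδ, Function.comp]
    push_cast
    ring_nf
  choose Q hQ hub hlb using fun i => exists_prof hθ hper hcl (hδ0 i) (hδ1 i)
  obtain ⟨M, hM⟩ : ∃ M, ∀ s ∈ Icc (0 : ℝ) 1, |deriv smoothTransition s| ≤ M := by
    have hσ : ContDiff ℝ ∞ smoothTransition := smoothTransition.contDiff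
    obtain ⟨M, hM⟩ := (isCompact_Icc (a := (0 : ℝ)) (b := 1)).exists_bound_of_continuousOn
      (hσ.continuous_deriv (by simp)).continuousOn
    exact ⟨M, fun s hs => by simpa using hM s hs⟩
  have hM0 : 0 ≤ M := (abs_nonneg _).trans (hM 0 ⟨le_rfl, zero_le_one⟩)
  refine ⟨fun i => curve (Q i) (C 0), fun i => (hQ i).isTable _, ?_, ?_⟩
  · intro ε hε
    have hlim : Tendsto (fun i => ENNReal.ofReal (M * (2 * (2 * δ i) + 2 * π * (2 * δ i)))) atTop
        (𝓝 0) := by
      have h1 : Tendsto (fun i => M * (2 * (2 * δ i) + 2 * π * (2 * δ i))) atTop (𝓝 0) := by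
        have h2 : Tendsto (fun i => M * (2 * (2 * δ i) + 2 * π * (2 * δ i))) atTop
            (𝓝 (M * (2 * (2 * 0) + 2 * π * (2 * 0)))) :=
          (((hδlim.const_mul 2).const_mul 2).add ((hδlim.const_mul 2).const_mul (2 * π))).const_mul M
        simpa using h2
      have h3 := (ENNReal.continuous_ofReal.tendsto 0).comp h1
      rw [ENNReal.ofReal_zero] at h3
      exact h3
    obtain ⟨N, hN⟩ := ((hlim.eventually (gt_mem_nhds hε))).exists
    refine ⟨N, fun i hi j hj => lt_of_le_of_lt ?_ hN⟩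
    have ub : ∀ i ≥ N, ∀ q, ang (Q i) q ≤ θ (q + δ N) + δ N := fun i hi q => by
      have h1 := hδanti N i hi
      have h2 : θ (q + δ i) ≤ θ (q + δ N) := hθ (by linarith)
      linarith [hub i q]
    have lb : ∀ i ≥ N, ∀ q, θ (q - δ N) - δ N ≤ ang (Q i) q := fun i hi q => by
      have h1 := hδanti N i hi
      have h2 : θ (q - δ N) ≤ θ (q - δ i) := hθ (by linarith)
      linarith [hlb i q]
    have key : ∀ i ≥ N, ∀ j ≥ N, ∀ q, ang (Q j) q ≤ ang (Q i) (q + 2 * δ N) + 2 * δ N := by
      intro i hi j hj q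
      have h1 := ub j hj q
      have h2 := lb i hi (q + 2 * δ N)
      have h3 : q + 2 * δ N - δ N = q + δ N := by ring
      rw [h3] at h2
      linarith
    refine ((hQ i).dB_le (hQ j) (C 0) hM).trans (ENNReal.ofReal_le_ofReal ?_)
    refine mul_le_mul_of_nonneg_left ?_ hM0
    exact (hQ i).integral_le (hQ j) (by linarith [hδ0 N]) (key i hi j hj) (key j hj i hi)
  · rw [Metric.tendstoUniformly_iff]
    intro ε hε
    have hlim : Tendsto (fun i => 2 * δ i * (2 * π) + δ i) atTop (𝓝 0) := by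
      have h2 : Tendsto (fun i => 2 * δ i * (2 * π) + δ i) atTop (𝓝 (2 * 0 * (2 * π) + 0)) :=
        ((hδlim.const_mul 2).mul_const (2 * π)).add hδlim
      simpa using h2
    filter_upwards [hlim.eventually (gt_mem_nhds hε)] with i hi q
    have hp1 : Function.Periodic (curve (Q i) (C 0)) 1 := ((hQ i).isTable (C 0)).periodic
    have hp2 : Function.Periodic C 1 := hC.periodic
    have e1 : curve (Q i) (C 0) q = curve (Q i) (C 0) (Int.fract q) := by
      have := hp1.int_mul ⌊q⌋ (Int.fract q)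
      rw [mul_one, Int.fract_add_floor] at this
      exact this
    have e2 : C q = C (Int.fract q) := by
      have := hp2.int_mul ⌊q⌋ (Int.fract q)
      rw [mul_one, Int.fract_add_floor] at this
      exact this
    have h3 := curve_close hθ hper (hδ0 i) (hQ i) (hub i) (hlb i) (C 0)
      (q := Int.fract q) ⟨Int.fract_nonneg q, (Int.fract_lt_one q).le⟩
    rw [← hint, ← e1, ← e2] at h3
    rw [dist_comm, dist_eq_norm]
    exact h3.trans_lt hi

end Q169.Billiard
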