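import Pool.Agent.Q169.BilDefs

/-!
Convex curves given by the arc length as a function of the tangent angle.
-/

set_option autoImplicit false

open Set MeasureTheory Real
open scoped ContDiff ENNReal Topology

namespace Q169.Billiard

/-- The unit vector with angle `x`. -/
noncomputable def e (x : ℝ) : ℂ := Complex.exp (x * Complex.I)

theorem e_re (x : ℝ) : (e x).re = cos x := by
  simp [e, Complex.exp_ofReal_mul_I_re]

theorem e_im (x : ℝ) : (e x).im = sin x := by
  simp [e, Complex.exp_ofReal_mul_I_im]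

theorem norm_e (x : ℝ) : ‖e x‖ = 1 := Complex.norm_exp_ofReal_mul_I x

theorem e_add (x y : ℝ) : e (x + y) = e x * e y := by
  simp only [e]
  rw [← Complex.exp_add]
  push_cast
  ring_nf

theorem e_two_pi : e (2 * π) = 1 := by
  simp only [e]
  push_cast
  exact Complex.exp_two_pi_mul_I

theorem e_add_two_pi (x : ℝ) : e (x + 2 * π) = e x := by
  rw [e_add, e_two_pi, mul_one]

theorem hasDerivAt_e (x : ℝ) : HasDerivAt e (e x * Complex.I) x := by
  have h : HasDerivAt (fun y : ℝ => (y : ℂ) * Complex.I) Complex.I x := by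
    simpa using (Complex.ofRealCLM.hasDerivAt (x := x)).mul_const Complex.I
  exact h.cexp

theorem contDiff_e : ContDiff ℝ ∞ e :=
  (Complex.ofRealCLM.contDiff.mul contDiff_const).cexp

theorem continuous_e : Continuous e := contDiff_e.continuous

/-- `Q` is the arc length as a function of the tangent angle. -/
structure Prof (Q : ℝ → ℝ) : Prop where
  smooth : ContDiff ℝ ∞ Q
  pos : ∀ x, 0 < deriv Q x
  per : ∀ x, Q (x + 2 * π) = Q x + 1
  closed : ∫ x in (0 : ℝ)..(2 * π), e x * ((deriv Q x : ℝ) : ℂ) = 0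

/-- The curve as a function of the tangent angle. -/
noncomputable def P (Q : ℝ → ℝ) (x : ℝ) : ℂ := ∫ t in (0 : ℝ)..x, e t * ((deriv Q t : ℝ) : ℂ)

namespace Prof

variable {Q Q₀ Q₁ : ℝ → ℝ}

theorem continuous_deriv (h : Prof Q) : Continuous (deriv Q) :=
  h.smooth.continuous_deriv (by simp)

theorem contDiff_deriv (h : Prof Q) : ContDiff ℝ ∞ (deriv Q) :=
  (contDiff_infty_iff_deriv.1 h.smooth).2

theorem hasDerivAt (h : Prof Q) (x : ℝ) : HasDerivAt Q (deriv Q x) x :=
  ((h.smooth.differentiable (by simp)) x).hasDerivAt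

theorem contDiff_integrand (h : Prof Q) : ContDiff ℝ ∞ fun t => e t * ((deriv Q t : ℝ) : ℂ) :=
  contDiff_e.mul (Complex.ofRealCLM.contDiff.comp h.contDiff_deriv)

theorem hasDerivAt_P (h : Prof Q) (x : ℝ) : HasDerivAt (P Q) (e x * ((deriv Q x : ℝ) : ℂ)) x :=
  h.contDiff_integrand.continuous.integral_hasStrictDerivAt 0 x |>.hasDerivAt

theorem contDiff_P (h : Prof Q) : ContDiff ℝ ∞ (P Q) := by
  rw [contDiff_infty_iff_deriv]
  refine ⟨fun x => (h.hasDerivAt_P x).differentiableAt, ?_⟩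
  have : deriv (P Q) = fun t => e t * ((deriv Q t : ℝ) : ℂ) := funext fun x => (h.hasDerivAt_P x).deriv
  rw [this]
  exact h.contDiff_integrand

theorem strictMono (h : Prof Q) : StrictMono Q := strictMono_of_deriv_pos h.pos

theorem deriv_per (h : Prof Q) (x : ℝ) : deriv Q (x + 2 * π) = deriv Q x := by
  have h1 : deriv (fun y => Q (y + 2 * π)) x = deriv Q (x + 2 * π) := deriv_comp_add_const _ _ _
  have h2 : (fun y => Q (y + 2 * π)) = fun y => Q y + 1 := funext h.per
  rw [← h1, h2, deriv_add_const]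

theorem P_per (h : Prof Q) (x : ℝ) : P Q (x + 2 * π) = P Q x := by
  have h1 : ∀ y, HasDerivAt (fun y => P Q (y + 2 * π) - P Q y) 0 y := fun y => by
    have h2 := (h.hasDerivAt_P (y + 2 * π)).comp_add_const y (2 * π)
    rw [e_add_two_pi, h.deriv_per] at h2
    exact (h2.sub (h.hasDerivAt_P y)).congr_deriv (sub_self _)
  have h3 := is_const_of_deriv_eq_zero (fun y => (h1 y).differentiableAt) (fun y => (h1 y).deriv) x 0
  have h4 : P Q (0 + 2 * π) - P Q 0 = 0 := by
    simp only [P, zero_add]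
    rw [h.closed, intervalIntegral.integral_same, sub_zero]
  rw [h4] at h3
  exact sub_eq_zero.1 h3

theorem per_int (h : Prof Q) (x : ℝ) (k : ℤ) : Q (x + k * (2 * π)) = Q x + k := by
  induction k using Int.induction_on with
  | zero => simp
  | succ n ih =>
    have := h.per (x + (n : ℤ) * (2 * π))
    push_cast at this ih ⊢
    rw [show x + ((n : ℝ) + 1) * (2 * π) = x + n * (2 * π) + 2 * π by ring, this, ih]
    ring
  | pred n ih =>
    have := h.per (x + (-(n : ℤ) - 1 : ℤ) * (2 * π))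
    push_cast at this ih ⊢
    rw [show x + (-(n : ℝ) - 1) * (2 * π) + 2 * π = x + -(n : ℝ) * (2 * π) by ring, ih] at this
    linarith

theorem surjective (h : Prof Q) : Function.Surjective Q := by
  intro y
  have h1 : ∃ k : ℤ, Q 0 + k ≤ y ∧ y ≤ Q 0 + (k + 1) := by
    refine ⟨⌊y - Q 0⌋, ?_, ?_⟩
    · have := Int.floor_le (y - Q 0); linarith
    · have := Int.lt_floor_add_one (y - Q 0); linarith
  obtain ⟨k, h2, h3⟩ := h1
  have h4 := h.per_int 0 k
  have h5 := h.per_int 0 (k + 1)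
  push_cast at h5
  rw [← h4] at h2
  rw [← h5] at h3
  have hle : (0 : ℝ) + k * (2 * π) ≤ 0 + (k + 1) * (2 * π) := by nlinarith [pi_pos]
  obtain ⟨x, -, hx⟩ := intermediate_value_Icc hle h.smooth.continuous.continuousOn ⟨h2, h3⟩
  exact ⟨x, hx⟩

theorem bijective (h : Prof Q) : Function.Bijective Q := ⟨h.strictMono.injective, h.surjective⟩

end Prof

/-- The inverse function: the tangent angle as a function of the arc length. -/
noncomputable def ang (Q : ℝ → ℝ) : ℝ → ℝ := Function.invFun Q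

namespace Prof

variable {Q Q₀ Q₁ : ℝ → ℝ}

theorem ang_Q (h : Prof Q) (x : ℝ) : ang Q (Q x) = x :=
  Function.leftInverse_invFun h.strictMono.injective x

theorem Q_ang (h : Prof Q) (q : ℝ) : Q (ang Q q) = q :=
  Function.rightInverse_invFun h.surjective q

theorem ang_per (h : Prof Q) (q : ℝ) : ang Q (q + 1) = ang Q q + 2 * π := by
  apply h.strictMono.injective
  rw [h.Q_ang, h.per, h.Q_ang]

theorem ang_strictMono (h : Prof Q) : StrictMono (ang Q) := by
  intro a b hab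
  by_contra hcon
  have := h.strictMono.monotone (not_lt.1 hcon)
  rw [h.Q_ang, h.Q_ang] at this
  linarith

/-- Convex combinations. -/
theorem combo (h₀ : Prof Q₀) (h₁ : Prof Q₁) {t : ℝ} (ht : t ∈ Icc (0 : ℝ) 1) :
    Prof fun x => (1 - t) * Q₀ x + t * Q₁ x := by
  have hd : ∀ x, HasDerivAt (fun x => (1 - t) * Q₀ x + t * Q₁ x)
      ((1 - t) * deriv Q₀ x + t * deriv Q₁ x) x := fun x =>
    ((h₀.hasDerivAt x).const_mul _).add ((h₁.hasDerivAt x).const_mul _)
  refine ⟨(contDiff_const.mul h₀.smooth).add (contDiff_const.mul h₁.smooth), fun x => ?_,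
    fun x => ?_, ?_⟩
  · rw [(hd x).deriv]
    have p0 := h₀.pos x
    have p1 := h₁.pos x
    rcases ht.1.eq_or_lt with h | h
    · rw [← h]; linarith
    · nlinarith [ht.2]
  · rw [h₀.per, h₁.per]; ring
  · have h1 : (fun x => e x * ((deriv (fun x => (1 - t) * Q₀ x + t * Q₁ x) x : ℝ) : ℂ)) =
        fun x => ((1 - t : ℝ) : ℂ) * (e x * ((deriv Q₀ x : ℝ) : ℂ)) + (t : ℂ) * (e x * ((deriv Q₁ x : ℝ) : ℂ)) := by
      funext x
      rw [(hd x).deriv]
      push_cast
      ring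
    rw [h1, intervalIntegral.integral_add, intervalIntegral.integral_const_mul,
      intervalIntegral.integral_const_mul, h₀.closed, h₁.closed]
    · simp
    · exact (continuous_const.mul h₀.contDiff_integrand.continuous).intervalIntegrable _ _
    · exact (continuous_const.mul h₁.contDiff_integrand.continuous).intervalIntegrable _ _

theorem P_combo (h₀ : Prof Q₀) (h₁ : Prof Q₁) (t : ℝ) (y : ℝ) :
    P (fun x => (1 - t) * Q₀ x + t * Q₁ x) y = ((1 - t : ℝ) : ℂ) * P Q₀ y + (t : ℂ) * P Q₁ y := by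
  have hd : ∀ x, HasDerivAt (fun x => (1 - t) * Q₀ x + t * Q₁ x)
      ((1 - t) * deriv Q₀ x + t * deriv Q₁ x) x := fun x =>
    ((h₀.hasDerivAt x).const_mul _).add ((h₁.hasDerivAt x).const_mul _)
  have h1 : (fun x => e x * ((deriv (fun x => (1 - t) * Q₀ x + t * Q₁ x) x : ℝ) : ℂ)) =
        fun x => ((1 - t : ℝ) : ℂ) * (e x * ((deriv Q₀ x : ℝ) : ℂ)) + (t : ℂ) * (e x * ((deriv Q₁ x : ℝ) : ℂ)) := by
      funext x
      rw [(hd x).deriv]
      push_cast
      ring
  unfold P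
  rw [h1, intervalIntegral.integral_add, intervalIntegral.integral_const_mul,
      intervalIntegral.integral_const_mul]
  · exact (continuous_const.mul h₀.contDiff_integrand.continuous).intervalIntegrable _ _
  · exact (continuous_const.mul h₁.contDiff_integrand.continuous).intervalIntegrable _ _

/-- The linear isomorphism `(u, v) ↦ (u, a u + b v)`. -/
noncomputable def shear (a b : ℝ) (hb : b ≠ 0) : (ℝ × ℝ) ≃L[ℝ] (ℝ × ℝ) :=
  ContinuousLinearEquiv.equivOfInverse
    ((ContinuousLinearMap.fst ℝ ℝ ℝ).prod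
      (a • ContinuousLinearMap.fst ℝ ℝ ℝ + b • ContinuousLinearMap.snd ℝ ℝ ℝ))
    ((ContinuousLinearMap.fst ℝ ℝ ℝ).prod
      (b⁻¹ • ContinuousLinearMap.snd ℝ ℝ ℝ - (b⁻¹ * a) • ContinuousLinearMap.fst ℝ ℝ ℝ))
    (fun p => by
      refine Prod.ext rfl ?_
      simp
      field_simp
      ring)
    (fun p => by
      refine Prod.ext rfl ?_
      simp
      field_simp
      ring)

/-- The angle depends smoothly on the parameter. -/
theorem contDiff_ang (h₀ : Prof Q₀) (h₁ : Prof Q₁) {σ : ℝ → ℝ} (hσ : ContDiff ℝ ∞ σ)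
    (hσI : ∀ s, σ s ∈ Icc (0 : ℝ) 1) :
    ContDiff ℝ ∞ fun p : ℝ × ℝ => ang (fun x => (1 - σ p.1) * Q₀ x + σ p.1 * Q₁ x) p.2 := by
  set F : ℝ × ℝ → ℝ × ℝ := fun p => (p.1, (1 - σ p.1) * Q₀ p.2 + σ p.1 * Q₁ p.2) with hF
  have hFs : ContDiff ℝ ∞ F := by
    refine contDiff_fst.prodMk ?_
    have hs : ContDiff ℝ ∞ fun p : ℝ × ℝ => σ p.1 := hσ.comp contDiff_fst
    exact ((contDiff_const.sub hs).mul (h₀.smooth.comp contDiff_snd)).add
      (hs.mul (h₁.smooth.comp contDiff_snd))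
  have hpr : ∀ s, Prof fun x => (1 - σ s) * Q₀ x + σ s * Q₁ x := fun s => h₀.combo h₁ (hσI s)
  have hbij : Function.Bijective F := by
    constructor
    · rintro ⟨s, x⟩ ⟨s', x'⟩ h
      simp only [hF, Prod.mk.injEq] at h
      obtain ⟨rfl, h⟩ := h
      exact Prod.ext rfl ((hpr s).strictMono.injective h)
    · rintro ⟨s, y⟩
      obtain ⟨x, hx⟩ := (hpr s).surjective y
      exact ⟨(s, x), Prod.ext rfl hx⟩
  have hder : ∀ p : ℝ × ℝ, HasFDerivAt F
      ((shear (deriv σ p.1 * (Q₁ p.2 - Q₀ p.2))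
        (deriv (fun x => (1 - σ p.1) * Q₀ x + σ p.1 * Q₁ x) p.2) ((hpr p.1).pos p.2).ne' :
          (ℝ × ℝ) ≃L[ℝ] (ℝ × ℝ)) : ℝ × ℝ →L[ℝ] ℝ × ℝ) p := by
    intro p
    have hd : deriv (fun x => (1 - σ p.1) * Q₀ x + σ p.1 * Q₁ x) p.2 =
        (1 - σ p.1) * deriv Q₀ p.2 + σ p.1 * deriv Q₁ p.2 :=
      (((h₀.hasDerivAt p.2).const_mul _).add ((h₁.hasDerivAt p.2).const_mul _)).deriv
    have hσd : HasFDerivAt (fun p : ℝ × ℝ => σ p.1)
        (deriv σ p.1 • ContinuousLinearMap.fst ℝ ℝ ℝ) p := by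
      have := ((hσ.differentiable (by simp)) p.1).hasDerivAt
      exact this.comp_hasFDerivAt p hasFDerivAt_fst
    have hQ0 : HasFDerivAt (fun p : ℝ × ℝ => Q₀ p.2)
        (deriv Q₀ p.2 • ContinuousLinearMap.snd ℝ ℝ ℝ) p :=
      (h₀.hasDerivAt p.2).comp_hasFDerivAt p hasFDerivAt_snd
    have hQ1 : HasFDerivAt (fun p : ℝ × ℝ => Q₁ p.2)
        (deriv Q₁ p.2 • ContinuousLinearMap.snd ℝ ℝ ℝ) p :=
      (h₁.hasDerivAt p.2).comp_hasFDerivAt p hasFDerivAt_snd
    have h1 : HasFDerivAt (fun p : ℝ × ℝ => (1 - σ p.1) * Q₀ p.2 + σ p.1 * Q₁ p.2) _ p :=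
      ((hσd.const_sub 1).mul hQ0).add (hσd.mul hQ1)
    refine ((hasFDerivAt_fst (p := p)).prodMk h1).congr_fderiv ?_
    ext
    · simp [shear]
    · simp [shear]; ring
    · simp [shear]
    · simp [shear, hd]
  have hstrict : ∀ p : ℝ × ℝ, HasStrictFDerivAt F
      ((shear (deriv σ p.1 * (Q₁ p.2 - Q₀ p.2))
        (deriv (fun x => (1 - σ p.1) * Q₀ x + σ p.1 * Q₁ x) p.2) ((hpr p.1).pos p.2).ne' :
          (ℝ × ℝ) ≃L[ℝ] (ℝ × ℝ)) : ℝ × ℝ →L[ℝ] ℝ × ℝ) p := fun p =>
    hFs.contDiffAt.hasStrictFDerivAt' (hder p) (by simp)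
  have hopen : IsOpenMap F := isOpenMap_of_hasStrictFDerivAt_equiv hstrict
  let hom : (ℝ × ℝ) ≃ₜ (ℝ × ℝ) :=
    (Equiv.ofBijective F hbij).toHomeomorphOfContinuousOpen hFs.continuous hopen
  have hsymm : ContDiff ℝ ∞ hom.symm := hom.contDiff_symm hder hFs
  have heq : (fun p : ℝ × ℝ => ang (fun x => (1 - σ p.1) * Q₀ x + σ p.1 * Q₁ x) p.2) =
      fun p => (hom.symm p).2 := by
    funext p
    have h1 : F (hom.symm p) = p := hom.apply_symm_apply p
    have h2 : (hom.symm p).1 = p.1 := by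
      have : (F (hom.symm p)).1 = p.1 := by rw [h1]
      exact this
    have h3 : (1 - σ (hom.symm p).1) * Q₀ (hom.symm p).2 + σ (hom.symm p).1 * Q₁ (hom.symm p).2 =
        p.2 := by
      have : (F (hom.symm p)).2 = p.2 := by rw [h1]
      exact this
    rw [h2] at h3
    have h4 := (hpr p.1).ang_Q (hom.symm p).2
    simp only [h3] at h4
    exact h4
  rw [heq]
  exact contDiff_snd.comp hsymm

end Prof

end Q169.Billiard
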