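import Pool.Agent.Q169.BilApprox

/-!
Approximation of a monotone tangent angle by profiles.
-/

set_option autoImplicit false

open Set MeasureTheory Real Filter
open scoped ContDiff ENNReal Topology

namespace Q169.Billiard

variable {θ : ℝ → ℝ}

theorem exists_prof (hθ : Monotone θ) (hper : ∀ q, θ (q + 1) = θ q + 2 * π)
    (hcl : ∫ t in (0 : ℝ)..1, e (θ t) = 0) {δ : ℝ} (h0 : 0 < δ) (h1 : δ < 1) :
    ∃ Q, Prof Q ∧ (∀ q, ang Q q ≤ θ (q + δ) + δ) ∧ (∀ q, θ (q - δ) - δ ≤ ang Q q) := by
  obtain ⟨r, r0, r1, hr⟩ := exists_r h0 h1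
  have hpi := pi_pos
  have hHs := contDiff_H r0 r1
  have hHd : ∀ x, HasDerivAt (H r) (deriv (H r) x) x := fun x =>
    ((hHs.differentiable (by simp)) x).hasDerivAt
  have hHc : Continuous (deriv (H r)) := hHs.continuous_deriv (by simp)
  set m := (1 - r ^ 2) / (2 * π * (1 + r) ^ 2) with hm
  have hmpos : 0 < m := by
    have : 0 < 1 - r ^ 2 := by nlinarith
    positivity
  have hHpos : ∀ x, 0 < deriv (H r) x := fun x => hmpos.trans_le (H_deriv_ge r0 r1 x)
  have hHmono : StrictMono (H r) := strictMono_of_deriv_pos hHpos
  set G : ℝ → ℝ := fun x => ∫ t in (0 : ℝ)..1, H r (x - θ t) with hG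
  have hGd : ∀ x, HasDerivAt G (∫ t in (0 : ℝ)..1, deriv (H r) (x - θ t)) x := by
    intro x
    have h := hasDerivAt_param hθ (w := fun _ => (1 : ℝ)) measurable_const (fun _ => by simp)
      hHd hHc x
    simpa using h
  have hint : ∀ f : ℝ → ℝ, Continuous f → ∀ x a b : ℝ,
      IntervalIntegrable (fun t => f (x - θ t)) volume a b := by
    intro f hf x a b
    rw [intervalIntegrable_iff]
    obtain ⟨M, hM⟩ := (isCompact_Icc (a := x - θ (max a b)) (b := x - θ (min a b))).exists_bound_of_continuousOn
      hf.continuousOn
    refine Measure.integrableOn_of_bounded (M := M) (by simp [uIoc])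
      (hf.measurable.comp (measurable_const.sub hθ.measurable)).aestronglyMeasurable ?_
    refine (ae_restrict_iff' measurableSet_uIoc).2 (Eventually.of_forall fun t ht => ?_)
    rw [uIoc] at ht
    exact hM _ ⟨by linarith [hθ ht.2], by linarith [hθ ht.1.le]⟩
  -- the shift formula
  have hshift : ∀ x q, ∫ t in q..(q + 1), H r (x - θ t) = G x - q := by
    intro x q
    have hp : Function.Periodic (fun t => H r (x - θ t) + t) 1 := fun t => by
      have h2 := H_per r (x - θ t - 2 * π)
      rw [sub_add_cancel] at h2
      simp only [hper]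
      rw [← sub_sub, h2]
      ring
    have h2 := hp.intervalIntegral_add_eq q 0
    have hid : ∀ a b : ℝ, IntervalIntegrable (fun t : ℝ => t) volume a b := fun a b =>
      continuous_id.intervalIntegrable a b
    rw [zero_add, intervalIntegral.integral_add (hint _ hHs.continuous _ _ _)
      (hid _ _), intervalIntegral.integral_add
      (hint _ hHs.continuous _ _ _) (hid _ _), integral_id,
      integral_id] at h2
    simp only [hG]
    nlinarith
  have hprof : Prof G := by
    refine ⟨contDiff_infty.2 fun n => contDiff_param hθ n _ hHs, fun x => ?_, fun x => ?_, ?_⟩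
    · rw [(hGd x).deriv]
      have h2 : ∫ t in (0 : ℝ)..1, m ≤ ∫ t in (0 : ℝ)..1, deriv (H r) (x - θ t) :=
        intervalIntegral.integral_mono_on zero_le_one intervalIntegrable_const
          (hint _ hHc _ _ _) fun t _ => H_deriv_ge r0 r1 _
      rw [intervalIntegral.integral_const, sub_zero, one_smul] at h2
      exact hmpos.trans_le h2
    · simp only [hG]
      have h2 : (fun t => H r (x + 2 * π - θ t)) = fun t => H r (x - θ t) + 1 := by
        funext t
        rw [← H_per]
        congr 1
        ring
      rw [h2, intervalIntegral.integral_add (hint _ hHs.continuous _ _ _) intervalIntegrable_const,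
        intervalIntegral.integral_const]
      simp
    · -- the closing condition
      set A : ℝ → ℂ := fun y => ∫ s in (0 : ℝ)..y, e s * ((deriv (H r) s : ℝ) : ℂ) with hA
      have hAc : Continuous fun s => e s * ((deriv (H r) s : ℝ) : ℂ) :=
        continuous_e.mul (Complex.continuous_ofReal.comp hHc)
      have hAd : ∀ y, HasDerivAt A (e y * ((deriv (H r) y : ℝ) : ℂ)) y := fun y =>
        (hAc.integral_hasStrictDerivAt 0 y).hasDerivAt
      have hmeas : Measurable fun t => e (θ t) := continuous_e.measurable.comp hθ.measurable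
      have hBd : ∀ x, HasDerivAt (fun x => ∫ t in (0 : ℝ)..1, e (θ t) * A (x - θ t))
          (e x * ((deriv G x : ℝ) : ℂ)) x := by
        intro x
        refine (hasDerivAt_param hθ hmeas (fun t => (norm_e _).le) hAd hAc x).congr_deriv ?_
        have h2 : (fun t => e (θ t) * (e (x - θ t) * ((deriv (H r) (x - θ t) : ℝ) : ℂ))) =
            fun t => e x * ((deriv (H r) (x - θ t) : ℝ) : ℂ) := by
          funext t
          rw [← mul_assoc, ← e_add]
          congr 2
          ring
        rw [h2, intervalIntegral.integral_const_mul, (hGd x).deriv, intervalIntegral.integral_ofReal]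
      have hcont : Continuous fun x => e x * ((deriv G x : ℝ) : ℂ) := by
        have : ContDiff ℝ ∞ G := contDiff_infty.2 fun n => contDiff_param hθ n _ hHs
        exact continuous_e.mul (Complex.continuous_ofReal.comp (this.continuous_deriv (by simp)))
      rw [intervalIntegral.integral_eq_sub_of_hasDerivAt (fun x _ => hBd x)
        (hcont.intervalIntegrable _ _)]
      have hAi : ∀ x, IntervalIntegrable (fun t => e (θ t) * A (x - θ t)) volume 0 1 := by
        intro x
        have hAcont : Continuous A := continuous_iff_continuousAt.2 fun y => (hAd y).continuousAt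
        rw [intervalIntegrable_iff]
        obtain ⟨M, hM⟩ := (isCompact_Icc (a := x - θ (max 0 1)) (b := x - θ (min 0 1))).exists_bound_of_continuousOn
          hAcont.continuousOn
        refine Measure.integrableOn_of_bounded (M := M) (by simp [uIoc])
          (hmeas.mul (hAcont.measurable.comp (measurable_const.sub hθ.measurable))).aestronglyMeasurable ?_
        refine (ae_restrict_iff' measurableSet_uIoc).2 (Eventually.of_forall fun t ht => ?_)
        rw [uIoc] at ht
        rw [norm_mul, norm_e, one_mul]
        exact hM _ ⟨by linarith [hθ ht.2], by linarith [hθ ht.1.le]⟩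
      rw [← intervalIntegral.integral_sub (hAi _) (hAi _)]
      have hAper : ∀ y, A (y + 2 * π) = A y + A (2 * π) := by
        intro y
        have hdper : Function.Periodic (fun s => e s * ((deriv (H r) s : ℝ) : ℂ)) (2 * π) := by
          intro s
          have h3 : deriv (H r) (s + 2 * π) = deriv (H r) s := by
            have h4 : deriv (fun y => H r (y + 2 * π)) s = deriv (H r) (s + 2 * π) :=
              deriv_comp_add_const _ _ _
            have h5 : (fun y => H r (y + 2 * π)) = fun y => H r y + 1 := funext (H_per r)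
            rw [← h4, h5, deriv_add_const]
          simp only [e_add_two_pi, h3]
        have h3 := hdper.intervalIntegral_add_eq y 0
        rw [zero_add] at h3
        simp only [hA]
        rw [← intervalIntegral.integral_add_adjacent_intervals (hAc.intervalIntegrable 0 y)
          (hAc.intervalIntegrable y (y + 2 * π)), h3]
      have h4 : (fun t => e (θ t) * A (2 * π - θ t) - e (θ t) * A (0 - θ t)) =
          fun t => e (θ t) * A (2 * π) := by
        funext t
        have h5 := hAper (0 - θ t)
        have h6 : 0 - θ t + 2 * π = 2 * π - θ t := by ring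
        rw [h6] at h5
        rw [h5]
        ring
      rw [h4, intervalIntegral.integral_mul_const, hcl, zero_mul]
  refine ⟨G, hprof, fun q => ?_, fun q => ?_⟩
  · -- upper bound
    have h2 : q ≤ G (θ (q + δ) + δ) := by
      have h3 := hshift (θ (q + δ) + δ) (q + δ)
      have h4 : ∫ t in (q + δ)..(q + δ + 1), (-δ) ≤
          ∫ t in (q + δ)..(q + δ + 1), H r (θ (q + δ) + δ - θ t) := by
        refine intervalIntegral.integral_mono_on (by linarith) intervalIntegrable_const
          (hint _ hHs.continuous _ _ _) fun t ht => ?_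
        have h5 : θ t ≤ θ (q + δ) + 2 * π := by rw [← hper]; exact hθ ht.2
        have h6 : H r (δ - 2 * π) ≤ H r (θ (q + δ) + δ - θ t) := hHmono.monotone (by linarith)
        have h7 := H_per r (δ - 2 * π)
        rw [sub_add_cancel] at h7
        linarith
      rw [intervalIntegral.integral_const, add_sub_cancel_left, one_smul, h3] at h4
      linarith
    have h8 := hprof.ang_strictMono.monotone h2
    rwa [hprof.ang_Q] at h8
  · have h2 : G (θ (q - δ) - δ) ≤ q := by
      have h3 := hshift (θ (q - δ) - δ) (q - δ - 1)
      have h4 : ∫ t in (q - δ - 1)..(q - δ - 1 + 1), H r (θ (q - δ) - δ - θ t) ≤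
          ∫ t in (q - δ - 1)..(q - δ - 1 + 1), (1 + δ) := by
        refine intervalIntegral.integral_mono_on (by linarith) (hint _ hHs.continuous _ _ _)
          intervalIntegrable_const fun t ht => ?_
        have h5 : θ (q - δ) ≤ θ t + 2 * π := by rw [← hper]; exact hθ (by linarith [ht.1])
        have h6 : H r (θ (q - δ) - δ - θ t) ≤ H r (2 * π - δ) := hHmono.monotone (by linarith)
        have h7 := H_per r (-δ)
        rw [H_neg, neg_add_eq_sub] at h7
        linarith
      rw [intervalIntegral.integral_const, add_sub_cancel_left, one_smul, h3] at h4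
      linarith
    have h8 := hprof.ang_strictMono.monotone h2
    rwa [hprof.ang_Q] at h8

/-- The arc length parametrization is determined by the angle. -/
theorem Prof.curve_eq {Q : ℝ → ℝ} (h : Prof Q) (c : ℂ) (q : ℝ) :
    curve Q c q = c + ∫ t in (0 : ℝ)..q, e (ang Q t) := by
  have hc : Continuous fun t => e (ang Q t) := continuous_e.comp h.contDiff_ang'.continuous
  rw [intervalIntegral.integral_eq_sub_of_hasDerivAt (fun x _ => h.hasDerivAt_curve c x)
    (hc.intervalIntegrable _ _)]
  simp only [curve]
  ring

theorem norm_e_sub_e (x y : ℝ) : ‖e x - e y‖ ≤ |x - y| := by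
  have h1 : e x - e y = e y * (e (x - y) - 1) := by
    rw [mul_sub, ← e_add, mul_one]
    congr 2
    ring
  rw [h1, norm_mul, norm_e, one_mul]
  have := Real.norm_exp_I_mul_ofReal_sub_one_le (x := x - y)
  rw [Real.norm_eq_abs] at this
  simpa [e, mul_comm] using this

/-- Closeness of the curves. -/
theorem curve_close (hθ : Monotone θ) (hper : ∀ q, θ (q + 1) = θ q + 2 * π) {δ : ℝ} (h0 : 0 < δ)
    {Q : ℝ → ℝ} (h : Prof Q) (hub : ∀ q, ang Q q ≤ θ (q + δ) + δ)
    (hlb : ∀ q, θ (q - δ) - δ ≤ ang Q q) (c : ℂ) {q : ℝ} (hq : q ∈ Icc (0 : ℝ) 1) :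
    ‖curve Q c q - (c + ∫ t in (0 : ℝ)..q, e (θ t))‖ ≤ 2 * δ * (2 * π) + δ := by
  have hi : ∀ u v : ℝ, IntervalIntegrable θ volume u v := fun u v => hθ.intervalIntegrable
  have hmeas : Measurable fun t => e (θ t) := continuous_e.measurable.comp hθ.measurable
  have hc : Continuous fun t => e (ang Q t) := continuous_e.comp h.contDiff_ang'.continuous
  have hie : ∀ u v : ℝ, IntervalIntegrable (fun t => e (θ t)) volume u v := by
    intro u v
    rw [intervalIntegrable_iff]
    refine Measure.integrableOn_of_bounded (M := 1) (by simp [uIoc]) hmeas.aestronglyMeasurable ?_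
    exact Eventually.of_forall fun t => (norm_e _).le
  have i1' : IntervalIntegrable (fun x => θ (x + δ)) volume 0 1 := by
    have := (hi (0 + δ) (1 + δ)).comp_add_right δ
    simpa using this
  have i2' : IntervalIntegrable (fun x => θ (x - δ)) volume 0 1 := by
    have := (hi (0 - δ) (1 - δ)).comp_sub_right δ
    simpa using this
  have i3 : IntervalIntegrable (fun t => θ (t + δ) - θ (t - δ) + δ) volume 0 1 :=
    (i1'.sub i2').add intervalIntegrable_const
  have hpt : ∀ t, ‖e (ang Q t) - e (θ t)‖ ≤ θ (t + δ) - θ (t - δ) + δ := by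
    intro t
    refine (norm_e_sub_e _ _).trans (abs_le.2 ⟨?_, ?_⟩)
    · have := hlb t
      have h2 : θ t ≤ θ (t + δ) := hθ (by linarith)
      linarith
    · have := hub t
      have h2 : θ (t - δ) ≤ θ t := hθ (by linarith)
      linarith
  rw [h.curve_eq, add_sub_add_left_eq_sub, ← intervalIntegral.integral_sub
    (hc.intervalIntegrable _ _) (hie _ _)]
  calc ‖∫ t in (0 : ℝ)..q, (e (ang Q t) - e (θ t))‖
      ≤ ∫ t in (0 : ℝ)..q, ‖e (ang Q t) - e (θ t)‖ :=
        intervalIntegral.norm_integral_le_integral_norm hq.1
    _ ≤ ∫ t in (0 : ℝ)..1, ‖e (ang Q t) - e (θ t)‖ := by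
        have hii : ∀ u v : ℝ, IntervalIntegrable (fun t => ‖e (ang Q t) - e (θ t)‖) volume u v :=
          fun u v => ((hc.intervalIntegrable u v).sub (hie u v)).norm
        rw [← intervalIntegral.integral_add_adjacent_intervals (hii 0 q) (hii q 1)]
        have : 0 ≤ ∫ t in q..(1 : ℝ), ‖e (ang Q t) - e (θ t)‖ :=
          intervalIntegral.integral_nonneg hq.2 fun t _ => norm_nonneg _
        linarith
    _ ≤ ∫ t in (0 : ℝ)..1, (θ (t + δ) - θ (t - δ) + δ) :=
        intervalIntegral.integral_mono_on zero_le_one
          (((hc.intervalIntegrable _ _).sub (hie _ _)).norm) i3 fun t _ => hpt t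
    _ = 2 * δ * (2 * π) + δ := by
        rw [intervalIntegral.integral_add (i1'.sub i2') intervalIntegrable_const,
          integral_shift_diff hi hper, intervalIntegral.integral_const]
        simp

end Q169.Billiard
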