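import Pool.Agent.Q169.BilProf

/-!
The curve of a profile is a billiard table.
-/

set_option autoImplicit false

open Set MeasureTheory Real Filter
open scoped ContDiff ENNReal Topology

namespace Q169.Billiard

/-- The curve with starting point `c`. -/
noncomputable def curve (Q : ℝ → ℝ) (c : ℂ) (q : ℝ) : ℂ := c + P Q (ang Q q) - P Q (ang Q 0)

theorem cross_e_left (a : ℝ) (z : ℂ) : cross (e a) z = cos a * z.im - sin a * z.re := by
  simp [cross, e_re, e_im]

theorem cross_add (u v w : ℂ) : cross u (v + w) = cross u v + cross u w := by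
  simp [cross]; ring

theorem cross_sub (u v w : ℂ) : cross u (v - w) = cross u v - cross u w := by
  simp [cross]; ring

theorem cross_smul (u v : ℂ) (r : ℝ) : cross u (r • v) = r * cross u v := by
  simp [cross]; ring

theorem cross_e_e (a x : ℝ) : cross (e a) (e x) = sin (x - a) := by
  rw [cross_e_left, e_re, e_im, sin_sub]; ring

theorem cross_e_e_mul (a x r : ℝ) : cross (e a) (e x * (r : ℂ)) = r * sin (x - a) := by
  rw [cross_e_left, sin_sub]
  simp [e_re, e_im]
  ring

namespace Prof

variable {Q Q₀ Q₁ : ℝ → ℝ}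

theorem contDiff_ang' (h : Prof Q) : ContDiff ℝ ∞ (ang Q) := by
  have h1 := h.contDiff_ang h (σ := fun _ => 0) contDiff_const (fun _ => ⟨le_rfl, zero_le_one⟩)
  have h2 : (fun x => (1 - 0) * Q x + 0 * Q x) = Q := by funext x; ring
  simp only [h2] at h1
  exact h1.comp ((contDiff_const (c := (0 : ℝ))).prodMk contDiff_id)

theorem hasDerivAt_ang (h : Prof Q) (q : ℝ) : HasDerivAt (ang Q) (deriv Q (ang Q q))⁻¹ q := by
  have h1 : HasDerivAt (ang Q) (deriv (ang Q) q) q :=
    ((h.contDiff_ang'.differentiable (by simp)) q).hasDerivAt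
  have h2 := (h.hasDerivAt (ang Q q)).comp q h1
  have h3 : Q ∘ ang Q = fun q => q := funext h.Q_ang
  rw [h3] at h2
  have h4 := h2.unique (hasDerivAt_id q)
  have h5 := (h.pos (ang Q q)).ne'
  have h6 : deriv (ang Q) q = (deriv Q (ang Q q))⁻¹ := by
    field_simp
    linarith
  rwa [h6] at h1

theorem hasDerivAt_P_ang (h : Prof Q) (q : ℝ) :
    HasDerivAt (fun q => P Q (ang Q q)) (e (ang Q q)) q := by
  have h1 := (h.hasDerivAt_P (ang Q q)).scomp q (h.hasDerivAt_ang q)
  refine h1.congr_deriv ?_
  have h5 : ((deriv Q (ang Q q) : ℝ) : ℂ) ≠ 0 := by exact_mod_cast (h.pos (ang Q q)).ne'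
  rw [Complex.real_smul]
  push_cast
  field_simp

theorem hasDerivAt_curve (h : Prof Q) (c : ℂ) (q : ℝ) :
    HasDerivAt (curve Q c) (e (ang Q q)) q :=
  ((h.hasDerivAt_P_ang q).const_add c).sub_const _

theorem deriv_curve (h : Prof Q) (c : ℂ) : deriv (curve Q c) = fun q => e (ang Q q) :=
  funext fun q => (h.hasDerivAt_curve c q).deriv

theorem contDiff_curve (h : Prof Q) (c : ℂ) : ContDiff ℝ ∞ (curve Q c) :=
  (contDiff_const.add (h.contDiff_P.comp h.contDiff_ang')).sub contDiff_const

/-- The curve lies to the left of its tangents. -/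
theorem cross_P_pos (h : Prof Q) {a x : ℝ} (h1 : a < x) (h2 : x < a + 2 * π) :
    0 < cross (e a) (P Q x - P Q a) := by
  have hpi := pi_pos
  have hd : ∀ x, HasDerivAt (fun x => cross (e a) (P Q x - P Q a)) (deriv Q x * sin (x - a)) x := by
    intro x
    have h3 := (h.hasDerivAt_P x).sub_const (P Q a)
    have hre := Complex.reCLM.hasFDerivAt.comp_hasDerivAt x h3
    have him := Complex.imCLM.hasFDerivAt.comp_hasDerivAt x h3
    have h4 := (him.const_mul (cos a)).sub (hre.const_mul (sin a))
    have h5 : (fun x => cross (e a) (P Q x - P Q a)) = fun x =>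
        cos a * Complex.imCLM (P Q x - P Q a) - sin a * Complex.reCLM (P Q x - P Q a) := by
      funext x
      rw [cross_e_left]
      rfl
    rw [h5]
    refine h4.congr_deriv ?_
    rw [sin_sub]
    simp [e_re, e_im]
    ring
  have hc : Continuous fun x => cross (e a) (P Q x - P Q a) :=
    continuous_iff_continuousAt.2 fun x => (hd x).continuousAt
  rcases le_or_gt x (a + π) with h3 | h3
  · have hm : StrictMonoOn (fun x => cross (e a) (P Q x - P Q a)) (Icc a (a + π)) := by
      refine strictMonoOn_of_deriv_pos (convex_Icc _ _) hc.continuousOn fun y hy => ?_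
      rw [interior_Icc] at hy
      rw [(hd y).deriv]
      exact mul_pos (h.pos y) (sin_pos_of_pos_of_lt_pi (by linarith [hy.1]) (by linarith [hy.2]))
    have := hm (left_mem_Icc.2 (by linarith)) ⟨h1.le, h3⟩ h1
    simpa [cross] using this
  · have hm : StrictAntiOn (fun x => cross (e a) (P Q x - P Q a)) (Icc (a + π) (a + 2 * π)) := by
      refine strictAntiOn_of_deriv_neg (convex_Icc _ _) hc.continuousOn fun y hy => ?_
      rw [interior_Icc] at hy
      rw [(hd y).deriv]
      refine mul_neg_of_pos_of_neg (h.pos y) ?_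
      have h5 : sin (y - a) = -sin (y - a - π) := by
        rw [sin_sub_pi, neg_neg]
      rw [h5]
      exact neg_neg_of_pos (sin_pos_of_pos_of_lt_pi (by linarith [hy.1]) (by linarith [hy.2]))
    have := hm ⟨h3.le, h2.le⟩ (right_mem_Icc.2 (by linarith)) h2
    simp only [h.P_per] at this
    simpa [cross] using this

theorem exists_shift (a x : ℝ) : ∃ k : ℤ, a ≤ x + k * (2 * π) ∧ x + k * (2 * π) < a + 2 * π := by
  refine ⟨-⌊(x - a) / (2 * π)⌋, ?_, ?_⟩
  · have h := Int.floor_le ((x - a) / (2 * π))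
    have hp : 0 < 2 * π := by positivity
    rw [le_div_iff₀ hp] at h
    push_cast
    linarith
  · have h := Int.lt_floor_add_one ((x - a) / (2 * π))
    have hp : 0 < 2 * π := by positivity
    rw [div_lt_iff₀ hp] at h
    push_cast
    linarith

theorem P_per_int (h : Prof Q) (x : ℝ) (k : ℤ) : P Q (x + k * (2 * π)) = P Q x := by
  have := (show Function.Periodic (P Q) (2 * π) from h.P_per).int_mul k x
  simpa using this

theorem P_inj (h : Prof Q) {a x : ℝ} (hax : P Q a = P Q x) : ∃ k : ℤ, x + k * (2 * π) = a := by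
  obtain ⟨k, h1, h2⟩ := exists_shift a x
  refine ⟨k, ?_⟩
  rcases h1.eq_or_lt with h3 | h3
  · exact h3.symm
  · have := h.cross_P_pos h3 h2
    rw [h.P_per_int, ← hax] at this
    simp [cross] at this

theorem range_curve (h : Prof Q) (c : ℂ) :
    range (curve Q c) = range fun x => c - P Q (ang Q 0) + P Q x := by
  ext z
  constructor
  · rintro ⟨q, rfl⟩
    refine ⟨ang Q q, ?_⟩
    simp only [curve]
    ring
  · rintro ⟨x, rfl⟩
    refine ⟨Q x, ?_⟩
    simp only [curve, h.ang_Q]
    ring

theorem cross_nonneg (h : Prof Q) (a x : ℝ) : 0 ≤ cross (e a) (P Q x - P Q a) := by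
  obtain ⟨k, h1, h2⟩ := exists_shift a x
  rw [← h.P_per_int x k]
  rcases h1.eq_or_lt with h3 | h3
  · rw [← h3]; simp [cross]
  · exact (h.cross_P_pos h3 h2).le

theorem cross_pos_or (h : Prof Q) (a x : ℝ) : 0 < cross (e a) (P Q x - P Q a) ∨ P Q x = P Q a := by
  obtain ⟨k, h1, h2⟩ := exists_shift a x
  rw [← h.P_per_int x k]
  rcases h1.eq_or_lt with h3 | h3
  · right; rw [← h3]
  · left; exact h.cross_P_pos h3 h2

/-- The distance to the supporting line is continuous. -/
theorem hasDerivAt_cross (h : Prof Q) (p₀ y : ℂ) (a : ℝ) :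
    HasDerivAt (fun a => cross (e a) (y - (p₀ + P Q a)))
      (cross (e a * Complex.I) (y - (p₀ + P Q a))) a := by
  have h1 := ((h.hasDerivAt_P a).const_add p₀).const_sub y
  have hre := Complex.reCLM.hasFDerivAt.comp_hasDerivAt a h1
  have him := Complex.imCLM.hasFDerivAt.comp_hasDerivAt a h1
  have h4 := ((hasDerivAt_cos a).mul him).sub ((hasDerivAt_sin a).mul hre)
  have h5 : (fun a => cross (e a) (y - (p₀ + P Q a))) = fun a =>
      cos a * Complex.imCLM (y - (p₀ + P Q a)) - sin a * Complex.reCLM (y - (p₀ + P Q a)) := by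
    funext a
    rw [cross_e_left]
    rfl
  rw [h5]
  refine h4.congr_deriv ?_
  simp [cross, e_re, e_im]
  ring

/-- The convex body bounded by the curve. -/
def body (Q : ℝ → ℝ) (p₀ : ℂ) : Set ℂ := {y | ∀ a, 0 ≤ cross (e a) (y - (p₀ + P Q a))}

theorem mem_interior_body (h : Prof Q) (p₀ : ℂ) {y : ℂ}
    (hy : ∀ a, 0 < cross (e a) (y - (p₀ + P Q a))) : y ∈ interior (body Q p₀) := by
  have hc : Continuous fun a => cross (e a) (y - (p₀ + P Q a)) :=
    continuous_iff_continuousAt.2 fun a => (h.hasDerivAt_cross p₀ y a).continuousAt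
  obtain ⟨a₀, -, ha₀⟩ := isCompact_Icc.exists_isMinOn (nonempty_Icc.2 (by positivity : (0 : ℝ) ≤ 2 * π))
    hc.continuousOn
  have hmin : ∀ a, cross (e a₀) (y - (p₀ + P Q a₀)) ≤ cross (e a) (y - (p₀ + P Q a)) := by
    intro a
    obtain ⟨k, h1, h2⟩ := exists_shift 0 a
    have h3 := ha₀ (show a + k * (2 * π) ∈ Icc (0 : ℝ) (2 * π) from ⟨h1, by linarith⟩)
    have h4 : e (a + k * (2 * π)) = e a := by
      have := (show Function.Periodic e (2 * π) from e_add_two_pi).int_mul k a
      simpa using this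
    simp only [mem_ofPred_eq, h.P_per_int, h4] at h3
    exact h3
  set m := cross (e a₀) (y - (p₀ + P Q a₀)) with hm
  have hmpos : 0 < m := hy a₀
  rw [mem_interior_iff_mem_nhds, Metric.mem_nhds_iff]
  refine ⟨m / 2, by positivity, fun z hz a => ?_⟩
  rw [mem_ball_iff_norm] at hz
  have h1 : z - (p₀ + P Q a) = (y - (p₀ + P Q a)) + (z - y) := by ring
  rw [h1, cross_add]
  have h2 : -(2 * ‖z - y‖) ≤ cross (e a) (z - y) := by
    rw [cross_e_left]
    have i1 := abs_le.1 (Complex.abs_re_le_norm (z - y))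
    have i2 := abs_le.1 (Complex.abs_im_le_norm (z - y))
    have i3 := abs_le.1 (abs_cos_le_one a)
    have i4 := abs_le.1 (abs_sin_le_one a)
    have i5 := norm_nonneg (z - y)
    nlinarith [abs_le.1 (show |cos a * (z - y).im| ≤ ‖z - y‖ by
        rw [abs_mul]
        calc |cos a| * |(z - y).im| ≤ 1 * ‖z - y‖ := by
              gcongr
              · exact abs_cos_le_one a
              · exact Complex.abs_im_le_norm _
          _ = _ := one_mul _),
      abs_le.1 (show |sin a * (z - y).re| ≤ ‖z - y‖ by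
        rw [abs_mul]
        calc |sin a| * |(z - y).re| ≤ 1 * ‖z - y‖ := by
              gcongr
              · exact abs_sin_le_one a
              · exact Complex.abs_re_le_norm _
          _ = _ := one_mul _)]
  linarith [hmin a]

theorem bounds (h : Prof Q) (p₀ : ℂ) : Bounds (fun x => p₀ + P Q x) (body Q p₀) := by
  have hconv : Convex ℝ (body Q p₀) := by
    intro y hy z hz s t hs ht hst a
    have : s • y + t • z - (p₀ + P Q a) = s • (y - (p₀ + P Q a)) + t • (z - (p₀ + P Q a)) := by
      have h1 : (p₀ + P Q a) = (s + t) • (p₀ + P Q a) := by rw [hst, one_smul]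
      conv_lhs => rw [h1]
      rw [add_smul, smul_sub, smul_sub]
      ring
    rw [this, cross_add, cross_smul, cross_smul]
    exact add_nonneg (mul_nonneg hs (hy a)) (mul_nonneg ht (hz a))
  have hclosed : IsClosed (body Q p₀) := by
    have : body Q p₀ = ⋂ a, {y | 0 ≤ cross (e a) (y - (p₀ + P Q a))} := by
      ext y
      simp [body]
    rw [this]
    refine isClosed_iInter fun a => isClosed_le continuous_const ?_
    simp only [cross_e_left]
    fun_prop
  have hbdd : Bornology.IsBounded (body Q p₀) := by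
    rw [isBounded_iff_forall_norm_le]
    refine ⟨‖p₀ + P Q 0‖ + ‖p₀ + P Q π‖ + ‖p₀ + P Q (π / 2)‖ + ‖p₀ + P Q (-(π / 2))‖,
      fun y hy => ?_⟩
    have h1 := hy 0
    have h2 := hy π
    have h3 := hy (π / 2)
    have h4 := hy (-(π / 2))
    rw [cross_e_left] at h1 h2 h3 h4
    simp only [cos_zero, sin_zero, cos_pi, sin_pi, cos_pi_div_two, sin_pi_div_two, cos_neg, sin_neg,
      Complex.sub_re, Complex.sub_im] at h1 h2 h3 h4
    have i1 := abs_le.1 (Complex.abs_im_le_norm (p₀ + P Q 0))
    have i2 := abs_le.1 (Complex.abs_im_le_norm (p₀ + P Q π))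
    have i3 := abs_le.1 (Complex.abs_re_le_norm (p₀ + P Q (π / 2)))
    have i4 := abs_le.1 (Complex.abs_re_le_norm (p₀ + P Q (-(π / 2))))
    have j1 : |y.im| ≤ ‖p₀ + P Q 0‖ + ‖p₀ + P Q π‖ := abs_le.2 ⟨by
      linarith [norm_nonneg (p₀ + P Q π)], by linarith [norm_nonneg (p₀ + P Q 0)]⟩
    have j2 : |y.re| ≤ ‖p₀ + P Q (π / 2)‖ + ‖p₀ + P Q (-(π / 2))‖ := abs_le.2 ⟨by
      linarith [norm_nonneg (p₀ + P Q (π / 2))], by linarith [norm_nonneg (p₀ + P Q (-(π / 2)))]⟩
    linarith [Complex.norm_le_abs_re_add_abs_im y]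
  have hrange : ∀ x, p₀ + P Q x ∈ body Q p₀ := fun x a => by
    rw [add_sub_add_left_eq_sub]
    exact h.cross_nonneg a x
  have hpi := pi_pos
  have hint : (interior (body Q p₀)).Nonempty := by
    refine ⟨(1 / 2 : ℝ) • (p₀ + P Q 0) + (1 / 2 : ℝ) • (p₀ + P Q π), h.mem_interior_body p₀ fun a => ?_⟩
    have : (1 / 2 : ℝ) • (p₀ + P Q 0) + (1 / 2 : ℝ) • (p₀ + P Q π) - (p₀ + P Q a) =
        (1 / 2 : ℝ) • (P Q 0 - P Q a) + (1 / 2 : ℝ) • (P Q π - P Q a) := by
      simp only [Complex.real_smul]
      push_cast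
      ring
    rw [this, cross_add, cross_smul, cross_smul]
    rcases h.cross_pos_or a 0 with h1 | h1
    · linarith [h.cross_nonneg a π]
    · rcases h.cross_pos_or a π with h2 | h2
      · linarith [h.cross_nonneg a 0]
      · exfalso
        have h3 : P Q 0 = P Q π := by rw [h1, h2]
        obtain ⟨k, hk⟩ := h.P_inj h3
        have h4 : π * (1 + 2 * (k : ℝ)) = 0 := by linarith
        have h5 : (1 + 2 * (k : ℝ)) = 0 := (mul_eq_zero.1 h4).resolve_left hpi.ne'
        have h6 : (1 + 2 * k : ℤ) = 0 := by exact_mod_cast h5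
        omega
  refine ⟨hconv, Metric.isCompact_of_isClosed_isBounded hclosed hbdd, hint, ?_⟩
  rw [hclosed.frontier_eq]
  apply Subset.antisymm
  · rintro x ⟨hx, hxi⟩
    have : ∃ a, cross (e a) (x - (p₀ + P Q a)) = 0 := by
      by_contra hcon
      push Not at hcon
      exact hxi (h.mem_interior_body p₀ fun a => lt_of_le_of_ne (hx a) (hcon a).symm)
    obtain ⟨a, ha⟩ := this
    refine ⟨a, ?_⟩
    have hmin : IsLocalMin (fun a => cross (e a) (x - (p₀ + P Q a))) a :=
      Eventually.of_forall fun b => by simp only [ha]; exact hx b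
    have h0 := hmin.hasDerivAt_eq_zero (h.hasDerivAt_cross p₀ x a)
    set z := x - (p₀ + P Q a) with hz
    have h1 : z = 0 := by
      simp only [cross, Complex.mul_re, Complex.mul_im, Complex.I_re, Complex.I_im, e_re, e_im] at h0 ha
      have h2 := sin_sq_add_cos_sq a
      apply Complex.ext
      · simp only [Complex.zero_re]
        linear_combination (-z.re) * h2 - sin a * ha - cos a * h0
      · simp only [Complex.zero_im]
        linear_combination (-z.im) * h2 + cos a * ha - sin a * h0
    simp only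
    rw [← sub_eq_zero, ← neg_eq_zero, neg_sub]
    exact h1
  · rintro _ ⟨a, rfl⟩
    refine ⟨hrange a, fun hmem => ?_⟩
    have hnhds := mem_interior_iff_mem_nhds.1 hmem
    have ht : Tendsto (fun t : ℝ => (p₀ + P Q a) - t • (e a * Complex.I)) (𝓝[>] 0)
        (𝓝 (p₀ + P Q a)) := by
      have : Continuous fun t : ℝ => (p₀ + P Q a) - t • (e a * Complex.I) := by fun_prop
      have h2 := this.tendsto 0
      simp only [zero_smul, sub_zero] at h2
      exact h2.mono_left nhdsWithin_le_nhds
    obtain ⟨t, ht1, ht2⟩ := ((ht.eventually hnhds).and self_mem_nhdsWithin).exists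
    have h1 := ht1 a
    have h2 : (p₀ + P Q a) - t • (e a * Complex.I) - (p₀ + P Q a) = (-t) • (e a * Complex.I) := by
      rw [neg_smul]; ring
    rw [h2, cross_smul] at h1
    have h3 : cross (e a) (e a * Complex.I) = 1 := by
      rw [cross_e_left]
      simp [e_re, e_im]
      nlinarith [sin_sq_add_cos_sq a]
    rw [h3] at h1
    have : (0 : ℝ) < t := ht2
    linarith

/-- The curve of a profile is a billiard table. -/
theorem isTable (h : Prof Q) (c : ℂ) : IsTable (curve Q c) where
  smooth := h.contDiff_curve c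
  periodic q := by simp only [curve, h.ang_per, h.P_per]
  simple q q' hqq := by
    have h1 : P Q (ang Q q) = P Q (ang Q q') := by
      simp only [curve] at hqq
      linear_combination hqq
    obtain ⟨k, hk⟩ := h.P_inj h1
    refine ⟨-k, ?_⟩
    have h2 := h.per_int (ang Q q') k
    rw [hk, h.Q_ang, h.Q_ang] at h2
    push_cast
    linarith
  speed q := by rw [h.deriv_curve]; exact norm_e _
  curvature q := by
    rw [h.deriv_curve]
    have h1 : HasDerivAt (fun q => e (ang Q q)) ((deriv Q (ang Q q))⁻¹ • (e (ang Q q) * Complex.I)) q :=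
      (hasDerivAt_e (ang Q q)).scomp q (h.hasDerivAt_ang q)
    rw [h1.deriv, cross_smul]
    have h3 : cross (e (ang Q q)) (e (ang Q q) * Complex.I) = 1 := by
      rw [cross_e_left]
      simp [e_re, e_im]
      nlinarith [sin_sq_add_cos_sq (ang Q q)]
    rw [h3, mul_one]
    exact inv_pos.2 (h.pos _)
  convex := by
    have := h.bounds (c - P Q (ang Q 0))
    refine ⟨_, this.1, this.2.1, this.2.2.1, ?_⟩
    rw [this.2.2.2, h.range_curve c]

end Prof

end Q169.Billiard
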