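import Pool.Agent.Q169.BilProfile

/-!
The monotone tangent angle of a convex curve.
-/

set_option autoImplicit false

open Set MeasureTheory Real Filter
open scoped ContDiff ENNReal Topology

namespace Q169.Billiard

/-- A convex curve in polar coordinates around an interior point `p`. -/
structure Polar (C : ℝ → ℂ) (K : Set ℂ) (p : ℂ) (φ : ℝ → ℝ) : Prop where
  conv : Convex ℝ K
  closed : IsClosed K
  front : frontier K = range C
  hp : p ∈ interior K
  contC : Continuous C
  cont : Continuous φ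
  per : ∀ q, φ (q + 1) = φ q + 2 * π
  perC : ∀ q, C (q + 1) = C q
  pol : ∀ q, C q - p = ((‖C q - p‖ : ℝ) : ℂ) * e (φ q)
  simple : ∀ q q', C q = C q' → ∃ k : ℤ, q' = q + k
  speed : HasUnitSpeedOn C univ

theorem pos_of_sin_pos {x : ℝ} (h1 : -π ≤ x) (h : 0 < sin x) : 0 < x := by
  by_contra hcon
  have := sin_nonpos_of_nonpos_of_neg_pi_le (not_lt.1 hcon) h1
  linarith

theorem nonneg_of_sin_nonneg {x : ℝ} (h1 : -π < x) (h : 0 ≤ sin x) : 0 ≤ x := by
  by_contra hcon
  have := sin_neg_of_neg_of_neg_pi_lt (not_le.1 hcon) h1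
  linarith

theorem cross_mul_e (r s x y : ℝ) : cross ((r : ℂ) * e x) ((s : ℂ) * e y) = r * s * sin (y - x) := by
  rw [sin_sub]
  simp [cross, e_re, e_im]
  ring

theorem cross_e_mul_e (s x y : ℝ) : cross (e x) ((s : ℂ) * e y) = s * sin (y - x) := by
  rw [sin_sub]
  simp [cross, e_re, e_im]
  ring

/-- The angle of the chord. -/
noncomputable def chordAng (C : ℝ → ℂ) (φ : ℝ → ℝ) (a b : ℝ) : ℝ :=
  φ a + Complex.arg ((C b - C a) * e (-φ a))

namespace Polar

variable {C : ℝ → ℂ} {K : Set ℂ} {p : ℂ} {φ : ℝ → ℝ}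

theorem notMem (h : Polar C K p φ) (q : ℝ) : C q ∉ interior K := by
  have h1 : C q ∈ frontier K := by rw [h.front]; exact ⟨q, rfl⟩
  exact h1.2

theorem mem (h : Polar C K p φ) (q : ℝ) : C q ∈ K := by
  have h1 : C q ∈ frontier K := by rw [h.front]; exact ⟨q, rfl⟩
  have := h1.1
  rwa [h.closed.closure_eq] at this

theorem r_pos (h : Polar C K p φ) (q : ℝ) : 0 < ‖C q - p‖ := by
  rw [norm_pos_iff, sub_ne_zero]
  intro heq
  exact h.notMem q (heq ▸ h.hp)

theorem per_int (h : Polar C K p φ) (q : ℝ) (k : ℤ) : φ (q + k) = φ q + k * (2 * π) := by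
  induction k using Int.induction_on with
  | zero => simp
  | succ n ih =>
    have := h.per (q + (n : ℤ))
    push_cast at this ih ⊢
    rw [show q + ((n : ℝ) + 1) = q + n + 1 by ring, this, ih]
    ring
  | pred n ih =>
    have := h.per (q + (-(n : ℤ) - 1 : ℤ))
    push_cast at this ih ⊢
    rw [show q + (-(n : ℝ) - 1) + 1 = q + -(n : ℝ) by ring, ih] at this
    linarith

theorem no_inner (h : Polar C K p φ) {a b : ℝ} {t : ℝ} (ht : 0 ≤ t) (ht1 : t < 1)
    (heq : C a - p = (t : ℂ) * (C b - p)) : False := by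
  apply h.notMem a
  have h1 : C a = (1 - t) • p + t • C b := by
    simp only [Complex.real_smul]
    push_cast
    linear_combination heq
  rw [h1]
  exact h.conv.combo_interior_self_mem_interior h.hp (h.mem b) (by linarith) ht (by ring)

theorem injective (h : Polar C K p φ) : Function.Injective φ := by
  intro a b hab
  have ha := h.pol a
  have hb := h.pol b
  have ra := h.r_pos a
  have rb := h.r_pos b
  rw [hab] at ha
  have key : ∀ a b : ℝ, C a - p = ((‖C a - p‖ : ℝ) : ℂ) * e (φ b) →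
      C b - p = ((‖C b - p‖ : ℝ) : ℂ) * e (φ b) → ‖C a - p‖ < ‖C b - p‖ → False := by
    intro a b ha hb hlt
    have rb := h.r_pos b
    refine h.no_inner (a := a) (b := b) (t := ‖C a - p‖ / ‖C b - p‖) (by positivity)
      ((div_lt_one rb).2 hlt) ?_
    have : ((‖C b - p‖ : ℝ) : ℂ) ≠ 0 := by exact_mod_cast rb.ne'
    calc C a - p = ((‖C a - p‖ : ℝ) : ℂ) * e (φ b) := ha
      _ = ((‖C a - p‖ / ‖C b - p‖ : ℝ) : ℂ) * (((‖C b - p‖ : ℝ) : ℂ) * e (φ b)) := by
        push_cast
        field_simp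
      _ = _ := by rw [← hb]
  have hb' : C b - p = ((‖C b - p‖ : ℝ) : ℂ) * e (φ a) := by rw [hab]; exact hb
  have ha' : C a - p = ((‖C a - p‖ : ℝ) : ℂ) * e (φ a) := by rw [hab]; exact ha
  have heq : ‖C a - p‖ = ‖C b - p‖ := by
    rcases lt_trichotomy ‖C a - p‖ ‖C b - p‖ with h1 | h1 | h1
    · exact (key a b ha hb h1).elim
    · exact h1
    · exact (key b a hb' ha' h1).elim
  have hC : C a = C b := by
    rw [heq, ← hb] at ha
    exact sub_left_injective ha
  obtain ⟨k, hk⟩ := h.simple a b hC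
  have h2 := h.per_int a k
  rw [← hk, ← hab] at h2
  have h3 : (k : ℝ) * (2 * π) = 0 := by linarith
  have h4 : (k : ℝ) = 0 := (mul_eq_zero.1 h3).resolve_right (by positivity)
  rw [hk, h4, add_zero]

theorem strictMono (h : Polar C K p φ) : StrictMono φ := by
  rcases h.cont.strictMono_of_inj h.injective with h1 | h1
  · exact h1
  · have h2 := h1 (zero_lt_one (α := ℝ))
    have h3 := h.per 0
    rw [zero_add] at h3
    have := pi_pos
    linarith

/-- Three consecutive points which are seen from `p` under an angle less than `π` are positively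
oriented. -/
theorem orient (h : Polar C K p φ) {a b c : ℝ} (hab : a < b) (hbc : b < c) (hc : φ c < φ a + π) :
    0 ≤ cross (C b - C a) (C c - C a) := by
  have mab := h.strictMono hab
  have mbc := h.strictMono hbc
  have ra := h.r_pos a
  have rb := h.r_pos b
  have rc := h.r_pos c
  have x0 : cross (C a - p) (C b - p) = ‖C a - p‖ * ‖C b - p‖ * sin (φ b - φ a) := by
    rw [h.pol a, h.pol b, cross_mul_e, ← h.pol a, ← h.pol b]
  have y0 : cross (C b - p) (C c - p) = ‖C b - p‖ * ‖C c - p‖ * sin (φ c - φ b) := by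
    rw [h.pol b, h.pol c, cross_mul_e, ← h.pol b, ← h.pol c]
  have z0 : cross (C a - p) (C c - p) = ‖C a - p‖ * ‖C c - p‖ * sin (φ c - φ a) := by
    rw [h.pol a, h.pol c, cross_mul_e, ← h.pol a, ← h.pol c]
  have x1 : 0 < cross (C a - p) (C b - p) := by
    rw [x0]
    exact mul_pos (mul_pos ra rb) (sin_pos_of_pos_of_lt_pi (by linarith) (by linarith))
  have y1 : 0 < cross (C b - p) (C c - p) := by
    rw [y0]
    exact mul_pos (mul_pos rb rc) (sin_pos_of_pos_of_lt_pi (by linarith) (by linarith))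
  have z1 : 0 < cross (C a - p) (C c - p) := by
    rw [z0]
    exact mul_pos (mul_pos ra rc) (sin_pos_of_pos_of_lt_pi (by linarith) (by linarith))
  set x := cross (C a - p) (C b - p) with hx
  set y := cross (C b - p) (C c - p) with hy
  set z := cross (C a - p) (C c - p) with hz
  have e1 : cross (C b - C a) (C c - C a) = x + y - z := by
    rw [hx, hy, hz]
    simp only [cross, Complex.sub_re, Complex.sub_im]
    ring
  rw [e1]
  by_contra hcon
  push Not at hcon
  apply h.notMem b
  have hk : (y / (x + y)) • C a + (x / (x + y)) • C c ∈ K := by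
    refine h.conv (h.mem a) (h.mem c) (by positivity) (by positivity) ?_
    field_simp
    ring
  have e2 : C b = (1 - (x + y) / z) • p + ((x + y) / z) •
      ((y / (x + y)) • C a + (x / (x + y)) • C c) := by
    have hxy : x + y ≠ 0 := by positivity
    have hz0 : z ≠ 0 := z1.ne'
    have i1 : z * (C b - p).re = y * (C a - p).re + x * (C c - p).re := by
      rw [hx, hy, hz]
      simp only [cross]
      ring
    have i2 : z * (C b - p).im = y * (C a - p).im + x * (C c - p).im := by
      rw [hx, hy, hz]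
      simp only [cross]
      ring
    simp only [Complex.sub_re, Complex.sub_im] at i1 i2
    apply Complex.ext
    · simp only [Complex.add_re, Complex.real_smul, Complex.mul_re, Complex.ofReal_re,
        Complex.ofReal_im, zero_mul, sub_zero]
      field_simp
      linear_combination i1
    · simp only [Complex.add_im, Complex.add_re, Complex.real_smul, Complex.mul_im, Complex.mul_re,
        Complex.ofReal_re, Complex.ofReal_im, zero_mul, sub_zero, add_zero]
      field_simp
      linear_combination i2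
  rw [e2]
  have hlt : (x + y) / z < 1 := (div_lt_one z1).2 (by linarith)
  exact h.conv.combo_interior_self_mem_interior h.hp hk (by linarith) (by positivity) (by ring)

theorem chord (h : Polar C K p φ) {a b : ℝ} (hab : a < b) (hb : φ b < φ a + π) :
    φ b < chordAng C φ a b ∧ chordAng C φ a b < φ a + π ∧
      C b - C a = ((‖C b - C a‖ : ℝ) : ℂ) * e (chordAng C φ a b) ∧ 0 < ‖C b - C a‖ := by
  have mab := h.strictMono hab
  have ra := h.r_pos a
  have rb := h.r_pos b
  set w := C b - C a with hw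
  have hw1 : w = (C b - p) - (C a - p) := by rw [hw]; ring
  have c1 : cross (e (φ a)) w = ‖C b - p‖ * sin (φ b - φ a) := by
    have i1 : cross (e (φ a)) (C b - p) = ‖C b - p‖ * sin (φ b - φ a) := by
      rw [h.pol b, cross_e_mul_e, ← h.pol b]
    have i2 : cross (e (φ a)) (C a - p) = 0 := by
      rw [h.pol a, cross_e_mul_e, sub_self, sin_zero, mul_zero]
    rw [hw1, cross_sub, i1, i2, sub_zero]
  have c2 : cross (e (φ b)) w = ‖C a - p‖ * sin (φ b - φ a) := by
    have i1 : cross (e (φ b)) (C b - p) = 0 := by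
      rw [h.pol b, cross_e_mul_e, sub_self, sin_zero, mul_zero]
    have i2 : cross (e (φ b)) (C a - p) = -(‖C a - p‖ * sin (φ b - φ a)) := by
      rw [h.pol a, cross_e_mul_e, ← h.pol a, ← neg_sub (φ b), sin_neg]; ring
    rw [hw1, cross_sub, i1, i2]; ring
  have hsin : 0 < sin (φ b - φ a) := sin_pos_of_pos_of_lt_pi (by linarith) (by linarith)
  have p1 : 0 < cross (e (φ a)) w := by rw [c1]; positivity
  have p2 : 0 < cross (e (φ b)) w := by rw [c2]; positivity
  have hw0 : w ≠ 0 := by
    intro h0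
    rw [h0] at p1
    simp [cross] at p1
  have hwn : 0 < ‖w‖ := norm_pos_iff.2 hw0
  set z := w * e (-φ a) with hz
  have hzn : ‖z‖ = ‖w‖ := by rw [hz, norm_mul, norm_e, mul_one]
  have e3 : e (-φ a) * e (φ a) = 1 := by
    rw [← e_add, neg_add_cancel]
    simp [e]
  have hwe : w = ((‖w‖ : ℝ) : ℂ) * e (chordAng C φ a b) := by
    have h1 : ((‖z‖ : ℝ) : ℂ) * e (Complex.arg z) = z := Complex.norm_mul_exp_arg_mul_I z
    have h2 : chordAng C φ a b = Complex.arg z + φ a := by
      simp only [chordAng, hz, hw]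
      ring
    rw [h2, e_add, ← mul_assoc, ← hzn, h1, hz, mul_assoc, e3, mul_one]
  have s1 : cross (e (φ a)) w = ‖w‖ * sin (chordAng C φ a b - φ a) := by
    conv_lhs => rw [hwe, cross_e_mul_e]
  have s2 : cross (e (φ b)) w = ‖w‖ * sin (chordAng C φ a b - φ b) := by
    conv_lhs => rw [hwe, cross_e_mul_e]
  have t1 : 0 < sin (chordAng C φ a b - φ a) := by
    rw [s1] at p1
    exact pos_of_mul_pos_right p1 hwn.le
  have t2 : 0 < sin (chordAng C φ a b - φ b) := by
    rw [s2] at p2
    exact pos_of_mul_pos_right p2 hwn.le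
  have harg : chordAng C φ a b - φ a = Complex.arg z := by
    simp only [chordAng, hz, hw]
    ring
  have u1 : -π < Complex.arg z := Complex.neg_pi_lt_arg z
  have u2 : Complex.arg z ≤ π := Complex.arg_le_pi z
  have u3 : 0 < chordAng C φ a b - φ a := pos_of_sin_pos (by rw [harg]; exact u1.le) t1
  have u4 : chordAng C φ a b - φ a ≠ π := by
    intro h1
    rw [h1, sin_pi] at t1
    exact lt_irrefl _ t1
  have u5 : chordAng C φ a b - φ a < π := lt_of_le_of_ne (by rw [harg]; exact u2) u4
  have u6 : 0 < chordAng C φ a b - φ b := pos_of_sin_pos (by linarith) t2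
  exact ⟨by linarith, by linarith, hwe, hwn⟩

theorem chord_mono (h : Polar C K p φ) {a b c : ℝ} (hab : a < b) (hbc : b < c)
    (hc : φ c < φ a + π) : chordAng C φ a b ≤ chordAng C φ b c := by
  have mab := h.strictMono hab
  have mbc := h.strictMono hbc
  obtain ⟨a1, a2, a3, a4⟩ := h.chord hab (by linarith)
  obtain ⟨b1, b2, b3, b4⟩ := h.chord hbc (by linarith)
  have h1 := h.orient hab hbc hc
  have h2 : cross (C b - C a) (C c - C a) = cross (C b - C a) (C c - C b) := by
    simp only [cross, Complex.sub_re, Complex.sub_im]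
    ring
  rw [h2, a3, b3, cross_mul_e] at h1
  have h3 : 0 ≤ sin (chordAng C φ b c - chordAng C φ a b) :=
    nonneg_of_mul_nonneg_right h1 (mul_pos a4 b4)
  have h4 := nonneg_of_sin_nonneg (by linarith) h3
  linarith

end Polar

/-- The tangent angle. -/
noncomputable def tang (C : ℝ → ℂ) (φ : ℝ → ℝ) (a : ℝ) : ℝ :=
  sInf (chordAng C φ a '' {b | a < b ∧ φ b < φ a + π})

namespace Polar

variable {C : ℝ → ℂ} {K : Set ℂ} {p : ℂ} {φ : ℝ → ℝ}

theorem set_nonempty (h : Polar C K p φ) (a : ℝ) :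
    (chordAng C φ a '' {b | a < b ∧ φ b < φ a + π}).Nonempty := by
  have h1 : ∀ᶠ b in 𝓝[>] a, φ b < φ a + π := by
    have h2 : ∀ᶠ b in 𝓝 a, φ b < φ a + π :=
      h.cont.continuousAt.eventually (gt_mem_nhds (by linarith [pi_pos]))
    exact h2.filter_mono nhdsWithin_le_nhds
  obtain ⟨b, hb1, hb2⟩ := (h1.and self_mem_nhdsWithin).exists
  exact ⟨_, b, ⟨hb2, hb1⟩, rfl⟩

theorem set_bdd (h : Polar C K p φ) (a : ℝ) :
    φ a ∈ lowerBounds (chordAng C φ a '' {b | a < b ∧ φ b < φ a + π}) := by
  rintro _ ⟨b, ⟨hb1, hb2⟩, rfl⟩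
  have := h.strictMono hb1
  exact (this.trans (h.chord hb1 hb2).1).le

theorem tang_le (h : Polar C K p φ) {a b : ℝ} (hab : a < b) (hb : φ b < φ a + π) :
    tang C φ a ≤ chordAng C φ a b := csInf_le ⟨_, h.set_bdd a⟩ ⟨b, ⟨hab, hb⟩, rfl⟩

theorem le_tang (h : Polar C K p φ) {a b : ℝ} (hab : a < b) (hb : φ b < φ a + π) :
    chordAng C φ a b ≤ tang C φ b := by
  refine le_csInf (h.set_nonempty b) ?_
  rintro _ ⟨c, ⟨hc1, hc2⟩, rfl⟩
  rcases lt_or_ge (φ c) (φ a + π) with h1 | h1
  · exact h.chord_mono hab hc1 h1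
  · exact ((h.chord hab hb).2.1.trans_le h1).le.trans (h.chord hc1 hc2).1.le

theorem phi_le_tang (h : Polar C K p φ) (a : ℝ) : φ a ≤ tang C φ a :=
  le_csInf (h.set_nonempty a) (h.set_bdd a)

theorem tang_lt (h : Polar C K p φ) (a : ℝ) : tang C φ a < φ a + π := by
  obtain ⟨_, b, ⟨hb1, hb2⟩, rfl⟩ := h.set_nonempty a
  exact (h.tang_le hb1 hb2).trans_lt (h.chord hb1 hb2).2.1

theorem tang_mono (h : Polar C K p φ) : Monotone (tang C φ) := by
  intro a b hab
  rcases hab.eq_or_lt with rfl | hab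
  · exact le_rfl
  rcases lt_or_ge (φ b) (φ a + π) with h1 | h1
  · exact (h.tang_le hab h1).trans (h.le_tang hab h1)
  · exact ((h.tang_lt a).trans_le h1).le.trans (h.phi_le_tang b)

theorem chord_per (h : Polar C K p φ) (a b : ℝ) :
    chordAng C φ (a + 1) (b + 1) = chordAng C φ a b + 2 * π := by
  have h1 : e (-φ (a + 1)) = e (-φ a) := by
    rw [h.per, ← e_add_two_pi (-(φ a + 2 * π))]
    congr 1
    ring
  simp only [chordAng, h.perC, h1]
  rw [h.per]
  ring

theorem tang_per (h : Polar C K p φ) (a : ℝ) : tang C φ (a + 1) = tang C φ a + 2 * π := by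
  apply le_antisymm
  · rw [← sub_le_iff_le_add]
    refine le_csInf (h.set_nonempty a) ?_
    rintro _ ⟨b, ⟨hb1, hb2⟩, rfl⟩
    have h1 := h.tang_le (a := a + 1) (b := b + 1) (by linarith) (by rw [h.per, h.per]; linarith)
    rw [h.chord_per] at h1
    linarith
  · refine le_csInf (h.set_nonempty (a + 1)) ?_
    rintro _ ⟨b, ⟨hb1, hb2⟩, rfl⟩
    have h2 := h.per (b - 1)
    rw [sub_add_cancel] at h2
    rw [h.per] at hb2
    have h1 := h.tang_le (a := a) (b := b - 1) (by linarith) (by linarith)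
    have h3 := h.chord_per a (b - 1)
    rw [sub_add_cancel] at h3
    linarith

theorem dist_le (h : Polar C K p φ) {x y : ℝ} (hxy : x ≤ y) : ‖C y - C x‖ ≤ y - x := by
  have h1 := eVariationOn.edist_le C (s := univ ∩ Icc x y) ⟨mem_univ _, left_mem_Icc.2 hxy⟩
    ⟨mem_univ _, right_mem_Icc.2 hxy⟩
  rw [h.speed (mem_univ x) (mem_univ y), edist_comm, edist_eq_enorm_sub, ← ofReal_norm] at h1
  have h2 := (ENNReal.ofReal_le_ofReal_iff (by simp; linarith)).1 h1
  simpa using h2

/-- The chord is almost as long as the arc. -/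
theorem chord_ge (h : Polar C K p φ) {x y : ℝ} (hxy : x < y) (hs : φ y < φ x + π)
    (hang : tang C φ y - tang C φ x < 1) :
    (y - x) * cos (tang C φ y - tang C φ x) ≤ ‖C y - C x‖ := by
  have hpi := pi_gt_three
  have hm := h.tang_mono hxy.le
  set κ := cos (tang C φ y - tang C φ x) with hκ
  have hκpos : 0 < κ := cos_pos_of_mem_Ioo ⟨by linarith, by linarith⟩
  set g : ℝ → ℝ := fun t => (C t * e (-tang C φ x)).re / κ with hg
  have hkey : ∀ s t, x ≤ s → s ≤ t → t ≤ y → ‖C t - C s‖ ≤ g t - g s := by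
    intro s t hs1 hst ht
    rcases hst.eq_or_lt with rfl | hst
    · simp
    have hps : φ t < φ s + π := by
      have i1 := h.strictMono.monotone ht
      have i2 := h.strictMono.monotone hs1
      linarith
    obtain ⟨-, -, c3, c4⟩ := h.chord hst hps
    have i1 := h.tang_le hst hps
    have i2 := h.le_tang hst hps
    have i3 := h.tang_mono hs1
    have i4 := h.tang_mono ht
    have h5 : g t - g s = ((C t - C s) * e (-tang C φ x)).re / κ := by
      simp only [hg, sub_mul, Complex.sub_re]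
      ring
    have h6 : (C t - C s) * e (-tang C φ x) =
        ((‖C t - C s‖ : ℝ) : ℂ) * e (chordAng C φ s t - tang C φ x) := by
      conv_lhs => rw [c3]
      rw [mul_assoc, ← e_add]
      congr 2
    rw [h5, h6, Complex.re_ofReal_mul, e_re, le_div_iff₀ hκpos]
    have h7 : κ ≤ cos (chordAng C φ s t - tang C φ x) := by
      rw [hκ]
      exact cos_le_cos_of_nonneg_of_le_pi (by linarith) (by linarith) (by linarith)
    exact mul_le_mul_of_nonneg_left h7 (norm_nonneg _)
  have hgm : MonotoneOn g (univ ∩ Icc x y) := by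
    intro s hs1 t ht hst
    have := hkey s t hs1.2.1 hst ht.2.2
    linarith [norm_nonneg (C t - C s)]
  have hvar : eVariationOn C (univ ∩ Icc x y) ≤ eVariationOn g (univ ∩ Icc x y) := by
    refine iSup_le fun pr => ?_
    refine (Finset.sum_le_sum fun i _ => ?_).trans (eVariationOn.sum_le pr.2.2.1 pr.2.2.2)
    have m1 := pr.2.2.2 i
    have m2 := pr.2.2.2 (i + 1)
    have m3 := pr.2.2.1 (Nat.le_succ i)
    have := hkey _ _ m1.2.1 m3 m2.2.2
    rw [edist_eq_enorm_sub, edist_eq_enorm_sub, ← ofReal_norm, ← ofReal_norm]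
    exact ENNReal.ofReal_le_ofReal (this.trans (le_abs_self _))
  have hvar2 : eVariationOn g (univ ∩ Icc x y) = ENNReal.ofReal (g y - g x) := by
    have h8 : (univ ∩ Icc x y) = (univ ∩ Icc x y) ∩ Icc x y := by
      rw [inter_assoc, inter_self]
    rw [h8]
    exact hgm.eVariationOn_eq ⟨mem_univ _, left_mem_Icc.2 hxy.le⟩ ⟨mem_univ _, right_mem_Icc.2 hxy.le⟩
  rw [h.speed (mem_univ x) (mem_univ y), hvar2, NNReal.coe_one, one_mul] at hvar
  have h9 : y - x ≤ g y - g x := by
    have h10 := hkey x y le_rfl hxy.le le_rfl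
    exact (ENNReal.ofReal_le_ofReal_iff ((norm_nonneg _).trans h10)).1 hvar
  have h11 : g y - g x = ((C y - C x) * e (-tang C φ x)).re / κ := by
    simp only [hg, sub_mul, Complex.sub_re]
    ring
  rw [h11, le_div_iff₀ hκpos] at h9
  refine h9.trans ((Complex.re_le_norm _).trans ?_)
  rw [norm_mul, norm_e, mul_one]

theorem estimate (h : Polar C K p φ) {x y q : ℝ} (hxy : x < y) (hs : φ y < φ x + π)
    (hq1 : x ≤ q) (hq2 : q ≤ y) :
    ‖C y - C x - ((y - x : ℝ) : ℂ) * e (tang C φ q)‖ ≤ 2 * (y - x) * (tang C φ y - tang C φ x) := by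
  obtain ⟨-, -, c3, c4⟩ := h.chord hxy hs
  have i1 := h.tang_le hxy hs
  have i2 := h.le_tang hxy hs
  have i3 := h.tang_mono hq1
  have i4 := h.tang_mono hq2
  have hm := h.tang_mono hxy.le
  have hd := h.dist_le hxy.le
  rcases lt_or_ge (tang C φ y - tang C φ x) 1 with h1 | h1
  · have h2 := h.chord_ge hxy hs h1
    have h3 : C y - C x - ((y - x : ℝ) : ℂ) * e (tang C φ q) =
        ((‖C y - C x‖ - (y - x) : ℝ) : ℂ) * e (chordAng C φ x y) +
          ((y - x : ℝ) : ℂ) * (e (chordAng C φ x y) - e (tang C φ q)) := by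
      conv_lhs => rw [c3]
      push_cast
      ring
    rw [h3]
    have h4 : ‖((‖C y - C x‖ - (y - x) : ℝ) : ℂ) * e (chordAng C φ x y)‖ ≤
        (y - x) * (tang C φ y - tang C φ x) := by
      rw [norm_mul, norm_e, mul_one, Complex.norm_real, Real.norm_eq_abs, abs_sub_comm,
        abs_of_nonneg (by linarith)]
      have h5 : 1 - (tang C φ y - tang C φ x) ≤ cos (tang C φ y - tang C φ x) := by
        have := one_sub_sq_div_two_le_cos (x := tang C φ y - tang C φ x)
        nlinarith
      nlinarith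
    have h6 : ‖((y - x : ℝ) : ℂ) * (e (chordAng C φ x y) - e (tang C φ q))‖ ≤
        (y - x) * (tang C φ y - tang C φ x) := by
      rw [norm_mul, Complex.norm_real, Real.norm_eq_abs, abs_of_pos (by linarith)]
      refine mul_le_mul_of_nonneg_left ((norm_e_sub_e _ _).trans (abs_le.2 ⟨?_, ?_⟩)) (by linarith)
      · linarith
      · linarith
    calc _ ≤ _ := norm_add_le _ _
      _ ≤ _ := by linarith
  · calc ‖C y - C x - ((y - x : ℝ) : ℂ) * e (tang C φ q)‖
        ≤ ‖C y - C x‖ + ‖((y - x : ℝ) : ℂ) * e (tang C φ q)‖ := norm_sub_le _ _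
      _ ≤ (y - x) + (y - x) := by
          rw [norm_mul, norm_e, mul_one, Complex.norm_real, Real.norm_eq_abs,
            abs_of_pos (by linarith : (0 : ℝ) < y - x)]
          linarith
      _ ≤ 2 * (y - x) * (tang C φ y - tang C φ x) := by nlinarith

theorem hasDerivAt (h : Polar C K p φ) {q : ℝ} (hq : ContinuousAt (tang C φ) q) :
    HasDerivAt C (e (tang C φ q)) q := by
  rw [hasDerivAt_iff_isLittleO, Asymptotics.isLittleO_iff]
  intro c hc
  have h1 : ∀ᶠ y in 𝓝 q, |tang C φ y - tang C φ q| < c / 2 := by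
    have := Metric.continuousAt_iff'.1 hq (c / 2) (by positivity)
    simpa [Real.dist_eq] using this
  have h2 : ∀ᶠ y in 𝓝 q, |φ y - φ q| < π := by
    have := Metric.continuousAt_iff'.1 (h.cont.continuousAt (x := q)) π pi_pos
    simpa [Real.dist_eq] using this
  filter_upwards [h1, h2] with y hy1 hy2
  rw [abs_lt] at hy1 hy2
  rcases lt_trichotomy q y with hlt | rfl | hlt
  · have h3 := h.estimate hlt (by linarith) le_rfl hlt.le
    rw [Complex.real_smul]
    refine h3.trans ?_
    rw [Real.norm_eq_abs, abs_of_pos (by linarith : (0 : ℝ) < y - q)]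
    nlinarith
  · simp
  · have h3 := h.estimate hlt (by linarith) hlt.le le_rfl
    rw [Complex.real_smul]
    have h4 : C y - C q - ((y - q : ℝ) : ℂ) * e (tang C φ q) =
        -(C q - C y - ((q - y : ℝ) : ℂ) * e (tang C φ q)) := by
      push_cast
      ring
    rw [h4, norm_neg]
    refine h3.trans ?_
    rw [Real.norm_eq_abs, abs_of_neg (by linarith : y - q < 0)]
    nlinarith

theorem integral_eq (h : Polar C K p φ) (a b : ℝ) :
    ∫ t in a..b, e (tang C φ t) = C b - C a := by
  refine integral_eq_of_hasDerivAt_off_countable C (fun t => e (tang C φ t))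
    (h.tang_mono.countable_not_continuousAt) h.contC.continuousOn ?_ ?_
  · rintro x ⟨-, hx⟩
    simp only [mem_ofPred_eq, not_not] at hx
    exact h.hasDerivAt hx
  · rw [intervalIntegrable_iff]
    refine Measure.integrableOn_of_bounded (M := 1) (by simp [uIoc])
      (continuous_e.measurable.comp h.tang_mono.measurable).aestronglyMeasurable ?_
    exact Eventually.of_forall fun t => (norm_e _).le

end Polar

/-- The tangent angle of a convex curve. -/
theorem exists_tang {C : ℝ → ℂ} (hC : IsConvexCurve C) : ∃ θ : ℝ → ℝ, Monotone θ ∧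
    (∀ q, θ (q + 1) = θ q + 2 * π) ∧ ∀ q, C q = C 0 + ∫ t in (0 : ℝ)..q, e (θ t) := by
  obtain ⟨K, ⟨hK1, hK2, -, hK4⟩, p, hp, φ, hφ1, hφ2, hφ3⟩ := hC.convex
  have h : Polar C K p φ := ⟨hK1, hK2.isClosed, hK4, hp, hC.continuous, hφ1, hφ2, hC.periodic, hφ3,
    hC.simple, hC.arcLength⟩
  refine ⟨tang C φ, h.tang_mono, h.tang_per, fun q => ?_⟩
  rw [h.integral_eq]
  ring

end Q169.Billiard
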