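import Mathlib

/-!
Convergence of inverses in the compact-open topology.
-/

set_option autoImplicit false

open Set Filter Topology

namespace Q169.Poisson

theorem tendsto_symm {X : Type*} [TopologicalSpace X] [T2Space X] [LocallyCompactSpace X]
    [LocallyConnectedSpace X] {φs : ℕ → X ≃ₜ X} {φ : X ≃ₜ X}
    (h : Tendsto (fun k => (⟨φs k, (φs k).continuous⟩ : C(X, X))) atTop (𝓝 ⟨φ, φ.continuous⟩)) :
    Tendsto (fun k => (⟨(φs k).symm, (φs k).symm.continuous⟩ : C(X, X))) atTop
      (𝓝 ⟨φ.symm, φ.symm.continuous⟩) := by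
  rw [ContinuousMap.tendsto_nhds_compactOpen] at h ⊢
  intro K hK U hU hKU
  have hloc : ∀ y ∈ K, ∃ N ∈ 𝓝[K] y, ∀ᶠ k in atTop, MapsTo (φs k).symm N U := by
    intro y hy
    have hx : φ.symm y ∈ U := hKU hy
    set x := φ.symm y with hxdef
    have hφx : φ x = y := φ.apply_symm_apply y
    obtain ⟨K₁, hK₁, hxK₁, hK₁U⟩ := exists_compact_subset hU hx
    set D := K₁ \ interior K₁ with hD
    have hDc : IsCompact D := hK₁.diff isOpen_interior
    have hDimg : IsClosed (φ '' D) := (hDc.image φ.continuous).isClosed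
    have hyD : y ∈ (φ '' D)ᶜ := by
      rintro ⟨z, hz, hzy⟩
      have : z = x := φ.injective (hzy.trans hφx.symm)
      rw [this] at hz
      exact hz.2 hxK₁
    obtain ⟨N₁, hN₁, hN₁c, hN₁s⟩ := exists_mem_nhds_isClosed_subset (hDimg.isOpen_compl.mem_nhds hyD)
    obtain ⟨N, hNs, hNo, hyN, hNconn⟩ :=
      locallyConnectedSpace_iff_subsets_isOpen_isConnected.1 inferInstance y N₁ hN₁
    refine ⟨N, mem_nhdsWithin_of_mem_nhds (hNo.mem_nhds hyN), ?_⟩
    have e1 := h D hDc N₁ᶜ hN₁c.isOpen_compl (fun z hz hz' => hN₁s hz' ⟨z, hz, rfl⟩)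
    have e2 := h {x} isCompact_singleton N hNo (by
      intro z hz
      rw [mem_singleton_iff] at hz
      rw [hz]
      show φ x ∈ N
      rw [hφx]
      exact hyN)
    filter_upwards [e1, e2] with k h1 h2
    have hA : IsPreconnected ((φs k).symm '' N) :=
      hNconn.isPreconnected.image _ (φs k).symm.continuous.continuousOn
    have hsub : (φs k).symm '' N ⊆ interior K₁ := by
      refine hA.subset_left_of_subset_union isOpen_interior hK₁.isClosed.isOpen_compl ?_ ?_ ?_
      · exact disjoint_compl_right.mono_left interior_subset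
      · rintro _ ⟨z, hz, rfl⟩
        by_cases hz1 : (φs k).symm z ∈ K₁
        · left
          by_contra hz2
          have h3 := h1 (show (φs k).symm z ∈ D from ⟨hz1, hz2⟩)
          apply h3
          have h4 : (φs k) ((φs k).symm z) = z := (φs k).apply_symm_apply z
          show (φs k) ((φs k).symm z) ∈ N₁
          rw [h4]
          exact hNs hz
        · right
          exact hz1
      · refine ⟨x, ⟨φs k x, h2 rfl, (φs k).symm_apply_apply x⟩, hxK₁⟩
    intro z hz
    exact hK₁U (interior_subset (hsub ⟨z, hz, rfl⟩))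
  refine hK.induction_on (p := fun S => ∀ᶠ k in atTop, MapsTo (φs k).symm S U) ?_ ?_ ?_ hloc
  · exact Eventually.of_forall fun k z hz => hz.elim
  · intro S T hST hT
    exact hT.mono fun k hk => hk.mono_left hST
  · intro S T hS hT
    filter_upwards [hS, hT] with k h1 h2
    exact h1.union h2

end Q169.Poisson
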