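import Pool.Agent.Q169.PSDefs
import Pool.Agent.W585.Param

/-!
Extension of functions from charts, and the Poisson bracket in a chart.
-/

set_option autoImplicit false
set_option linter.unusedSectionVars false

open Set Filter Topology MeasureTheory
open scoped Manifold ContDiff

namespace Q169.Poisson

universe u

/-- The model space. -/
abbrev Eu (n : ℕ) : Type := EuclideanSpace ℝ (Fin n)

variable {n : ℕ} {M : Type u} [TopologicalSpace M] [ChartedSpace (EuclideanSpace ℝ (Fin n)) M]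
  [IsManifold (𝓡 n) ∞ M] [T2Space M] [SigmaCompactSpace M]

theorem exists_extend {ψ : OpenPartialHomeomorph M (Eu n)}
    (hψ : ψ ∈ IsManifold.maximalAtlas (𝓡 n) ∞ M) {K : Set M} (hK : IsClosed K)
    (hKs : K ⊆ ψ.source) {h : Eu n → ℝ} (hh : ContDiffOn ℝ ∞ h ψ.target) :
    ∃ g : C^∞⟮𝓡 n, M; ℝ⟯, ∀ᶠ x in 𝓝ˢ K, g x = h (ψ x) := by
  have : LocallyCompactSpace M := Manifold.locallyCompact_of_finiteDimensional (𝓡 n)
  obtain ⟨χ, h0, h1, -⟩ := exists_contMDiffMap_zero_one_nhds_of_isClosed (M := M) (𝓡 n) (n := ⊤)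
    (s := ψ.sourceᶜ) (t := K) ψ.open_source.isClosed_compl hK
    (disjoint_compl_left_iff_subset.2 hKs)
  have hsm : ContMDiff (𝓡 n) 𝓘(ℝ, ℝ) ∞ fun x => χ x * h (ψ x) := by
    intro x
    by_cases hx : x ∈ ψ.source
    · have h2 : ContMDiffAt (𝓡 n) 𝓘(ℝ, ℝ) ∞ (fun x => h (ψ x)) x := by
        have h3 : ContMDiffAt (𝓡 n) (𝓡 n) ∞ ψ x :=
          (contMDiffOn_of_mem_maximalAtlas hψ).contMDiffAt (ψ.open_source.mem_nhds hx)
        have h4 : ContMDiffAt (𝓡 n) 𝓘(ℝ, ℝ) ∞ h (ψ x) :=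
          ((hh.contDiffAt (ψ.open_target.mem_nhds (ψ.map_source hx)))).contMDiffAt
        exact h4.comp x h3
      exact (χ.contMDiff x).mul h2
    · have h2 : (fun x => χ x * h (ψ x)) =ᶠ[𝓝 x] fun _ => 0 := by
        have h3 : ∀ᶠ y in 𝓝 x, χ y = 0 := (mem_nhdsSet_iff_forall.1 h0) x hx
        exact h3.mono fun y hy => by simp [hy]
      exact contMDiffAt_const.congr_of_eventuallyEq h2
  refine ⟨⟨_, hsm⟩, h1.mono fun x hx => ?_⟩
  show χ x * h (ψ x) = _
  rw [hx, one_mul]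

/-- Hadamard's lemma. -/
theorem hadamard {G : Eu n → ℝ} (hG : ContDiff ℝ ∞ G) (z₀ : Eu n) :
    ∃ H : Fin n → Eu n → ℝ, (∀ j, ContDiff ℝ ∞ (H j)) ∧
      (∀ j, H j z₀ = fderiv ℝ G z₀ (EuclideanSpace.single j 1)) ∧
      ∀ z, G z = G z₀ + ∑ j, (z j - z₀ j) * H j z := by
  have hdG : ContDiff ℝ ∞ (fderiv ℝ G) := (contDiff_infty_iff_fderiv.1 hG).2
  refine ⟨fun j z => ∫ t in (0 : ℝ)..1, fderiv ℝ G (z₀ + t • (z - z₀)) (EuclideanSpace.single j 1),
    fun j => ?_, fun j => ?_, fun z => ?_⟩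
  · refine Pool.Agent.W585.contDiff_param
      (F := fun z t => fderiv ℝ G (z₀ + t • (z - z₀)) (EuclideanSpace.single j 1)) ?_ 0 1
    have h1 : ContDiff ℝ ∞ fun p : Eu n × ℝ => z₀ + p.2 • (p.1 - z₀) :=
      contDiff_const.add (contDiff_snd.smul (contDiff_fst.sub contDiff_const))
    exact (hdG.comp h1).clm_apply contDiff_const
  · simp
  · have h1 : ∀ t : ℝ, HasDerivAt (fun t : ℝ => G (z₀ + t • (z - z₀)))
        (fderiv ℝ G (z₀ + t • (z - z₀)) (z - z₀)) t := by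
      intro t
      have h2 : HasDerivAt (fun t : ℝ => z₀ + t • (z - z₀)) (z - z₀) t := by
        simpa using ((hasDerivAt_id t).smul_const (z - z₀)).const_add z₀
      exact ((hG.differentiable (by simp)) _).hasFDerivAt.comp_hasDerivAt t h2
    have hc : ∀ v : Eu n, Continuous fun t : ℝ => fderiv ℝ G (z₀ + t • (z - z₀)) v := fun v => by
      have : Continuous fun t : ℝ => z₀ + t • (z - z₀) := by fun_prop
      exact (hdG.continuous.comp this).clm_apply continuous_const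
    have h3 := intervalIntegral.integral_eq_sub_of_hasDerivAt (a := 0) (b := 1)
      (fun t _ => h1 t) ((hc _).intervalIntegrable _ _)
    simp only [one_smul, zero_smul, add_zero, add_sub_cancel] at h3
    have h4 : z - z₀ = ∑ j, (z j - z₀ j) • (EuclideanSpace.single j (1 : ℝ)) := by
      ext i
      simp [Finset.sum_apply, Pi.single_apply]
    have h5 : ∀ t : ℝ, fderiv ℝ G (z₀ + t • (z - z₀)) (z - z₀) =
        ∑ j, (z j - z₀ j) * fderiv ℝ G (z₀ + t • (z - z₀)) (EuclideanSpace.single j 1) := by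
      intro t
      have h6 := congrArg (fderiv ℝ G (z₀ + t • (z - z₀))) h4
      rw [h6, map_sum]
      exact Finset.sum_congr rfl fun j _ => by rw [map_smul, smul_eq_mul]
    simp only [h5] at h3
    rw [intervalIntegral.integral_finsetSum] at h3
    · simp only [intervalIntegral.integral_const_mul] at h3
      linarith
    · intro j _
      exact (continuous_const.mul (hc _)).intervalIntegrable _ _

namespace PoissonBracket

variable (P : PoissonBracket n M)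

theorem br_add (f g h : C^∞⟮𝓡 n, M; ℝ⟯) : P.br f (g + h) = P.br f g + P.br f h := by
  rw [P.skew, P.add_left, P.skew g f, P.skew h f]
  simp only [neg_add_rev, neg_neg]
  rw [add_comm]

theorem br_smul (c : ℝ) (f g : C^∞⟮𝓡 n, M; ℝ⟯) : P.br f (c • g) = c • P.br f g := by
  rw [P.skew, P.smul_left, P.skew g f]
  simp

theorem br_one (f : C^∞⟮𝓡 n, M; ℝ⟯) : P.br f 1 = 0 := by
  have h := P.leibniz f 1 1
  rw [mul_one, one_mul] at h
  have h2 : P.br f 1 + 0 = P.br f 1 + P.br f 1 := by rw [add_zero]; exact h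
  exact (add_left_cancel h2).symm

theorem br_zero (f : C^∞⟮𝓡 n, M; ℝ⟯) : P.br f 0 = 0 := by
  have h := P.br_smul 0 f 0
  rw [zero_smul, zero_smul] at h
  exact h

theorem br_sum (f : C^∞⟮𝓡 n, M; ℝ⟯) {ι : Type*} (s : Finset ι) (g : ι → C^∞⟮𝓡 n, M; ℝ⟯) :
    P.br f (∑ j ∈ s, g j) = ∑ j ∈ s, P.br f (g j) := by
  classical
  induction s using Finset.induction_on with
  | empty => simp [P.br_zero]
  | insert a s ha ih => rw [Finset.sum_insert ha, Finset.sum_insert ha, P.br_add, ih]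

theorem br_local (f : C^∞⟮𝓡 n, M; ℝ⟯) {g : C^∞⟮𝓡 n, M; ℝ⟯} {x : M} (h : ∀ᶠ y in 𝓝 x, g y = 0) :
    P.br f g x = 0 := by
  have : LocallyCompactSpace M := Manifold.locallyCompact_of_finiteDimensional (𝓡 n)
  obtain ⟨U, hU, hUo, hxU⟩ := eventually_nhds_iff.1 h
  obtain ⟨χ, h0, h1, -⟩ := exists_contMDiffMap_zero_one_of_isClosed (M := M) (𝓡 n) (n := ⊤)
    (s := Uᶜ) (t := {x}) hUo.isClosed_compl isClosed_singleton
    (by simpa using hxU)
  have h2 : χ * g = 0 := by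
    ext y
    show χ y * g y = 0
    by_cases hy : y ∈ U
    · rw [hU y hy, mul_zero]
    · rw [h0 hy]; simp
  have h3 := P.leibniz f χ g
  rw [h2, P.br_zero] at h3
  have h4 : (0 : ℝ) = χ x * P.br f g x + g x * P.br f χ x := by
    have := congrArg (fun u : C^∞⟮𝓡 n, M; ℝ⟯ => u x) h3
    exact this
  rw [hU x hxU, h1 rfl] at h4
  simpa using h4.symm

theorem br_congr (f : C^∞⟮𝓡 n, M; ℝ⟯) {g h : C^∞⟮𝓡 n, M; ℝ⟯} {x : M} (he : ∀ᶠ y in 𝓝 x, g y = h y) :
    P.br f g x = P.br f h x := by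
  have h1 : P.br f (g + (-1 : ℝ) • h) x = 0 := P.br_local f (he.mono fun y hy => by
    show g y + (-1 : ℝ) * h y = 0
    rw [hy]; ring)
  rw [P.br_add, P.br_smul] at h1
  have h2 : P.br f g x + (-1 : ℝ) * P.br f h x = 0 := h1
  linarith

/-- The Poisson bracket in a chart. -/
theorem br_chart {ψ : OpenPartialHomeomorph M (Eu n)}
    (hψ : ψ ∈ IsManifold.maximalAtlas (𝓡 n) ∞ M) {x : M} (hx : x ∈ ψ.source)
    {xt : Fin n → C^∞⟮𝓡 n, M; ℝ⟯} (hxt : ∀ j, ∀ᶠ y in 𝓝 x, xt j y = (ψ y) j)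
    (f g : C^∞⟮𝓡 n, M; ℝ⟯) :
    P.br f g x = fderiv ℝ (g ∘ ψ.symm) (ψ x)
      (∑ j, (P.br f (xt j) x) • EuclideanSpace.single j (1 : ℝ)) := by
  -- a global representative
  have hgs : ContDiffOn ℝ ∞ (g ∘ ψ.symm) ψ.target := by
    rw [← contMDiffOn_iff_contDiffOn]
    exact g.contMDiff.comp_contMDiffOn (contMDiffOn_symm_of_mem_maximalAtlas hψ)
  have hx' : ψ x ∈ ψ.target := ψ.map_source hx
  obtain ⟨G, hG, hGeq⟩ : ∃ G : Eu n → ℝ, ContDiff ℝ ∞ G ∧ ∀ᶠ z in 𝓝 (ψ x), G z = g (ψ.symm z) := by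
    obtain ⟨r, hr, hrs⟩ := Metric.nhds_basis_closedBall.mem_iff.1 (ψ.open_target.mem_nhds hx')
    let b : ContDiffBump (ψ x) := ⟨r / 2, r, by positivity, by linarith⟩
    refine ⟨fun z => b z * g (ψ.symm z), ?_, ?_⟩
    · rw [contDiff_iff_contDiffAt]
      intro z
      by_cases hz : z ∈ ψ.target
      · exact (b.contDiff.contDiffAt).mul (hgs.contDiffAt (ψ.open_target.mem_nhds hz))
      · have h2 : (fun z => b z * g (ψ.symm z)) =ᶠ[𝓝 z] fun _ => 0 := by
          have h3 : ∀ᶠ y in 𝓝 z, y ∉ tsupport b := by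
            refine (isClosed_tsupport _).isOpen_compl.mem_nhds ?_
            intro h4
            rw [b.tsupport_eq] at h4
            exact hz (hrs h4)
          exact h3.mono fun y hy => by
            have : b y = 0 := image_eq_zero_of_notMem_tsupport hy
            simp [this]
        exact contDiffAt_const.congr_of_eventuallyEq h2
    · have h3 : ∀ᶠ z in 𝓝 (ψ x), b z = 1 := b.eventuallyEq_one
      refine h3.mono fun z hz => ?_
      show b z * g (ψ.symm z) = _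
      rw [hz, one_mul]
  obtain ⟨H, hH, hH0, hHG⟩ := hadamard hG (ψ x)
  have hext : ∀ j, ∃ h : C^∞⟮𝓡 n, M; ℝ⟯, ∀ᶠ y in 𝓝 x, h y = H j (ψ y) := by
    intro j
    obtain ⟨h, hh⟩ := exists_extend hψ (K := {x}) isClosed_singleton (singleton_subset_iff.2 hx)
      (hH j).contDiffOn
    rw [nhdsSet_singleton] at hh
    exact ⟨h, hh⟩
  choose ht hht using hext
  have hψc : ContinuousAt ψ x := ψ.continuousAt hx
  have key : ∀ᶠ y in 𝓝 x, g y =
      (G (ψ x) • (1 : C^∞⟮𝓡 n, M; ℝ⟯) + ∑ j, (xt j + (-(ψ x j)) • (1 : C^∞⟮𝓡 n, M; ℝ⟯)) * ht j) y := by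
    have e1 : ∀ᶠ y in 𝓝 x, y ∈ ψ.source := ψ.open_source.mem_nhds hx
    have e2 : ∀ᶠ y in 𝓝 x, G (ψ y) = g (ψ.symm (ψ y)) := hψc.eventually hGeq
    have e3 : ∀ᶠ y in 𝓝 x, ∀ j, xt j y = (ψ y) j := eventually_all.2 hxt
    have e4 : ∀ᶠ y in 𝓝 x, ∀ j, ht j y = H j (ψ y) := eventually_all.2 hht
    filter_upwards [e1, e2, e3, e4] with y h1 h2 h3 h4
    rw [ψ.left_inv h1] at h2
    have h5 : (G (ψ x) • (1 : C^∞⟮𝓡 n, M; ℝ⟯) + ∑ j, (xt j + (-(ψ x j)) • (1 : C^∞⟮𝓡 n, M; ℝ⟯)) * ht j) y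
        = G (ψ x) * 1 + ∑ j, (xt j y + (-(ψ x j)) * 1) * ht j y := by
      rw [ContMDiffMap.coe_add, Pi.add_apply]
      congr 1
      have : ∀ (s : Finset (Fin n)) (F : Fin n → C^∞⟮𝓡 n, M; ℝ⟯), (∑ j ∈ s, F j) y = ∑ j ∈ s, F j y := by
        intro s F
        classical
        induction s using Finset.induction_on with
        | empty => simp
        | insert a s ha ih => rw [Finset.sum_insert ha, Finset.sum_insert ha, ← ih]; rfl
      rw [this]
      rfl
    rw [h5, ← h2, hHG (ψ y)]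
    simp only [h3, h4, mul_one]
    congr 1
  rw [P.br_congr f key, P.br_add, P.br_smul, P.br_one, P.br_sum, smul_zero, zero_add]
  have hsum : ∀ (s : Finset (Fin n)) (F : Fin n → C^∞⟮𝓡 n, M; ℝ⟯), (∑ j ∈ s, F j) x = ∑ j ∈ s, F j x := by
    intro s F
    classical
    induction s using Finset.induction_on with
    | empty => simp
    | insert a s ha ih => rw [Finset.sum_insert ha, Finset.sum_insert ha, ← ih]; rfl
  rw [hsum, map_sum]
  refine Finset.sum_congr rfl fun j _ => ?_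
  rw [P.leibniz, P.br_add, P.br_smul, P.br_one, smul_zero, add_zero, map_smul, smul_eq_mul]
  have h6 : fderiv ℝ (g ∘ ψ.symm) (ψ x) = fderiv ℝ G (ψ x) := by
    refine Filter.EventuallyEq.fderiv_eq ?_
    exact hGeq.mono fun z hz => hz.symm
  rw [h6, ← hH0 j]
  have h7 : ht j x = H j (ψ x) := (hht j).self_of_nhds
  have h8 : xt j x = ψ x j := (hxt j).self_of_nhds
  show (xt j x + (-(ψ x j)) * 1) * P.br f (ht j) x + ht j x * P.br f (xt j) x = _
  rw [h7, h8]
  ring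

end PoissonBracket

end Q169.Poisson
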