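import Mathlib

/-!
Definitions for `MP_5d95cf_gt`: Poisson manifolds, Poisson homeomorphisms and the symplectic
foliation of a Poisson manifold.
-/

set_option autoImplicit false

open Set Filter Topology
open scoped Manifold ContDiff

namespace Q169.Poisson

universe u v

/-- The smooth functions on the `n`-dimensional manifold `M`. -/
abbrev Sm (n : ℕ) (M : Type u) [TopologicalSpace M] [ChartedSpace (EuclideanSpace ℝ (Fin n)) M] :
    Type u := C^∞⟮𝓡 n, M; ℝ⟯

/-- The diffeomorphisms of the `n`-dimensional manifold `M`. -/
abbrev Diff (n : ℕ) (M : Type u) [TopologicalSpace M] [ChartedSpace (EuclideanSpace ℝ (Fin n)) M] :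
    Type u := M ≃ₘ⟮𝓡 n, 𝓡 n⟯ M

/-- Additivity in the first argument. -/
def AddLeft {n : ℕ} {M : Type u} [TopologicalSpace M] [ChartedSpace (EuclideanSpace ℝ (Fin n)) M]
    (br : Sm n M → Sm n M → Sm n M) : Prop :=
  ∀ f g h, br (f + g) h = br f h + br g h

/-- Homogeneity in the first argument. -/
def SMulLeft {n : ℕ} {M : Type u} [TopologicalSpace M] [ChartedSpace (EuclideanSpace ℝ (Fin n)) M]
    (br : Sm n M → Sm n M → Sm n M) : Prop :=
  ∀ (c : ℝ) f g, br (c • f) g = c • br f g

/-- Antisymmetry. -/
def Skew {n : ℕ} {M : Type u} [TopologicalSpace M] [ChartedSpace (EuclideanSpace ℝ (Fin n)) M]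
    (br : Sm n M → Sm n M → Sm n M) : Prop :=
  ∀ f g, br f g = -br g f

/-- The Leibniz rule. -/
def Leibniz {n : ℕ} {M : Type u} [TopologicalSpace M] [ChartedSpace (EuclideanSpace ℝ (Fin n)) M]
    (br : Sm n M → Sm n M → Sm n M) : Prop :=
  ∀ f g h, br f (g * h) = g * br f h + h * br f g

/-- The Jacobi identity. -/
def Jacobi {n : ℕ} {M : Type u} [TopologicalSpace M] [ChartedSpace (EuclideanSpace ℝ (Fin n)) M]
    (br : Sm n M → Sm n M → Sm n M) : Prop :=
  ∀ f g h, br f (br g h) + br g (br h f) + br h (br f g) = 0

/-- A Poisson bracket on the smooth functions of the `n`-dimensional manifold `M`. -/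
structure PoissonBracket (n : ℕ) (M : Type u) [TopologicalSpace M]
    [ChartedSpace (EuclideanSpace ℝ (Fin n)) M] where
  /-- the bracket `{f, g}` -/
  br : Sm n M → Sm n M → Sm n M
  isAddLeft : AddLeft br
  isSMulLeft : SMulLeft br
  isSkew : Skew br
  isLeibniz : Leibniz br
  isJacobi : Jacobi br

namespace PoissonBracket

variable {n : ℕ} {M : Type u} [TopologicalSpace M] [ChartedSpace (EuclideanSpace ℝ (Fin n)) M]
  (P : PoissonBracket n M)

theorem add_left (f g h : Sm n M) : P.br (f + g) h = P.br f h + P.br g h := P.isAddLeft f g h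

theorem smul_left (c : ℝ) (f g : Sm n M) : P.br (c • f) g = c • P.br f g := P.isSMulLeft c f g

theorem skew (f g : Sm n M) : P.br f g = -P.br g f := P.isSkew f g

theorem leibniz (f g h : Sm n M) : P.br f (g * h) = g * P.br f h + h * P.br f g :=
  P.isLeibniz f g h

end PoissonBracket

variable {n : ℕ} {M : Type u} [TopologicalSpace M] [ChartedSpace (EuclideanSpace ℝ (Fin n)) M]

/-- The composition `f ∘ ψ` of a smooth function with a diffeomorphism. -/
noncomputable def pull (f : Sm n M) (ψ : Diff n M) : Sm n M := f.comp ψ.toContMDiffMap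

/-- Poisson diffeomorphisms: diffeomorphisms `ψ` of `M` with
`{f ∘ ψ, g ∘ ψ} = {f, g} ∘ ψ` for all smooth `f`, `g`. -/
def IsPoissonDiffeo (P : PoissonBracket n M) (ψ : Diff n M) : Prop :=
  ∀ f g : Sm n M, P.br (pull f ψ) (pull g ψ) = pull (P.br f g) ψ

/-- Poisson homeomorphisms: homeomorphisms `φ` of `M` which are `C⁰` limits of a sequence `φs` of
Poisson diffeomorphisms. The `C⁰` convergence, that is uniform convergence on compact subsets, is
the convergence in the compact-open topology of `C(M, M)`. -/
def IsPoissonHomeo (P : PoissonBracket n M) (φ : M ≃ₜ M) : Prop :=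
  ∃ φs : ℕ → Diff n M, (∀ k, IsPoissonDiffeo P (φs k)) ∧
    Tendsto (fun k => (⟨φs k, (φs k).continuous⟩ : C(M, M))) atTop (𝓝 ⟨φ, φ.continuous⟩)

/-- The Hamiltonian tangent vectors at `x`, as derivations on smooth functions: the value at `x`
of the Hamiltonian vector field of `f` is `g ↦ {f, g} x`. -/
def hamVectors (P : PoissonBracket n M) (x : M) : Set (Sm n M → ℝ) :=
  {D | ∃ f, D = fun g => P.br f g x}

/-- The differential `dF` at `l` of a real function `F` on the `d`-dimensional manifold `L`, as a
linear form on the tangent space of `L` at `l`, which Mathlib identifies with the model space. -/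
noncomputable def differential {d : ℕ} {L : Type v} [TopologicalSpace L]
    [ChartedSpace (EuclideanSpace ℝ (Fin d)) L] (F : L → ℝ) (l : L) :
    EuclideanSpace ℝ (Fin d) →L[ℝ] ℝ :=
  mfderiv (𝓡 d) 𝓘(ℝ, ℝ) F l

/-- The vectors at `i l` which are images under `i : L → M` of tangent vectors `w` of `L` at `l`,
as derivations on smooth functions: `g ↦ d (g ∘ i) (w)`. -/
def imageVectors {d : ℕ} {L : Type v} [TopologicalSpace L]
    [ChartedSpace (EuclideanSpace ℝ (Fin d)) L] (i : L → M) (l : L) : Set (Sm n M → ℝ) :=
  {D | ∃ w : EuclideanSpace ℝ (Fin d), D = fun g => differential (d := d) (fun l' => g (i l')) l w}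

/-- Connected integral manifolds of a Poisson structure: connected manifolds with an injective
immersion into `M` whose tangent spaces are spanned by the Hamiltonian vector fields. -/
structure IntegralManifold (P : PoissonBracket n M) where
  dim : ℕ
  carrier : Type v
  [top : TopologicalSpace carrier]
  [charted : ChartedSpace (EuclideanSpace ℝ (Fin dim)) carrier]
  [mfld : IsManifold (𝓡 dim) ∞ carrier]
  [conn : ConnectedSpace carrier]
  incl : carrier → M
  immersion : Manifold.IsImmersion (𝓡 dim) (𝓡 n) ∞ incl
  injective : Function.Injective incl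
  tangent : ∀ l, hamVectors P (incl l) = imageVectors (d := dim) incl l

attribute [instance] IntegralManifold.top IntegralManifold.charted
  IntegralManifold.mfld IntegralManifold.conn

/-- The symplectic foliation of a Poisson manifold: the partition of `M` into connected integral
manifolds, the symplectic leaves. -/
structure SymplecticFoliation (P : PoissonBracket n M) where
  ι : Type v
  leaf : ι → IntegralManifold.{u, v} P
  partition : ∀ x, ∃! i, x ∈ range (leaf i).incl

/-- The homeomorphism `φ` of `M` maps the leaf `L` onto the leaf `L'`, and it restricts to a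
homeomorphism `h : L → L'` for the leaf topologies. -/
def MapsHomeomorphically {P : PoissonBracket n M} (φ : M ≃ₜ M) (L L' : IntegralManifold.{u, v} P) :
    Prop :=
  φ '' range L.incl = range L'.incl ∧
    ∃ h : L.carrier ≃ₜ L'.carrier, ∀ l, L'.incl (h l) = φ (L.incl l)

end Q169.Poisson
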