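import Pool.Agent.Q169.PSSlice

/-!
Hamiltonian curves stay in slices.
-/

set_option autoImplicit false
set_option linter.unusedSectionVars false

open Set Filter Topology MeasureTheory
open scoped Manifold ContDiff

namespace Q169.Poisson

universe u v

variable {n : ℕ} {M : Type u} [TopologicalSpace M] [ChartedSpace (EuclideanSpace ℝ (Fin n)) M]
  [IsManifold (𝓡 n) ∞ M]
  {d : ℕ} {L : Type v} [TopologicalSpace L] [ChartedSpace (EuclideanSpace ℝ (Fin d)) L]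
  [IsManifold (𝓡 d) ∞ L] {P : PoissonBracket n M} {i : L → M}

theorem IsLeaf.contMDiff (h : IsLeaf d P i) : ContMDiff (𝓡 d) (𝓡 n) ∞ i := h.imm.contMDiff

theorem IsLeaf.smooth_comp (h : IsLeaf d P i) (g : C^∞⟮𝓡 n, M; ℝ⟯) :
    ContMDiff (𝓡 d) 𝓘(ℝ, ℝ) ∞ fun l' => g (i l') := g.contMDiff.comp h.contMDiff

theorem IsLeaf.tan₁ (h : IsLeaf d P i) {φ : OpenPartialHomeomorph L (Eu d)}
    (hφ : φ ∈ IsManifold.maximalAtlas (𝓡 d) ∞ L) {l : L} (hl : l ∈ φ.source)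
    (f : C^∞⟮𝓡 n, M; ℝ⟯) :
    ∃ W : Eu d, ∀ g, P.br f g (i l) = fderiv ℝ ((fun l' => g (i l')) ∘ φ.symm) (φ l) W := by
  have h1 : (fun g => P.br f g (i l)) ∈ hamVectors P (i l) := ⟨f, rfl⟩
  rw [h.tan] at h1
  obtain ⟨w, hw⟩ := h1
  refine ⟨mfderiv (𝓡 d) (𝓡 d) φ l w, fun g => ?_⟩
  have h2 : P.br f g (i l) = (mfderiv (𝓡 d) 𝓘(ℝ, ℝ) (fun l' => g (i l')) l w : ℝ) := congrFun hw g
  exact h2.trans (mfderiv_chart hφ hl (h.smooth_comp g) w)

theorem IsLeaf.tan₂ (h : IsLeaf d P i) {φ : OpenPartialHomeomorph L (Eu d)}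
    (hφ : φ ∈ IsManifold.maximalAtlas (𝓡 d) ∞ L) {l : L} (hl : l ∈ φ.source) (W : Eu d) :
    ∃ f : C^∞⟮𝓡 n, M; ℝ⟯, ∀ g, P.br f g (i l) =
      fderiv ℝ ((fun l' => g (i l')) ∘ φ.symm) (φ l) W := by
  obtain ⟨w, hw⟩ := mfderiv_chart_surjective hφ hl W
  have h1 : (fun g : C^∞⟮𝓡 n, M; ℝ⟯ => (mfderiv (𝓡 d) 𝓘(ℝ, ℝ) (fun l' => g (i l')) l w : ℝ)) ∈
      imageVectors (d := d) i l := ⟨w, rfl⟩
  rw [← h.tan] at h1
  obtain ⟨f, hf⟩ := h1
  refine ⟨f, fun g => ?_⟩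
  have h2 : (mfderiv (𝓡 d) 𝓘(ℝ, ℝ) (fun l' => g (i l')) l w : ℝ) = P.br f g (i l) := congrFun hf g
  rw [← h2, mfderiv_chart hφ hl (h.smooth_comp g) w, hw]

/-- The extension of a path to the real line. -/
noncomputable def ext01 (z : C(unitInterval, M)) (t : ℝ) : M := z (projIcc 0 1 zero_le_one t)

/-- Integral curves of time dependent combinations of Hamiltonian vector fields. -/
def GenHam (P : PoissonBracket n M) {N : ℕ} (a : ℝ → Fin N → ℝ) (f : Fin N → C^∞⟮𝓡 n, M; ℝ⟯)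
    (z : C(unitInterval, M)) : Prop :=
  ∀ g : C^∞⟮𝓡 n, M; ℝ⟯, ∀ t ∈ Icc (0 : ℝ) 1, HasDerivWithinAt (fun t => g (ext01 z t))
    (∑ k, a t k * P.br (f k) g (ext01 z t)) (Icc 0 1) t

theorem GenHam.comp {N : ℕ} {a : ℝ → Fin N → ℝ} {f : Fin N → C^∞⟮𝓡 n, M; ℝ⟯}
    {z : C(unitInterval, M)} (h : GenHam P a f z) {χ : M ≃ₘ⟮𝓡 n, 𝓡 n⟯ M}
    (hχ : IsPoissonDiffeo P χ) :
    GenHam P a (fun k => pull (f k) χ.symm)
      ((⟨χ, χ.continuous⟩ : C(M, M)).comp z) := by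
  intro g t ht
  have h1 := h (pull g χ) t ht
  have h2 : ∀ k, P.br (f k) (pull g χ) (ext01 z t) =
      P.br (pull (f k) χ.symm) g (χ (ext01 z t)) := by
    intro k
    have h3 := hχ (pull (f k) χ.symm) g
    have h4 : pull (pull (f k) χ.symm) χ = f k := by
      ext x
      show f k (χ.symm (χ x)) = f k x
      rw [χ.symm_apply_apply]
    rw [h4] at h3
    rw [h3]
    rfl
  simp only [h2] at h1
  exact h1

theorem IsPoissonDiffeo.symm {χ : M ≃ₘ⟮𝓡 n, 𝓡 n⟯ M} (hχ : IsPoissonDiffeo P χ) :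
    IsPoissonDiffeo P χ.symm := by
  intro f g
  have h := hχ (pull f χ.symm) (pull g χ.symm)
  have h4 : ∀ f : C^∞⟮𝓡 n, M; ℝ⟯, pull (pull f χ.symm) χ = f := by
    intro f
    ext x
    show f (χ.symm (χ x)) = f x
    rw [χ.symm_apply_apply]
  rw [h4, h4] at h
  ext x
  have h5 := congrArg (fun q : C^∞⟮𝓡 n, M; ℝ⟯ => q (χ.symm x)) h
  have h6 : P.br (pull f χ.symm) (pull g χ.symm) (χ (χ.symm x)) =
    P.br f g (χ.symm x) := h5.symm
  rw [χ.apply_symm_apply] at h6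
  exact h6

namespace Slice

variable {l : L} (s : Slice n d i l)

/-- The normal coordinate. -/
noncomputable def v (p : M) : Fin s.m → ℝ := (s.ε.symm (s.ψ p)).2

/-- The open box. -/
def box (r : ℝ) : Set M :=
  {p | p ∈ s.ψ.source ∧ s.ε.symm (s.ψ p) ∈ Metric.ball (s.φ l) r ×ˢ Metric.ball 0 r}

/-- The size of the box is good. -/
def Good (r : ℝ) : Prop := 0 < r ∧ Metric.closedBall (s.φ l) r ⊆ s.φ.target ∧
  ∀ q ∈ Metric.closedBall (s.φ l) r ×ˢ Metric.closedBall (0 : Fin s.m → ℝ) r, s.ε q ∈ s.ψ.target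

theorem exists_good {W : Set L} (hW : W ∈ 𝓝 l) :
    ∃ r, s.Good r ∧ s.φ.symm '' (Metric.ball (s.φ l) r) ⊆ W := by
  have h1 : s.φ.target ∈ 𝓝 (s.φ l) := s.φ.open_target.mem_nhds (s.φ.map_source s.hl)
  have h2 : s.φ.symm ⁻¹' W ∈ 𝓝 (s.φ l) := by
    have h3 : ContinuousAt s.φ.symm (s.φ l) := s.φ.symm.continuousAt (s.φ.map_source s.hl)
    apply h3
    rw [s.φ.left_inv s.hl]
    exact hW
  have h3 : s.ε ⁻¹' s.ψ.target ∈ 𝓝 (s.φ l, (0 : Fin s.m → ℝ)) := by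
    refine s.ε.continuous.continuousAt.preimage_mem_nhds (s.ψ.open_target.mem_nhds ?_)
    rw [← s.eq _ (s.φ.map_source s.hl), s.φ.left_inv s.hl]
    exact s.ψ.map_source (s.maps _ s.hl)
  obtain ⟨r1, hr1, hr1s⟩ := Metric.nhds_basis_closedBall.mem_iff.1 (inter_mem h1 h2)
  obtain ⟨r2, hr2, hr2s⟩ := Metric.nhds_basis_closedBall.mem_iff.1 h3
  have hm1 : min r1 r2 ≤ r1 := min_le_left _ _
  have hm2 : min r1 r2 ≤ r2 := min_le_right _ _
  refine ⟨min r1 r2, ⟨lt_min hr1 hr2, ?_, ?_⟩, ?_⟩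
  · exact fun q hq => (hr1s (Metric.closedBall_subset_closedBall hm1 hq)).1
  · rintro ⟨q1, q2⟩ ⟨hq1, hq2⟩
    refine hr2s ?_
    rw [← closedBall_prod_same]
    exact ⟨Metric.closedBall_subset_closedBall hm2 hq1, Metric.closedBall_subset_closedBall hm2 hq2⟩
  · rintro _ ⟨q, hq, rfl⟩
    exact (hr1s (Metric.ball_subset_closedBall (Metric.ball_subset_ball hm1 hq))).2

theorem isOpen_box (r : ℝ) : IsOpen (s.box r) := by
  have h1 : s.box r = s.ψ.source ∩ s.ψ ⁻¹' (s.ε.symm ⁻¹' (Metric.ball (s.φ l) r ×ˢ Metric.ball 0 r)) := rfl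
  rw [h1]
  exact s.ψ.isOpen_inter_preimage ((Metric.isOpen_ball.prod Metric.isOpen_ball).preimage
    s.ε.symm.continuous)

theorem mem_box {r : ℝ} (hr : 0 < r) : i l ∈ s.box r := by
  refine ⟨s.maps _ s.hl, ?_⟩
  have h1 := s.eq _ (s.φ.map_source s.hl)
  rw [s.φ.left_inv s.hl] at h1
  rw [h1, s.ε.symm_apply_apply]
  exact ⟨Metric.mem_ball_self hr, Metric.mem_ball_self hr⟩

theorem v_eq_zero : s.v (i l) = 0 := by
  have h1 := s.eq _ (s.φ.map_source s.hl)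
  rw [s.φ.left_inv s.hl] at h1
  simp only [v]
  rw [h1, s.ε.symm_apply_apply]

theorem continuousOn_v : ContinuousOn s.v s.ψ.source :=
  continuous_snd.comp_continuousOn (s.ε.symm.continuous.comp_continuousOn s.ψ.continuousOn)

/-- Points of the box with vanishing normal coordinate are in the leaf. -/
theorem mem_image {r : ℝ} (hr : s.Good r) {p : M} (hp : p ∈ s.box r) (hv : s.v p = 0) :
    p ∈ i '' (s.φ.symm '' (Metric.ball (s.φ l) r)) := by
  have hu : (s.ε.symm (s.ψ p)).1 ∈ Metric.ball (s.φ l) r := hp.2.1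
  refine ⟨s.φ.symm (s.ε.symm (s.ψ p)).1, ⟨_, hu, rfl⟩, ?_⟩
  have hut := hr.2.1 (Metric.ball_subset_closedBall hu)
  have h1 := s.eq _ hut
  have h2 : ((s.ε.symm (s.ψ p)).1, (0 : Fin s.m → ℝ)) = s.ε.symm (s.ψ p) := Prod.ext rfl hv.symm
  rw [h2, s.ε.apply_symm_apply] at h1
  exact s.ψ.injOn (s.maps _ (s.φ.map_target hut)) hp.1 h1

variable [T2Space M] [SigmaCompactSpace M]

/-- Hamiltonian curves stay in the slice. -/
theorem stay (h : IsLeaf d P i) {r : ℝ} (hr : s.Good r) {N : ℕ} {a : ℝ → Fin N → ℝ}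
    (ha : ContinuousOn a (Icc 0 1)) {f : Fin N → C^∞⟮𝓡 n, M; ℝ⟯} {z : C(unitInterval, M)}
    (hz : GenHam P a f z) (hbox : ∀ t, z t ∈ s.box r) (h0 : s.v (z 0) = 0) :
    s.v (z 1) = 0 := by
  set Bx : Set (Eu d × (Fin s.m → ℝ)) :=
    Metric.closedBall (s.φ l) r ×ˢ Metric.closedBall (0 : Fin s.m → ℝ) r with hBx
  have hBxc : IsCompact Bx := (isCompact_closedBall _ _).prod (isCompact_closedBall _ _)
  have hBxconv : Convex ℝ Bx := (convex_closedBall _ _).prod (convex_closedBall _ _)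
  set CB : Set M := s.ψ.symm '' (s.ε '' Bx) with hCB
  have hCBc : IsCompact CB := by
    refine (hBxc.image s.ε.continuous).image_of_continuousOn (s.ψ.continuousOn_symm.mono ?_)
    rintro _ ⟨q, hq, rfl⟩
    exact hr.2.2 q hq
  have hCBs : CB ⊆ s.ψ.source := by
    rintro _ ⟨_, ⟨q, hq, rfl⟩, rfl⟩
    exact s.ψ.map_target (hr.2.2 q hq)
  have hext : ∀ j : Fin s.m, ∃ g : C^∞⟮𝓡 n, M; ℝ⟯, ∀ᶠ x in 𝓝ˢ CB, g x = s.v x j := by
    intro j
    refine exists_extend s.hψ hCBc.isClosed hCBs (h := fun q => (s.ε.symm q).2 j) ?_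
    refine ContDiff.contDiffOn ?_
    exact ((contDiff_apply ℝ ℝ j).comp contDiff_snd).comp s.ε.symm.contDiff
  choose gj hgj using hext
  have hgjCB : ∀ j, ∀ p ∈ CB, gj j p = s.v p j := fun j p hp => by
    have h1 : ∀ᶠ x in 𝓝 p, gj j x = s.v x j := mem_nhdsSet_iff_forall.1 (hgj j) p hp
    exact h1.self_of_nhds
  -- tangency
  have htan : ∀ (F : C^∞⟮𝓡 n, M; ℝ⟯) (j : Fin s.m), ∀ u ∈ Metric.closedBall (s.φ l) r,
      P.br F (gj j) (i (s.φ.symm u)) = 0 := by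
    intro F j u hu
    have hut := hr.2.1 hu
    obtain ⟨W, hW⟩ := h.tan₁ s.hφ (s.φ.map_target hut) F
    rw [hW, s.φ.right_inv hut]
    have hiCB : i (s.φ.symm u) ∈ CB := by
      refine ⟨s.ε (u, 0), ⟨(u, 0), ⟨hu, Metric.mem_closedBall_self hr.1.le⟩, rfl⟩, ?_⟩
      rw [← s.eq u hut]
      exact s.ψ.left_inv (s.maps _ (s.φ.map_target hut))
    have hev : (fun l' => gj j (i l')) ∘ s.φ.symm =ᶠ[𝓝 u] fun _ => 0 := by
      have c1 : ContinuousAt (fun u' => i (s.φ.symm u')) u := by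
        have c2 : ContinuousAt s.φ.symm u := s.φ.symm.continuousAt hut
        exact (h.contMDiff.continuous.continuousAt).comp c2
      have e1 : ∀ᶠ u' in 𝓝 u, gj j (i (s.φ.symm u')) = s.v (i (s.φ.symm u')) j :=
        c1.eventually (mem_nhdsSet_iff_forall.1 (hgj j) _ hiCB)
      filter_upwards [e1, s.φ.open_target.mem_nhds hut] with u' h1 h2
      show gj j (i (s.φ.symm u')) = 0
      rw [h1]
      simp only [v]
      rw [s.eq u' h2, s.ε.symm_apply_apply]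
      rfl
    rw [hev.fderiv_eq]
    simp
  -- the Lipschitz bound
  have hbound : ∀ (F : C^∞⟮𝓡 n, M; ℝ⟯) (j : Fin s.m), ∃ C : ℝ, 0 ≤ C ∧ ∀ p ∈ s.box r,
      |P.br F (gj j) p| ≤ C * ‖s.v p‖ := by
    intro F j
    set G : Eu d × (Fin s.m → ℝ) → ℝ := fun q => P.br F (gj j) (s.ψ.symm (s.ε q)) with hG
    have hGs : ContDiffOn ℝ ∞ G (s.ε ⁻¹' s.ψ.target) := by
      have h1 : ContDiffOn ℝ ∞ ((P.br F (gj j)) ∘ s.ψ.symm) s.ψ.target := by
        rw [← contMDiffOn_iff_contDiffOn]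
        exact (P.br F (gj j)).contMDiff.comp_contMDiffOn (contMDiffOn_symm_of_mem_maximalAtlas s.hψ)
      exact h1.comp s.ε.contDiff.contDiffOn (fun q hq => hq)
    have hopen : IsOpen (s.ε ⁻¹' s.ψ.target) := s.ψ.open_target.preimage s.ε.continuous
    have hsub : Bx ⊆ s.ε ⁻¹' s.ψ.target := fun q hq => hr.2.2 q hq
    have hcont : ContinuousOn (fderiv ℝ G) Bx :=
      ((hGs.continuousOn_fderiv_of_isOpen hopen (by simp))).mono hsub
    obtain ⟨C, hC⟩ := hBxc.exists_bound_of_continuousOn hcont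
    refine ⟨max C 0, le_max_right _ _, fun p hp => ?_⟩
    set q := s.ε.symm (s.ψ p) with hq
    have hqB : q ∈ Bx := ⟨Metric.ball_subset_closedBall hp.2.1, Metric.ball_subset_closedBall hp.2.2⟩
    have hq0 : (q.1, (0 : Fin s.m → ℝ)) ∈ Bx := ⟨hqB.1, Metric.mem_closedBall_self hr.1.le⟩
    have h1 := hBxconv.norm_image_sub_le_of_norm_hasFDerivWithin_le (f := G) (f' := fderiv ℝ G)
      (C := max C 0) (fun x hx =>
        ((hGs.contDiffAt (hopen.mem_nhds (hsub hx))).differentiableAt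
          (by simp)).hasFDerivAt.hasFDerivWithinAt)
      (fun x hx => (hC x hx).trans (le_max_left _ _)) hq0 hqB
    have h2 : G (q.1, 0) = 0 := by
      have hut := hr.2.1 hqB.1
      simp only [hG]
      rw [← s.eq _ hut, s.ψ.left_inv (s.maps _ (s.φ.map_target hut))]
      exact htan F j _ hqB.1
    have h3 : G q = P.br F (gj j) p := by
      simp only [hG, hq]
      rw [s.ε.apply_symm_apply, s.ψ.left_inv hp.1]
    have h4 : q - (q.1, 0) = (0, q.2) := by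
      apply Prod.ext <;> simp
    rw [h2, sub_zero, h3, h4, Real.norm_eq_abs] at h1
    refine h1.trans (mul_le_mul_of_nonneg_left ?_ (le_max_right _ _))
    rw [Prod.norm_def]
    simp only [norm_zero]
    exact max_le (norm_nonneg _) le_rfl
  choose C hC0 hC using hbound
  obtain ⟨A, hA⟩ := isCompact_Icc.exists_bound_of_continuousOn ha
  have hA0 : 0 ≤ A := (norm_nonneg _).trans (hA 0 ⟨le_rfl, zero_le_one⟩)
  set K : ℝ := ∑ k, ∑ j, A * C (f k) j with hK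
  -- Gronwall
  have hboxCB : ∀ p ∈ s.box r, p ∈ CB := by
    intro p hp
    refine ⟨s.ψ p, ⟨s.ε.symm (s.ψ p), ⟨Metric.ball_subset_closedBall hp.2.1,
      Metric.ball_subset_closedBall hp.2.2⟩, s.ε.apply_symm_apply _⟩, s.ψ.left_inv hp.1⟩
  have hmem : ∀ t, ext01 z t ∈ s.box r := fun t => hbox _
  set V : ℝ → (Fin s.m → ℝ) := fun t j => gj j (ext01 z t) with hV
  have hVv : ∀ t, V t = s.v (ext01 z t) := fun t => funext fun j =>
    hgjCB j _ (hboxCB _ (hmem t))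
  have hVd : ∀ t ∈ Icc (0 : ℝ) 1, HasDerivWithinAt V
      (fun j => ∑ k, a t k * P.br (f k) (gj j) (ext01 z t)) (Icc 0 1) t := fun t ht =>
    hasDerivWithinAt_pi.2 fun j => hz (gj j) t ht
  have hfin := eq_zero_of_abs_deriv_le_mul_abs_self_of_eq_zero_right (f := V)
    (f' := fun t j => ∑ k, a t k * P.br (f k) (gj j) (ext01 z t)) (K := K) (a := 0) (b := 1)
    (fun t ht => (hVd t ht).continuousWithinAt)
    (fun t ht => (hVd t ⟨ht.1, ht.2.le⟩).mono_of_mem_nhdsWithin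
      (Icc_mem_nhdsGE_of_mem ht)) ?_ ?_ 1 ⟨zero_le_one, le_rfl⟩
  · have h1 := hVv 1
    rw [hfin] at h1
    have h2 : ext01 z 1 = z 1 := by
      simp only [ext01]
      congr 1
      exact projIcc_right _
    rw [h2] at h1
    exact h1.symm
  · rw [hVv]
    have h2 : ext01 z 0 = z 0 := by
      simp only [ext01]
      congr 1
      exact projIcc_left _
    rw [h2]
    exact h0
  · intro t ht
    have hKnn : 0 ≤ K := by
      rw [hK]
      exact Finset.sum_nonneg fun k _ => Finset.sum_nonneg fun j _ => mul_nonneg hA0 (hC0 _ _)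
    rw [pi_norm_le_iff_of_nonneg (by positivity)]
    intro j
    rw [Real.norm_eq_abs, hVv]
    calc |∑ k, a t k * P.br (f k) (gj j) (ext01 z t)|
        ≤ ∑ k, |a t k * P.br (f k) (gj j) (ext01 z t)| := Finset.abs_sum_le_sum_abs _ _
      _ ≤ ∑ k, A * C (f k) j * ‖s.v (ext01 z t)‖ := by
          refine Finset.sum_le_sum fun k _ => ?_
          rw [abs_mul, mul_assoc]
          refine mul_le_mul ?_ (hC (f k) j _ (hmem t)) (abs_nonneg _) hA0
          exact (norm_le_pi_norm (a t) k).trans (hA t ⟨ht.1, ht.2.le⟩)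
      _ = (∑ k, A * C (f k) j) * ‖s.v (ext01 z t)‖ := by rw [Finset.sum_mul]
      _ ≤ K * ‖s.v (ext01 z t)‖ := by
          refine mul_le_mul_of_nonneg_right ?_ (norm_nonneg _)
          rw [hK]
          refine Finset.sum_le_sum fun k _ => ?_
          exact Finset.single_le_sum (f := fun j => A * C (f k) j)
            (fun j _ => mul_nonneg hA0 (hC0 _ _)) (Finset.mem_univ j)

end Slice

end Q169.Poisson
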