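import Pool.Agent.Q169.PSPerturb
import Pool.Agent.Q169.PSArens

/-!
Poisson homeomorphisms preserve the symplectic leaves.
-/

set_option autoImplicit false
set_option linter.unusedSectionVars false

open Set Filter Topology MeasureTheory
open scoped Manifold ContDiff

namespace Q169.Poisson

universe u v w

section Local

variable {n : ℕ} {M : Type u} [TopologicalSpace M] [ChartedSpace (EuclideanSpace ℝ (Fin n)) M]
  [IsManifold (𝓡 n) ∞ M] [T2Space M] [SigmaCompactSpace M]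
  {d : ℕ} {L : Type v} [TopologicalSpace L] [ChartedSpace (EuclideanSpace ℝ (Fin d)) L]
  [IsManifold (𝓡 d) ∞ L]
  {d' : ℕ} {L' : Type w} [TopologicalSpace L'] [ChartedSpace (EuclideanSpace ℝ (Fin d')) L']
  [IsManifold (𝓡 d') ∞ L'] {P : PoissonBracket n M} {i : L → M} {i' : L' → M}

/-- The convergence of the inverses of the approximating diffeomorphisms. -/
theorem tendsto_symm' {χ : M ≃ₜ M} {χs : ℕ → (M ≃ₘ⟮𝓡 n, 𝓡 n⟯ M)}
    (hlim : Tendsto (fun k => (⟨χs k, (χs k).continuous⟩ : C(M, M))) atTop (𝓝 ⟨χ, χ.continuous⟩)) :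
    Tendsto (fun k => (⟨(χs k).symm, (χs k).symm.continuous⟩ : C(M, M))) atTop
      (𝓝 ⟨χ.symm, χ.symm.continuous⟩) := by
  have : LocallyCompactSpace M := Manifold.locallyCompact_of_finiteDimensional (𝓡 n)
  have : LocallyConnectedSpace M := ChartedSpace.locallyConnectedSpace (EuclideanSpace ℝ (Fin n)) M
  exact tendsto_symm (φs := fun k => (χs k).toHomeomorph) (φ := χ) hlim

theorem local_main (h : IsLeaf d P i) (h' : IsLeaf d' P i') {χ : M ≃ₜ M}
    {χs : ℕ → (M ≃ₘ⟮𝓡 n, 𝓡 n⟯ M)} (hχs : ∀ k, IsPoissonDiffeo P (χs k))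
    (hlim : Tendsto (fun k => (⟨χs k, (χs k).continuous⟩ : C(M, M))) atTop (𝓝 ⟨χ, χ.continuous⟩))
    {l : L} {l' : L'} (hl : χ (i' l') = i l) {W : Set L} (hW : W ∈ 𝓝 l) :
    ∀ᶠ l₁ in 𝓝 l', χ (i' l₁) ∈ i '' W := by
  have : LocallyCompactSpace M := Manifold.locallyCompact_of_finiteDimensional (𝓡 n)
  obtain ⟨s⟩ := exists_slice (h.imm.isImmersionAt l)
  obtain ⟨s'⟩ := exists_slice (h'.imm.isImmersionAt l')
  obtain ⟨r, hr, hrW⟩ := s.exists_good hW
  have hy : i' l' ∈ s'.ψ.source := s'.maps _ s'.hl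
  set w₀ := s'.ψ (i' l') with hw₀
  obtain ⟨R, hR, hRs⟩ := Metric.nhds_basis_closedBall.mem_iff.1
    (s'.ψ.open_target.mem_nhds (s'.ψ.map_source hy))
  have hci' : Continuous i' := h'.contMDiff.continuous
  have hN : {l₁ | χ (i' l₁) ∈ s.box r ∧ i' l₁ ∈ s'.ψ.source ∧
      s'.ψ (i' l₁) ∈ Metric.ball w₀ (R / 2)} ∈ 𝓝 l' := by
    have e1 : ∀ᶠ l₁ in 𝓝 l', χ (i' l₁) ∈ s.box r := by
      refine (χ.continuous.comp hci').continuousAt.eventually ((s.isOpen_box r).mem_nhds ?_)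
      show χ (i' l') ∈ s.box r
      rw [hl]
      exact s.mem_box hr.1
    have e2 : ∀ᶠ l₁ in 𝓝 l', i' l₁ ∈ s'.ψ.source :=
      hci'.continuousAt.eventually (s'.ψ.open_source.mem_nhds hy)
    have e3 : ∀ᶠ l₁ in 𝓝 l', s'.ψ (i' l₁) ∈ Metric.ball w₀ (R / 2) :=
      ((s'.ψ.continuousAt hy).comp hci'.continuousAt).eventually
        (Metric.ball_mem_nhds _ (by positivity))
    exact e1.and (e2.and e3)
  obtain ⟨f, hf⟩ := h'.paths l' hN
  refine hf.mono fun l₁ hl₁ => ?_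
  obtain ⟨a, c, ha, hc, hc0, hc1, hct⟩ := hl₁
  have hbox1 : χ (i' l₁) ∈ s.box r := by
    obtain ⟨l₂, hl₂, he⟩ := hct 1
    rw [hc1] at he
    rw [← he]
    exact hl₂.1
  have hvz : s.v (χ (i' l₁)) = 0 := by
    by_contra hne
    -- the open set
    set O : Set M := {p | p ∈ s.box r ∧ s.v p ≠ 0} with hO
    have hOo : IsOpen O := by
      have h1 : ContinuousOn s.v (s.box r) := s.continuousOn_v.mono fun p hp => hp.1
      have h2 := h1.isOpen_inter_preimage (s.isOpen_box r) (isOpen_compl_singleton (x := (0 : Fin s.m → ℝ)))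
      exact h2
    set V : Set C(unitInterval, M) := {z | MapsTo z univ (s.box r)} ∩ {z | MapsTo z {1} O} with hV
    have hVo : IsOpen V :=
      (ContinuousMap.isOpen_setOfPred_mapsTo isCompact_univ (s.isOpen_box r)).inter
        (ContinuousMap.isOpen_setOfPred_mapsTo isCompact_singleton hOo)
    have hmemV : (⟨χ, χ.continuous⟩ : C(M, M)).comp c ∈ V := by
      refine ⟨fun t _ => ?_, fun t ht => ?_⟩
      · obtain ⟨l₂, hl₂, he⟩ := hct t
        show χ (c t) ∈ _
        rw [← he]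
        exact hl₂.1
      · rw [mem_singleton_iff] at ht
        subst ht
        show χ (c 1) ∈ O
        rw [hc1]
        exact ⟨hbox1, hne⟩
    have hcomp : Tendsto (fun x : C(M, M) × C(unitInterval, M) => x.1.comp x.2)
        (𝓝 (⟨χ, χ.continuous⟩ : C(M, M)) ×ˢ 𝓝 c) (𝓝 ((⟨χ, χ.continuous⟩ : C(M, M)).comp c)) :=
      tendsto_fst.compCM tendsto_snd
    have hev := hcomp.eventually (hVo.mem_nhds hmemV)
    rw [eventually_prod_iff] at hev
    obtain ⟨pa, hpa, pb, hpb, hab⟩ := hev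
    have hpert := perturb s'.hψ ha hc hR hRs (fun t => by
      obtain ⟨l₂, hl₂, he⟩ := hct t
      rw [← he]
      exact ⟨hl₂.2.1, hl₂.2.2⟩) (U := {z | pb z}) hpb
    have hyk : Tendsto (fun k => (χs k).symm (χ (i' l'))) atTop (𝓝 (c 0)) := by
      have h1 := tendsto_symm' hlim
      have h2 := ((continuous_eval_const (F := C(M, M)) (χ (i' l'))).tendsto
        (⟨χ.symm, χ.symm.continuous⟩ : C(M, M))).comp h1
      have h3 : (⟨χ.symm, χ.symm.continuous⟩ : C(M, M)) (χ (i' l')) = c 0 := by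
        rw [hc0]
        exact χ.symm_apply_apply _
      rw [← h3]
      exact h2
    obtain ⟨k, hk1, hk2⟩ := ((hlim.eventually hpa).and (hyk.eventually hpert)).exists
    obtain ⟨c', hc'U, hc'0, hc'⟩ := hk2
    have hz := hc'.comp (hχs k)
    have hzV : (⟨χs k, (χs k).continuous⟩ : C(M, M)).comp c' ∈ V := hab hk1 hc'U
    have hz0 : (⟨χs k, (χs k).continuous⟩ : C(M, M)).comp c' 0 = i l := by
      show χs k (c' 0) = i l
      rw [hc'0, (χs k).apply_symm_apply, hl]
    have hst := s.stay h hr ha hz (fun t => hzV.1 (mem_univ t)) (by rw [hz0]; exact s.v_eq_zero)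
    exact (hzV.2 (mem_singleton 1)).2 hst
  obtain ⟨l₂, hl₂, he⟩ := s.mem_image hr hbox1 hvz
  exact ⟨l₂, hrW hl₂, he⟩

end Local

section Global

variable {n : ℕ} {M : Type u} [TopologicalSpace M] [ChartedSpace (EuclideanSpace ℝ (Fin n)) M]
  [IsManifold (𝓡 n) ∞ M] [T2Space M] [SigmaCompactSpace M] {P : PoissonBracket n M}

theorem IntegralManifold.isLeaf (L : IntegralManifold.{u, v} P) :
    IsLeaf L.dim P L.incl := ⟨L.immersion, L.injective, L.tangent⟩

theorem leaf_to_leaf (F : SymplecticFoliation.{u, v} P) {χ : M ≃ₜ M} (hχ : IsPoissonHomeo P χ)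
    (j : F.ι) : ∃ i, ∀ l' : (F.leaf j).carrier, χ ((F.leaf j).incl l') ∈ range (F.leaf i).incl := by
  obtain ⟨χs, hχs, hlim⟩ := hχ
  choose idx hidx using fun x => (F.partition x).exists
  have hidxu : ∀ x i, x ∈ range (F.leaf i).incl → idx x = i := fun x i hi =>
    (F.partition x).unique (hidx x) hi
  have hloc : IsLocallyConstant fun l' : (F.leaf j).carrier => idx (χ ((F.leaf j).incl l')) := by
    rw [IsLocallyConstant.iff_eventually_eq]
    intro l'
    obtain ⟨l, hl⟩ := hidx (χ ((F.leaf j).incl l'))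
    have h1 := local_main (F.leaf (idx (χ ((F.leaf j).incl l')))).isLeaf (F.leaf j).isLeaf hχs hlim
      (l := l) (l' := l') hl.symm univ_mem
    filter_upwards [h1] with l₁ hl₁
    rw [image_univ] at hl₁
    exact hidxu _ _ hl₁
  obtain ⟨l₀⟩ : Nonempty (F.leaf j).carrier := inferInstance
  refine ⟨idx (χ ((F.leaf j).incl l₀)), fun l' => ?_⟩
  have h2 : idx (χ ((F.leaf j).incl l')) = idx (χ ((F.leaf j).incl l₀)) :=
    hloc.apply_eq_of_preconnectedSpace l' l₀
  rw [← h2]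
  exact hidx _

theorem IsPoissonHomeo.symm {χ : M ≃ₜ M} (hχ : IsPoissonHomeo P χ) : IsPoissonHomeo P χ.symm := by
  obtain ⟨χs, hχs, hlim⟩ := hχ
  exact ⟨fun k => (χs k).symm, fun k => (hχs k).symm, tendsto_symm' hlim⟩

theorem main (F : SymplecticFoliation.{u, v} P) {φ : M ≃ₜ M} (hφ : IsPoissonHomeo P φ) (i : F.ι) :
    ∃ j, MapsHomeomorphically φ (F.leaf i) (F.leaf j) := by
  obtain ⟨j, hj⟩ := leaf_to_leaf F hφ i
  obtain ⟨i', hi'⟩ := leaf_to_leaf F hφ.symm j
  obtain ⟨l₀⟩ : Nonempty (F.leaf i).carrier := inferInstance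
  have hii : i' = i := by
    obtain ⟨m, hm⟩ := hj l₀
    have h1 := hi' m
    rw [hm] at h1
    have h2 : φ.symm (φ ((F.leaf i).incl l₀)) = (F.leaf i).incl l₀ := φ.symm_apply_apply _
    rw [h2] at h1
    exact (F.partition _).unique h1 ⟨l₀, rfl⟩
  subst hii
  have cont : ∀ (χ : M ≃ₜ M) (_ : IsPoissonHomeo P χ) (p q : F.ι)
      (g : (F.leaf p).carrier → (F.leaf q).carrier)
      (_ : ∀ l, (F.leaf q).incl (g l) = χ ((F.leaf p).incl l)), Continuous g := by
    intro χ hχ p q g hg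
    obtain ⟨χs, hχs, hlim⟩ := hχ
    rw [continuous_iff_continuousAt]
    intro l W hW
    have h1 := local_main (F.leaf q).isLeaf (F.leaf p).isLeaf hχs hlim (l := g l) (l' := l)
      (hg l).symm hW
    rw [mem_map]
    filter_upwards [h1] with l₁ hl₁
    obtain ⟨m, hm, he⟩ := hl₁
    have h2 : m = g l₁ := (F.leaf q).injective (by rw [he, hg])
    rw [mem_preimage, ← h2]
    exact hm
  choose g hg using hj
  choose g' hg' using hi'
  refine ⟨j, ?_, ⟨⟨g, g', fun l => ?_, fun m => ?_⟩, cont φ hφ _ _ g hg, cont φ.symm hφ.symm _ _ g' hg'⟩,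
    hg⟩
  · apply Subset.antisymm
    · rintro _ ⟨_, ⟨l, rfl⟩, rfl⟩
      exact ⟨g l, hg l⟩
    · rintro _ ⟨m, rfl⟩
      refine ⟨(F.leaf i').incl (g' m), ⟨g' m, rfl⟩, ?_⟩
      rw [hg']
      exact φ.apply_symm_apply _
  · apply (F.leaf i').injective
    rw [hg', hg]
    exact φ.symm_apply_apply _
  · apply (F.leaf j).injective
    rw [hg, hg']
    exact φ.apply_symm_apply _

end Global

end Q169.Poisson
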