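import Pool.Agent.Q169.PSLocal

/-!
Hamiltonian paths in a leaf.
-/

set_option autoImplicit false
set_option linter.unusedSectionVars false

open Set Filter Topology MeasureTheory
open scoped Manifold ContDiff

namespace Q169.Poisson

universe u v

variable {n : ℕ} {M : Type u} [TopologicalSpace M] [ChartedSpace (EuclideanSpace ℝ (Fin n)) M]
  [IsManifold (𝓡 n) ∞ M] [T2Space M] [SigmaCompactSpace M]
  {d : ℕ} {L : Type v} [TopologicalSpace L] [ChartedSpace (EuclideanSpace ℝ (Fin d)) L]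
  [IsManifold (𝓡 d) ∞ L] {P : PoissonBracket n M} {i : L → M}

/-- Nearby points of a leaf are joined by Hamiltonian paths in the leaf. -/
theorem IsLeaf.paths (h : IsLeaf d P i) (l : L) {W : Set L} (hW : W ∈ 𝓝 l) :
    ∃ f : Fin d → C^∞⟮𝓡 n, M; ℝ⟯, ∀ᶠ l₁ in 𝓝 l, ∃ (a : ℝ → Fin d → ℝ) (c : C(unitInterval, M)),
      ContinuousOn a (Icc 0 1) ∧ GenHam P a f c ∧ c 0 = i l ∧ c 1 = i l₁ ∧ ∀ t, c t ∈ i '' W := by
  classical
  obtain ⟨s⟩ := exists_slice (h.imm.isImmersionAt l)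
  set u₀ := s.φ l with hu₀
  have hu₀t : u₀ ∈ s.φ.target := s.φ.map_source s.hl
  have hf : ∀ k : Fin d, ∃ f : C^∞⟮𝓡 n, M; ℝ⟯, ∀ g, P.br f g (i l) =
      fderiv ℝ ((fun l' => g (i l')) ∘ s.φ.symm) (s.φ l) (EuclideanSpace.single k 1) :=
    fun k => h.tan₂ s.hφ s.hl _
  choose f hf using hf
  have hut : ∀ m : Fin d, ∃ g : C^∞⟮𝓡 n, M; ℝ⟯, ∀ᶠ x in 𝓝 (i l), g x = (s.ε.symm (s.ψ x)).1 m := by
    intro m
    obtain ⟨g, hg⟩ := exists_extend s.hψ (K := {i l}) isClosed_singleton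
      (singleton_subset_iff.2 (s.maps _ s.hl)) (h := fun q => (s.ε.symm q).1 m) (by
        refine ContDiff.contDiffOn ?_
        have h1 : ContDiff ℝ ∞ fun q : Eu d => q m :=
          (EuclideanSpace.proj m : Eu d →L[ℝ] ℝ).contDiff
        exact (h1.comp contDiff_fst).comp s.ε.symm.contDiff)
    rw [nhdsSet_singleton] at hg
    exact ⟨g, hg⟩
  choose ut hut using hut
  set Wv : Fin d → Eu d → Eu d := fun k u =>
    WithLp.toLp 2 (fun m => P.br (f k) (ut m) (i (s.φ.symm u))) with hWv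
  have hci : ∀ u ∈ s.φ.target, ContinuousAt (fun u' => i (s.φ.symm u')) u := fun u hu =>
    (h.contMDiff.continuous.continuousAt).comp (s.φ.symm.continuousAt hu)
  -- coordinates near `u₀`
  have hcoord : ∀ᶠ u in 𝓝 u₀, ∀ m, ut m (i (s.φ.symm u)) = u m := by
    rw [eventually_all]
    intro m
    have h1 : ∀ᶠ u in 𝓝 u₀, ut m (i (s.φ.symm u)) = (s.ε.symm (s.ψ (i (s.φ.symm u)))).1 m := by
      have h0 := hci u₀ hu₀t
      refine Tendsto.eventually (p := fun x => ut m x = (s.ε.symm (s.ψ x)).1 m) h0 ?_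
      simp only [hu₀, s.φ.left_inv s.hl]
      exact hut m
    filter_upwards [h1, s.φ.open_target.mem_nhds hu₀t] with u h2 h3
    rw [h2, s.eq u h3, s.ε.symm_apply_apply]
  have hfd : ∀ u, (∀ᶠ u' in 𝓝 u, ∀ m, ut m (i (s.φ.symm u')) = u' m) → ∀ m (W : Eu d),
      fderiv ℝ ((fun l' => ut m (i l')) ∘ s.φ.symm) u W = W m := by
    intro u hu m W
    have h1 : (fun l' => ut m (i l')) ∘ s.φ.symm =ᶠ[𝓝 u] fun u' => u' m := hu.mono fun u' h => h m
    rw [h1.fderiv_eq]
    have h2 : (fun u' : Eu d => u' m) = (EuclideanSpace.proj m : Eu d →L[ℝ] ℝ) := rfl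
    rw [h2, ContinuousLinearMap.fderiv]
    rfl
  have hE1 : ∀ᶠ u in 𝓝 u₀, ∀ (k : Fin d) (g : C^∞⟮𝓡 n, M; ℝ⟯), P.br (f k) g (i (s.φ.symm u)) =
      fderiv ℝ ((fun l' => g (i l')) ∘ s.φ.symm) u (Wv k u) := by
    filter_upwards [hcoord.eventually_nhds, s.φ.open_target.mem_nhds hu₀t] with u h1 h2 k g
    obtain ⟨W, hW⟩ := h.tan₁ s.hφ (s.φ.map_target h2) (f k)
    rw [s.φ.right_inv h2] at hW
    have h3 : W = Wv k u := by
      ext m
      have h4 := hW (ut m)
      rw [hfd u h1 m W] at h4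
      rw [← h4]
    rw [← h3]
    exact hW g
  have hE2 : ∀ k, Wv k u₀ = EuclideanSpace.single k 1 := by
    intro k
    ext m
    have h1 := hf k (ut m)
    rw [← hu₀, hfd u₀ hcoord.eventually_nhds.self_of_nhds m] at h1
    rw [← h1]
    simp only [hWv, hu₀, s.φ.left_inv s.hl]
  have hE3 : ∀ k, ∀ u ∈ s.φ.target, ContinuousAt (Wv k) u := by
    intro k u hu
    have h1 : ContinuousAt (fun u => fun m => P.br (f k) (ut m) (i (s.φ.symm u))) u :=
      continuousAt_pi.2 fun m =>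
        ((P.br (f k) (ut m)).contMDiff.continuous.continuousAt).comp (hci u hu)
    exact (PiLp.continuous_toLp 2 _).continuousAt.comp h1
  set T : Eu d → (Eu d →L[ℝ] Eu d) := fun u =>
    ∑ k, (EuclideanSpace.proj k : Eu d →L[ℝ] ℝ).smulRight (Wv k u) with hT
  have hTapp : ∀ u w, T u w = ∑ k, w k • Wv k u := by
    intro u w
    simp only [hT, sum_apply]
    rfl
  have hT0 : T u₀ = 1 := by
    ext w m
    rw [hTapp]
    simp only [hE2]
    simp [Finset.sum_apply, Pi.single_apply]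
  have hTc : ∀ u ∈ s.φ.target, ContinuousAt T u := by
    intro u hu
    refine tendsto_finsetSum _ fun k _ => ?_
    have h1 : Continuous fun w : Eu d =>
        (EuclideanSpace.proj k : Eu d →L[ℝ] ℝ).smulRight w :=
      (ContinuousLinearMap.smulRightL ℝ (Eu d) (Eu d)
        (EuclideanSpace.proj k : Eu d →L[ℝ] ℝ)).continuous
    exact (h1.continuousAt).comp (hE3 k u hu)
  have hTu : ∀ᶠ u in 𝓝 u₀, IsUnit (T u) := by
    refine (hTc u₀ hu₀t).eventually ?_
    rw [hT0]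
    exact (Units.isOpen (R := Eu d →L[ℝ] Eu d)).mem_nhds isUnit_one
  have hW' : ∀ᶠ u in 𝓝 u₀, s.φ.symm u ∈ W := by
    have h3 : ContinuousAt s.φ.symm u₀ := s.φ.symm.continuousAt hu₀t
    apply h3
    rw [hu₀, s.φ.left_inv s.hl]
    exact hW
  obtain ⟨ρ, hρ, hball⟩ := Metric.eventually_nhds_iff_ball.1
    ((s.φ.open_target.eventually_mem hu₀t).and (hE1.and (hTu.and hW')))
  refine ⟨f, ?_⟩
  have hφc : ContinuousAt s.φ l := s.φ.continuousAt s.hl
  filter_upwards [hφc.eventually (Metric.ball_mem_nhds u₀ hρ), s.φ.open_source.mem_nhds s.hl]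
    with l₁ hl₁ hl₁s
  set u₁ := s.φ l₁ with hu₁
  set ut' : ℝ → Eu d := fun t => u₀ + t • (u₁ - u₀) with hut'
  have hutb : ∀ t ∈ Icc (0 : ℝ) 1, ut' t ∈ Metric.ball u₀ ρ := by
    intro t ht
    rw [dist_eq_norm] at hl₁
    rw [mem_ball_iff_norm]
    simp only [hut', add_sub_cancel_left, norm_smul, Real.norm_eq_abs, abs_of_nonneg ht.1]
    have := norm_nonneg (u₁ - u₀)
    nlinarith [ht.2]
  have hutc : Continuous ut' := by fun_prop
  set c : C(unitInterval, M) := ⟨fun t => i (s.φ.symm (ut' t)), by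
    refine continuous_iff_continuousAt.2 fun t => ?_
    have h1 := hci (ut' t) (hball _ (hutb t t.2)).1
    exact ContinuousAt.comp (f := fun t : unitInterval => ut' t) h1
      (hutc.comp continuous_subtype_val).continuousAt⟩ with hc
  refine ⟨fun t k => (Ring.inverse (T (ut' t)) (u₁ - u₀)) k, c, ?_, ?_, ?_, ?_, ?_⟩
  · intro t ht
    refine ContinuousAt.continuousWithinAt ?_
    obtain ⟨h1, -, ⟨U, hU⟩, -⟩ := hball _ (hutb t ht)
    have h2 : ContinuousAt Ring.inverse (T (ut' t)) := by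
      rw [← hU]
      exact NormedRing.inverse_continuousAt U
    have h3 : ContinuousAt (fun t => Ring.inverse (T (ut' t))) t :=
      ContinuousAt.comp (g := Ring.inverse) (f := fun t => T (ut' t)) h2
        (ContinuousAt.comp (g := T) (f := ut') (hTc _ h1) hutc.continuousAt)
    have h4 : ContinuousAt (fun t => (Ring.inverse (T (ut' t)) (u₁ - u₀))) t :=
      h3.clm_apply continuousAt_const
    exact (PiLp.continuous_ofLp 2 _).continuousAt.comp h4
  · intro g t ht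
    obtain ⟨h1, h2, ⟨U, hU⟩, -⟩ := hball _ (hutb t ht)
    have hq : DifferentiableAt ℝ ((fun l' => g (i l')) ∘ s.φ.symm) (ut' t) := by
      have h3 : ContDiffOn ℝ ∞ ((fun l' => g (i l')) ∘ s.φ.symm) s.φ.target := by
        rw [← contMDiffOn_iff_contDiffOn]
        exact (h.smooth_comp g).comp_contMDiffOn (contMDiffOn_symm_of_mem_maximalAtlas s.hφ)
      exact (h3.contDiffAt (s.φ.open_target.mem_nhds h1)).differentiableAt (by simp)
    have h4 : HasDerivAt ut' (u₁ - u₀) t := by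
      exact (((hasDerivAt_id t).smul_const (u₁ - u₀)).const_add u₀).congr_deriv (one_smul _ _)
    have h5 := hq.hasFDerivAt.comp_hasDerivAt t h4
    have h6 : u₁ - u₀ = T (ut' t) (Ring.inverse (T (ut' t)) (u₁ - u₀)) := by
      have h7 : T (ut' t) * Ring.inverse (T (ut' t)) = 1 := Ring.mul_inverse_cancel _ ⟨U, hU⟩
      have h8 := congrArg (fun A : Eu d →L[ℝ] Eu d => A (u₁ - u₀)) h7
      exact h8.symm
    have hext : ∀ t' ∈ Icc (0 : ℝ) 1, ext01 c t' = i (s.φ.symm (ut' t')) := by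
      intro t' ht'
      simp only [ext01, hc, ContinuousMap.coe_mk]
      rw [projIcc_of_mem _ ht']
    have h9 : fderiv ℝ ((fun l' => g (i l')) ∘ s.φ.symm) (ut' t) (u₁ - u₀) =
        ∑ k, (Ring.inverse (T (ut' t)) (u₁ - u₀)) k * P.br (f k) g (ext01 c t) := by
      conv_lhs => rw [h6]
      rw [hTapp, map_sum, hext t ht]
      refine Finset.sum_congr rfl fun k _ => ?_
      rw [map_smul, smul_eq_mul, h2 k g]
    rw [h9] at h5
    refine h5.hasDerivWithinAt.congr_of_mem (fun t' ht' => ?_) ht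
    rw [hext t' ht']
    rfl
  · simp only [hc, ContinuousMap.coe_mk, hut']
    simp [hu₀, s.φ.left_inv s.hl]
  · simp only [hc, ContinuousMap.coe_mk, hut']
    simp [hu₁, s.φ.left_inv hl₁s]
  · intro t
    exact ⟨_, (hball _ (hutb t t.2)).2.2.2, rfl⟩

end Q169.Poisson
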