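import Pool.Agent.Q169.PSPath

/-!
Hamiltonian paths with nearby initial points.
-/

set_option autoImplicit false
set_option linter.unusedSectionVars false

open Set Filter Topology MeasureTheory
open scoped Manifold ContDiff

namespace Q169.Poisson

universe u v

theorem hasDerivWithinAt_eu {n : ℕ} {β : ℝ → Eu n} {β' : Eu n} {s : Set ℝ} {t : ℝ}
    (h : ∀ j, HasDerivWithinAt (fun t => β t j) (β' j) s t) : HasDerivWithinAt β β' s t := by
  have h1 : HasDerivWithinAt (fun t => fun j => β t j) (fun j => β' j) s t :=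
    hasDerivWithinAt_pi.2 h
  exact ((EuclideanSpace.equiv (Fin n) ℝ).symm : (Fin n → ℝ) →L[ℝ] Eu n).hasFDerivAt.comp_hasDerivWithinAt
    t h1

/-- Solutions of linear-in-control equations on `[0,1]`. -/
theorem exists_solution {n N : ℕ} {a : ℝ → Fin N → ℝ} (ha : ContinuousOn a (Icc 0 1))
    {F : Fin N → Eu n → Eu n} (hF : ∀ k, ContDiff ℝ 1 (F k)) (hFc : ∀ k, HasCompactSupport (F k)) :
    ∃ K : NNReal, (∀ t ∈ Icc (0 : ℝ) 1, LipschitzWith K fun w => ∑ k, a t k • F k w) ∧
      ∀ w : Eu n, ∃ α : ℝ → Eu n, α 0 = w ∧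
        ∀ t ∈ Icc (0 : ℝ) 1, HasDerivWithinAt α (∑ k, a t k • F k (α t)) (Icc 0 1) t := by
  obtain ⟨A, hA⟩ := isCompact_Icc.exists_bound_of_continuousOn ha
  have hA0 : 0 ≤ A := (norm_nonneg _).trans (hA 0 ⟨le_rfl, zero_le_one⟩)
  have hlip : ∀ k, ∃ C : NNReal, LipschitzWith C (F k) := fun k =>
    (hF k).lipschitzWith_of_hasCompactSupport (hFc k) (by simp)
  choose C hC using hlip
  have hbd : ∀ k, ∃ B : ℝ, ∀ w, ‖F k w‖ ≤ B := fun k => by
    obtain ⟨B, hB⟩ := (hFc k).exists_bound_of_continuous (hF k).continuous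
    exact ⟨B, hB⟩
  choose B hB using hbd
  have hB0 : ∀ k, 0 ≤ B k := fun k => (norm_nonneg _).trans (hB k 0)
  have hat : ∀ t ∈ Icc (0 : ℝ) 1, ∀ k, |a t k| ≤ A := fun t ht k =>
    (norm_le_pi_norm (a t) k).trans (hA t ht)
  have hK : ∀ t ∈ Icc (0 : ℝ) 1,
      LipschitzWith (∑ k, A.toNNReal * C k) fun w => ∑ k, a t k • F k w := by
    intro t ht
    refine LipschitzWith.of_dist_le_mul fun x y => ?_
    rw [dist_eq_norm, dist_eq_norm, ← Finset.sum_sub_distrib]
    push_cast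
    rw [Finset.sum_mul]
    refine (norm_sum_le _ _).trans (Finset.sum_le_sum fun k _ => ?_)
    rw [← smul_sub, norm_smul, Real.norm_eq_abs, mul_assoc, Real.coe_toNNReal A hA0]
    have h1 := (hC k).dist_le_mul x y
    rw [dist_eq_norm, dist_eq_norm] at h1
    exact mul_le_mul (hat t ht k) h1 (norm_nonneg _) hA0
  refine ⟨_, hK, fun w => ?_⟩
  set Lb : NNReal := ∑ k, A.toNNReal * (B k).toNNReal with hLb
  have hPL : IsPicardLindelof (fun t w => ∑ k, a t k • F k w) (tmin := 0) (tmax := 1)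
      ⟨0, left_mem_Icc.2 zero_le_one⟩ w Lb 0 Lb (∑ k, A.toNNReal * C k) := by
    refine ⟨fun t ht => (hK t ht).lipschitzOnWith, fun x _ => ?_, fun t ht x _ => ?_, ?_⟩
    · refine continuousOn_finsetSum _ fun k _ => ?_
      exact ((continuous_apply k).comp_continuousOn ha).smul continuousOn_const
    · rw [hLb]
      push_cast
      refine (norm_sum_le _ _).trans (Finset.sum_le_sum fun k _ => ?_)
      rw [norm_smul, Real.norm_eq_abs, Real.coe_toNNReal A hA0, Real.coe_toNNReal (B k) (hB0 k)]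
      exact mul_le_mul (hat t ht k) (hB k x) (norm_nonneg _) hA0
    · simp
  obtain ⟨α, h0, h1⟩ := hPL.exists_eq_forall_mem_Icc_hasDerivWithinAt₀
  exact ⟨α, h0, h1⟩

variable {n : ℕ} {M : Type u} [TopologicalSpace M] [ChartedSpace (EuclideanSpace ℝ (Fin n)) M]
  [IsManifold (𝓡 n) ∞ M] [T2Space M] [SigmaCompactSpace M] {P : PoissonBracket n M}

theorem perturb {ψ : OpenPartialHomeomorph M (Eu n)}
    (hψ : ψ ∈ IsManifold.maximalAtlas (𝓡 n) ∞ M) {N : ℕ} {a : ℝ → Fin N → ℝ}
    (ha : ContinuousOn a (Icc 0 1)) {f : Fin N → C^∞⟮𝓡 n, M; ℝ⟯} {c : C(unitInterval, M)}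
    (hc : GenHam P a f c) {w₀ : Eu n} {R : ℝ} (hR : 0 < R)
    (hball : Metric.closedBall w₀ R ⊆ ψ.target)
    (hcb : ∀ t, c t ∈ ψ.source ∧ ψ (c t) ∈ Metric.ball w₀ (R / 2)) {U : Set (C(unitInterval, M))}
    (hU : U ∈ 𝓝 c) :
    ∀ᶠ y in 𝓝 (c 0), ∃ c' ∈ U, c' 0 = y ∧ GenHam P a f c' := by
  classical
  set CB : Set M := ψ.symm '' Metric.closedBall w₀ R with hCB
  have hCBc : IsCompact CB :=
    (isCompact_closedBall _ _).image_of_continuousOn (ψ.continuousOn_symm.mono hball)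
  have hCBs : CB ⊆ ψ.source := by
    rintro _ ⟨q, hq, rfl⟩
    exact ψ.map_target (hball hq)
  have hext : ∀ j : Fin n, ∃ g : C^∞⟮𝓡 n, M; ℝ⟯, ∀ᶠ x in 𝓝ˢ CB, g x = ψ x j := by
    intro j
    refine exists_extend hψ hCBc.isClosed hCBs (h := fun q => q j) ?_
    exact (EuclideanSpace.proj j : Eu n →L[ℝ] ℝ).contDiff.contDiffOn
  choose xt hxt using hext
  have hxt' : ∀ p ∈ CB, ∀ j, ∀ᶠ y in 𝓝 p, xt j y = (ψ y) j := fun p hp j =>
    mem_nhdsSet_iff_forall.1 (hxt j) p hp
  set X : Fin N → Eu n → Eu n := fun k w =>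
    ∑ j, (P.br (f k) (xt j) (ψ.symm w)) • EuclideanSpace.single j (1 : ℝ) with hX
  have hXs : ∀ k, ContDiffOn ℝ ∞ (X k) ψ.target := by
    intro k
    refine ContDiffOn.sum fun j _ => ?_
    have h1 : ContDiffOn ℝ ∞ ((P.br (f k) (xt j)) ∘ ψ.symm) ψ.target := by
      rw [← contMDiffOn_iff_contDiffOn]
      exact (P.br (f k) (xt j)).contMDiff.comp_contMDiffOn (contMDiffOn_symm_of_mem_maximalAtlas hψ)
    exact h1.smul contDiffOn_const
  let b : ContDiffBump w₀ := ⟨R / 2, R, by positivity, by linarith⟩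
  set F : Fin N → Eu n → Eu n := fun k w => b w • X k w with hF
  have hFs : ∀ k, ContDiff ℝ ∞ (F k) := by
    intro k
    rw [contDiff_iff_contDiffAt]
    intro z
    by_cases hz : z ∈ ψ.target
    · exact (b.contDiff.contDiffAt).smul ((hXs k).contDiffAt (ψ.open_target.mem_nhds hz))
    · have h2 : F k =ᶠ[𝓝 z] fun _ => 0 := by
        have h3 : ∀ᶠ y in 𝓝 z, y ∉ tsupport b := by
          refine (isClosed_tsupport _).isOpen_compl.mem_nhds ?_
          intro h4
          rw [b.tsupport_eq] at h4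
          exact hz (hball h4)
        refine h3.mono fun y hy => ?_
        have : b y = 0 := image_eq_zero_of_notMem_tsupport hy
        simp only [hF, this, zero_smul]
      exact contDiffAt_const.congr_of_eventuallyEq h2
  have hFc : ∀ k, HasCompactSupport (F k) := fun k => b.hasCompactSupport.smul_right
  obtain ⟨K, hK, hsol⟩ := exists_solution ha (fun k => (hFs k).of_le (by simp)) hFc
  choose α hα0 hα using hsol
  have hFX : ∀ k, ∀ w ∈ Metric.ball w₀ (R / 2), F k w = X k w := by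
    intro k w hw
    have : b w = 1 := b.one_of_mem_closedBall (Metric.ball_subset_closedBall hw)
    simp only [hF, this, one_smul]
  have hb2 : Metric.ball w₀ (R / 2) ⊆ Metric.closedBall w₀ R :=
    (Metric.ball_subset_ball (by linarith)).trans Metric.ball_subset_closedBall
  -- the base curve
  set β : ℝ → Eu n := fun t => ψ (ext01 c t) with hβ
  have hβb : ∀ t, β t ∈ Metric.ball w₀ (R / 2) := fun t => (hcb _).2
  have hsrc : ∀ t : ℝ, ψ.symm (ψ (ext01 c t)) = ext01 c t := fun t => ψ.left_inv (hcb _).1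
  have hcCB : ∀ t, ext01 c t ∈ CB := fun t => ⟨β t, hb2 (hβb t), hsrc t⟩
  have hβd : ∀ t ∈ Icc (0 : ℝ) 1, HasDerivWithinAt β (∑ k, a t k • F k (β t)) (Icc 0 1) t := by
    intro t ht
    refine hasDerivWithinAt_eu fun j => ?_
    have h1 := hc (xt j) t ht
    have h2 : ∀ t', xt j (ext01 c t') = β t' j := fun t' =>
      (hxt' _ (hcCB t') j).self_of_nhds
    simp only [h2] at h1
    refine h1.congr_deriv ?_
    have h3 : (∑ k, a t k • F k (β t)) j = ∑ k, a t k * (X k (β t)) j := by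
      have h4 : ∀ k, F k (β t) = X k (β t) := fun k => hFX k _ (hβb t)
      simp only [h4]
      simp [Finset.sum_apply]
    rw [h3]
    refine Finset.sum_congr rfl fun k _ => ?_
    congr 1
    simp only [hX, hβ]
    rw [hsrc]
    simp [Finset.sum_apply, Pi.single_apply]
  have hβc : ContinuousOn β (Icc 0 1) := fun t ht => (hβd t ht).continuousWithinAt
  have hαc : ∀ w, ContinuousOn (α w) (Icc 0 1) := fun w t ht => (hα w t ht).continuousWithinAt
  have hgron : ∀ w, ∀ t ∈ Icc (0 : ℝ) 1,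
      dist (α w t) (β t) ≤ dist w (β 0) * Real.exp K := by
    intro w t ht
    have h1 := dist_le_of_trajectories_ODE_of_mem (K := K) (v := fun t w => ∑ k, a t k • F k w)
      (s := fun _ => univ) (a := 0) (b := 1) (f := α w) (g := β) (δ := dist w (β 0))
      (fun t ht => (hK t ⟨ht.1, ht.2.le⟩).lipschitzOnWith) (hαc w)
      (fun t ht => (hα w t ⟨ht.1, ht.2.le⟩).mono_of_mem_nhdsWithin (Icc_mem_nhdsGE_of_mem ht))
      (fun _ _ => mem_univ _) hβc
      (fun t ht => (hβd t ⟨ht.1, ht.2.le⟩).mono_of_mem_nhdsWithin (Icc_mem_nhdsGE_of_mem ht))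
      (fun _ _ => mem_univ _) (by rw [hα0]) t ht
    refine h1.trans (mul_le_mul_of_nonneg_left (Real.exp_le_exp.2 ?_) dist_nonneg)
    rw [sub_zero]
    have : (0 : ℝ) ≤ K := K.2
    nlinarith [ht.2]
  -- uniform closeness
  have hclose : ∀ (C : Set ℝ), IsCompact C → C ⊆ Icc 0 1 → ∀ (O : Set (Eu n)), IsOpen O →
      (∀ t ∈ C, β t ∈ O) → ∀ᶠ w in 𝓝 (β 0), ∀ t ∈ C, α w t ∈ O := by
    intro C hC hCI O hO hβO
    have hcomp : IsCompact (β '' C) := hC.image_of_continuousOn (hβc.mono hCI)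
    obtain ⟨δ, hδ, hδO⟩ := hcomp.exists_thickening_subset_open hO (by
      rintro _ ⟨t, ht, rfl⟩; exact hβO t ht)
    have hev : ∀ᶠ w in 𝓝 (β 0), dist w (β 0) * Real.exp K < δ := by
      have hcont : ContinuousAt (fun w => dist w (β 0) * Real.exp K) (β 0) := by fun_prop
      have := hcont.eventually (gt_mem_nhds (show dist (β 0) (β 0) * Real.exp K < δ by simpa))
      exact this
    filter_upwards [hev] with w hw t ht
    refine hδO ?_
    rw [Metric.mem_thickening_iff]
    exact ⟨β t, ⟨t, ht, rfl⟩, (hgron w t (hCI ht)).trans_lt hw⟩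
  -- the curves
  have hc0 : β 0 = ψ (c 0) := by
    simp only [hβ, ext01]
    congr 2
    exact projIcc_left _
  have hc0s : c 0 ∈ ψ.source := (hcb 0).1
  have hψc : Tendsto ψ (𝓝 (c 0)) (𝓝 (β 0)) := by
    rw [hc0]
    exact ψ.continuousAt hc0s
  set good : M → Prop := fun y => y ∈ ψ.source ∧ ∀ t ∈ Icc (0 : ℝ) 1,
    α (ψ y) t ∈ Metric.ball w₀ (R / 2) with hgood
  have hgoodev : ∀ᶠ y in 𝓝 (c 0), good y := by
    filter_upwards [ψ.open_source.mem_nhds hc0s, hψc.eventually (hclose (Icc 0 1) isCompact_Icc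
      Subset.rfl _ Metric.isOpen_ball fun t _ => hβb t)] with y h1 h2
    exact ⟨h1, h2⟩
  have hcontc : ∀ y, good y → Continuous fun t : unitInterval => ψ.symm (α (ψ y) t) := by
    intro y hy
    have h1 : Continuous fun t : unitInterval => α (ψ y) t :=
      (continuousOn_iff_continuous_domRestrict.1 (hαc (ψ y)))
    refine continuous_iff_continuousAt.2 fun t => ?_
    exact ContinuousAt.comp (g := ψ.symm) (f := fun t : unitInterval => α (ψ y) t)
      (ψ.symm.continuousAt (hball (hb2 (hy.2 t t.2)))) h1.continuousAt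
  set Cf : M → C(unitInterval, M) := fun y =>
    if h : good y then ⟨fun t => ψ.symm (α (ψ y) t), hcontc y h⟩ else c with hCf
  have hCfg : ∀ y, good y → ∀ t, Cf y t = ψ.symm (α (ψ y) t) := by
    intro y hy t
    simp only [hCf, dif_pos hy]
    rfl
  have htend : Tendsto Cf (𝓝 (c 0)) (𝓝 c) := by
    rw [ContinuousMap.tendsto_nhds_compactOpen]
    intro C hC O hO hCO
    have h1 := hclose ((↑) '' C : Set ℝ) (hC.image continuous_subtype_val) (by
      rintro _ ⟨t, -, rfl⟩; exact t.2) (ψ.target ∩ ψ.symm ⁻¹' O)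
      (ψ.symm.isOpen_inter_preimage hO) (by
        rintro _ ⟨t, ht, rfl⟩
        have h2 : ext01 c (t : ℝ) = c t := by
          simp only [ext01]
          rw [projIcc_val]
        refine ⟨hball (hb2 (hβb _)), ?_⟩
        show ψ.symm (ψ (ext01 c t)) ∈ O
        rw [hsrc, h2]
        exact hCO ht)
    filter_upwards [hgoodev, hψc.eventually h1] with y hy h2 t ht
    rw [hCfg y hy]
    exact (h2 t ⟨t, ht, rfl⟩).2
  filter_upwards [hgoodev, htend.eventually hU] with y hy h1
  refine ⟨Cf y, h1, ?_, ?_⟩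
  · rw [hCfg y hy]
    have : ((0 : unitInterval) : ℝ) = 0 := rfl
    rw [this, hα0, ψ.left_inv hy.1]
  · intro g t ht
    have hext' : ∀ t' ∈ Icc (0 : ℝ) 1, ext01 (Cf y) t' = ψ.symm (α (ψ y) t') := by
      intro t' ht'
      simp only [ext01]
      rw [projIcc_of_mem _ ht', hCfg y hy]
    have hmem := hy.2 t ht
    have htar := hball (hb2 hmem)
    have hq : DifferentiableAt ℝ (g ∘ ψ.symm) (α (ψ y) t) := by
      have h3 : ContDiffOn ℝ ∞ (g ∘ ψ.symm) ψ.target := by
        rw [← contMDiffOn_iff_contDiffOn]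
        exact g.contMDiff.comp_contMDiffOn (contMDiffOn_symm_of_mem_maximalAtlas hψ)
      exact (h3.contDiffAt (ψ.open_target.mem_nhds htar)).differentiableAt (by simp)
    have h5 := hq.hasFDerivAt.comp_hasDerivWithinAt t (hα (ψ y) t ht)
    have h6 : fderiv ℝ (g ∘ ψ.symm) (α (ψ y) t) (∑ k, a t k • F k (α (ψ y) t)) =
        ∑ k, a t k * P.br (f k) g (ext01 (Cf y) t) := by
      rw [map_sum, hext' t ht]
      refine Finset.sum_congr rfl fun k _ => ?_
      rw [map_smul, smul_eq_mul, hFX k _ hmem]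
      have h7 := P.br_chart hψ (x := ψ.symm (α (ψ y) t)) (ψ.map_target htar) (xt := xt)
        (fun j => hxt' _ ⟨_, hb2 hmem, rfl⟩ j) (f k) g
      rw [ψ.right_inv htar] at h7
      rw [h7]
    rw [h6] at h5
    refine h5.congr_of_mem (fun t' ht' => ?_) ht
    rw [hext' t' ht']
    rfl

end Q169.Poisson
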