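import Pool.Agent.Q169.PSChart

/-!
Slice charts of leaves and the tangency condition in charts.
-/

set_option autoImplicit false
set_option linter.unusedSectionVars false

open Set Filter Topology MeasureTheory
open scoped Manifold ContDiff

namespace Q169.Poisson

universe u v

variable {n : ℕ} {M : Type u} [TopologicalSpace M] [ChartedSpace (EuclideanSpace ℝ (Fin n)) M]
  {d : ℕ} {L : Type v} [TopologicalSpace L] [ChartedSpace (EuclideanSpace ℝ (Fin d)) L]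

variable (d) in
/-- An integral leaf of a Poisson bracket. -/
structure IsLeaf (P : PoissonBracket n M) (i : L → M) : Prop where
  imm : Manifold.IsImmersion (𝓡 d) (𝓡 n) ∞ i
  inj : Function.Injective i
  tan : ∀ l : L, hamVectors P (i l) = imageVectors (d := d) i l

variable (n d) in
/-- Slice charts. -/
structure Slice (i : L → M) (l : L) where
  φ : OpenPartialHomeomorph L (Eu d)
  ψ : OpenPartialHomeomorph M (Eu n)
  m : ℕ
  ε : (Eu d × (Fin m → ℝ)) ≃L[ℝ] Eu n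
  hφ : φ ∈ IsManifold.maximalAtlas (𝓡 d) ∞ L
  hψ : ψ ∈ IsManifold.maximalAtlas (𝓡 n) ∞ M
  hl : l ∈ φ.source
  maps : ∀ l' ∈ φ.source, i l' ∈ ψ.source
  eq : ∀ u ∈ φ.target, ψ (i (φ.symm u)) = ε (u, 0)

theorem exists_slice {i : L → M} {l : L} (h : Manifold.IsImmersionAt (𝓡 d) (𝓡 n) ∞ i l) :
    Nonempty (Slice n d i l) := by
  have hfin : FiniteDimensional ℝ h.complement := by
    have : FiniteDimensional ℝ (Eu d × h.complement) := h.equiv.symm.toLinearEquiv.finiteDimensional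
    exact FiniteDimensional.of_surjective (LinearMap.snd ℝ (Eu d) h.complement)
      LinearMap.snd_surjective
  have e1 : h.complement ≃L[ℝ] (Fin (Module.finrank ℝ h.complement) → ℝ) :=
    ContinuousLinearEquiv.ofFinrankEq (by simp)
  refine ⟨⟨h.domChart, h.codChart, Module.finrank ℝ h.complement,
    ((ContinuousLinearEquiv.refl ℝ (Eu d)).prodCongr e1.symm).trans h.equiv,
    h.domChart_mem_maximalAtlas, h.codChart_mem_maximalAtlas, h.mem_domChart_source,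
    fun l' hl' => h.source_subset_preimage_source hl', fun u hu => ?_⟩⟩
  have hu' : u ∈ (h.domChart.extend (𝓡 d)).target := by simpa using hu
  have h1 := h.writtenInCharts hu'
  simpa using h1

variable [IsManifold (𝓡 d) ∞ L]

theorem mfderiv_chart {φ : OpenPartialHomeomorph L (Eu d)}
    (hφ : φ ∈ IsManifold.maximalAtlas (𝓡 d) ∞ L) {l : L} (hl : l ∈ φ.source) {q : L → ℝ}
    (hq : ContMDiff (𝓡 d) 𝓘(ℝ, ℝ) ∞ q) (w : TangentSpace (𝓡 d) l) :
    (mfderiv (𝓡 d) 𝓘(ℝ, ℝ) q l w : ℝ) =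
      fderiv ℝ (q ∘ φ.symm) (φ l) (mfderiv (𝓡 d) (𝓡 d) φ l w : Eu d) := by
  have h1 : MDifferentiableAt (𝓡 d) (𝓡 d) φ l :=
    ((contMDiffOn_of_mem_maximalAtlas hφ).contMDiffAt
      (φ.open_source.mem_nhds hl)).mdifferentiableAt (by simp)
  have h2 : MDifferentiableAt (𝓡 d) 𝓘(ℝ, ℝ) (q ∘ φ.symm) (φ l) := by
    have h3 : ContMDiffAt (𝓡 d) (𝓡 d) ∞ φ.symm (φ l) :=
      (contMDiffOn_symm_of_mem_maximalAtlas hφ).contMDiffAt
        (φ.open_target.mem_nhds (φ.map_source hl))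
    exact (ContMDiffAt.comp (φ l) (hq.contMDiffAt) h3).mdifferentiableAt (by simp)
  have h4 : (q ∘ φ.symm) ∘ φ =ᶠ[𝓝 l] q := by
    filter_upwards [φ.open_source.mem_nhds hl] with y hy
    simp [φ.left_inv hy]
  have h5 := mfderiv_comp l h2 h1
  rw [h4.mfderiv_eq] at h5
  have h6 : mfderiv (𝓡 d) 𝓘(ℝ, ℝ) (q ∘ φ.symm) (φ l) = fderiv ℝ (q ∘ φ.symm) (φ l) :=
    mfderiv_eq_fderiv
  rw [h5]
  show (mfderiv (𝓡 d) 𝓘(ℝ, ℝ) (q ∘ φ.symm) (φ l)) (mfderiv (𝓡 d) (𝓡 d) φ l w) = _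
  rw [h6]
  rfl

theorem mfderiv_chart_surjective {φ : OpenPartialHomeomorph L (Eu d)}
    (hφ : φ ∈ IsManifold.maximalAtlas (𝓡 d) ∞ L) {l : L} (hl : l ∈ φ.source) (W : Eu d) :
    ∃ w : TangentSpace (𝓡 d) l, (mfderiv (𝓡 d) (𝓡 d) φ l w : Eu d) = W := by
  have h1 : MDifferentiableAt (𝓡 d) (𝓡 d) φ l :=
    ((contMDiffOn_of_mem_maximalAtlas hφ).contMDiffAt
      (φ.open_source.mem_nhds hl)).mdifferentiableAt (by simp)
  have h3 : MDifferentiableAt (𝓡 d) (𝓡 d) φ.symm (φ l) :=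
    ((contMDiffOn_symm_of_mem_maximalAtlas hφ).contMDiffAt
      (φ.open_target.mem_nhds (φ.map_source hl))).mdifferentiableAt (by simp)
  have h1' : MDifferentiableAt (𝓡 d) (𝓡 d) φ (φ.symm (φ l)) := by
    rw [φ.left_inv hl]; exact h1
  have h4 : φ ∘ φ.symm =ᶠ[𝓝 (φ l)] id := by
    filter_upwards [φ.open_target.mem_nhds (φ.map_source hl)] with y hy
    simp [φ.right_inv hy]
  have h5 := mfderiv_comp (φ l) h1' h3
  rw [h4.mfderiv_eq, mfderiv_id] at h5
  have h6 := congrArg (fun T => T W) h5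
  rw [φ.left_inv hl] at h6
  exact ⟨mfderiv (𝓡 d) (𝓡 d) φ.symm (φ l) W, h6.symm⟩

end Q169.Poisson
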