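import Pool.Agent.Q169.PackDefs

/-!
A product torus cannot be displaced by an exact map which is `C¹`-close to the identity on it.
-/

set_option autoImplicit false

open Set Real
open scoped ContDiff Topology

namespace Q169.Pack

variable {n : ℕ}

/-- The parametrisation of the product torus with radii `r`. -/
noncomputable def ell (r : Fin n → ℝ) (θ : Fin n → ℝ) : Phase n :=
  (fun j => r j * cos (θ j), fun j => r j * sin (θ j))

/-- The derivative of `ell` in the direction `v`. -/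
noncomputable def dell (r : Fin n → ℝ) (θ v : Fin n → ℝ) : Phase n :=
  (fun j => - (r j * sin (θ j) * v j), fun j => r j * cos (θ j) * v j)

/-- pointwise estimate -/
theorem est {r ε V x y x' y' c s v N : ℝ} (hε : 0 < ε) (hN : 1 ≤ N) (hr : 64 * N * ε ≤ r)
    (hcs : c ^ 2 + s ^ 2 = 1) (hx : |x - r * c| ≤ ε) (hy : |y - r * s| ≤ ε)
    (hx' : |x' - -(r * s * v)| ≤ ε * V) (hy' : |y' - r * c * v| ≤ ε * V) (hv : |v| ≤ V) :
    0 < x * c + y * s ∧
    |((x * c + y * s) * (y' * c - x' * s - v * (y * s + x * c)) -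
      (y * c - x * s) * (x' * c + y' * s + v * (y * c - x * s))) /
        ((x * c + y * s) ^ 2 + (y * c - x * s) ^ 2)| ≤ V / (2 * N) := by
  have hc1 : |c| ≤ 1 := abs_le_one_iff_mul_self_le_one.2 (by nlinarith [sq_nonneg s])
  have hs1 : |s| ≤ 1 := abs_le_one_iff_mul_self_le_one.2 (by nlinarith [sq_nonneg c])
  have hV : 0 ≤ V := (abs_nonneg v).trans hv
  have hεV : 0 ≤ ε * V := mul_nonneg hε.le hV
  obtain ⟨a, ha⟩ : ∃ a, a = x * c + y * s := ⟨_, rfl⟩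
  obtain ⟨b, hb⟩ : ∃ b, b = y * c - x * s := ⟨_, rfl⟩
  obtain ⟨a', ha'⟩ : ∃ a', a' = x' * c + y' * s + v * (y * c - x * s) := ⟨_, rfl⟩
  obtain ⟨b', hb'⟩ : ∃ b', b' = y' * c - x' * s - v * (y * s + x * c) := ⟨_, rfl⟩
  rw [← ha, ← hb, ← hb']
  rw [← hb] at ha'
  rw [← ha']
  have mulle : ∀ p q P : ℝ, |p| ≤ P → |q| ≤ 1 → |p * q| ≤ P := fun p q P hp hq => by
    rw [abs_mul]
    calc |p| * |q| ≤ |p| * 1 := mul_le_mul_of_nonneg_left hq (abs_nonneg _)
      _ ≤ P := by rwa [mul_one]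
  have h1 : |a - r| ≤ 2 * ε := by
    have e : a - r = (x - r * c) * c + (y - r * s) * s := by rw [ha]; linear_combination r * hcs
    rw [e]
    calc _ ≤ |(x - r * c) * c| + |(y - r * s) * s| := abs_add_le _ _
      _ ≤ ε + ε := add_le_add (mulle _ _ _ hx hc1) (mulle _ _ _ hy hs1)
      _ = _ := by ring
  have h2 : |b| ≤ 2 * ε := by
    have e : b = (y - r * s) * c + (-(x - r * c)) * s := by rw [hb]; ring
    rw [e]
    calc _ ≤ |(y - r * s) * c| + |(-(x - r * c)) * s| := abs_add_le _ _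
      _ ≤ ε + ε := add_le_add (mulle _ _ _ hy hc1) (mulle _ _ _ (by rwa [abs_neg]) hs1)
      _ = _ := by ring
  have h3 : |a'| ≤ 4 * (ε * V) := by
    have e : a' = ((x' - -(r * s * v)) * c + (y' - r * c * v) * s) + v * b := by rw [ha']; ring
    rw [e]
    calc _ ≤ |(x' - -(r * s * v)) * c + (y' - r * c * v) * s| + |v * b| := abs_add_le _ _
      _ ≤ (|(x' - -(r * s * v)) * c| + |(y' - r * c * v) * s|) + |v * b| := by
          gcongr; exact abs_add_le _ _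
      _ ≤ (ε * V + ε * V) + V * (2 * ε) := by
          gcongr
          · exact mulle _ _ _ hx' hc1
          · exact mulle _ _ _ hy' hs1
          · rw [abs_mul]; exact mul_le_mul hv h2 (abs_nonneg _) hV
      _ = _ := by ring
  have h4 : |b'| ≤ 4 * (ε * V) := by
    have e : b' = ((y' - r * c * v) * c + (-(x' - -(r * s * v))) * s) + v * (-(a - r)) := by
      rw [hb', ha]; linear_combination (r * v) * hcs
    rw [e]
    calc _ ≤ |(y' - r * c * v) * c + (-(x' - -(r * s * v))) * s| + |v * (-(a - r))| := abs_add_le _ _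
      _ ≤ (|(y' - r * c * v) * c| + |(-(x' - -(r * s * v))) * s|) + |v * (-(a - r))| := by
          gcongr; exact abs_add_le _ _
      _ ≤ (ε * V + ε * V) + V * (2 * ε) := by
          gcongr
          · exact mulle _ _ _ hy' hc1
          · exact mulle _ _ _ (by rwa [abs_neg]) hs1
          · rw [abs_mul, abs_neg]; exact mul_le_mul hv h1 (abs_nonneg _) hV
      _ = _ := by ring
  have h5 : 62 * N * ε ≤ a := by
    have := (abs_le.1 h1).1
    nlinarith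
  have hNε : 0 < N * ε := by positivity
  have ha0 : 0 < a := by nlinarith
  refine ⟨ha0, ?_⟩
  rw [abs_div, abs_of_pos (by positivity : 0 < a ^ 2 + b ^ 2), div_le_iff₀ (by positivity)]
  have h6 : |a * b' - b * a'| ≤ a * (4 * (ε * V)) + 2 * ε * (4 * (ε * V)) := by
    calc _ ≤ |a * b'| + |b * a'| := abs_sub _ _
      _ ≤ a * (4 * (ε * V)) + 2 * ε * (4 * (ε * V)) := by
          rw [abs_mul, abs_mul, abs_of_pos ha0]
          gcongr
  refine h6.trans ?_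
  have h7 : a * (4 * (ε * V)) + 2 * ε * (4 * (ε * V)) ≤ V / (2 * N) * a ^ 2 := by
    have e : V / (2 * N) * a ^ 2 = V * (a ^ 2 / (2 * N)) := by ring
    have e2 : a * (4 * (ε * V)) + 2 * ε * (4 * (ε * V)) = V * (4 * a * ε + 8 * ε ^ 2) := by ring
    rw [e, e2]
    refine mul_le_mul_of_nonneg_left ?_ hV
    rw [le_div_iff₀ (by positivity)]
    have g1 : ε ≤ N * ε := by nlinarith
    have g2 : 0 ≤ N * ε := hNε.le
    nlinarith [mul_nonneg ha0.le g2, mul_le_mul_of_nonneg_left g1 g2, mul_le_mul_of_nonneg_left h5 ha0.le]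
  refine h7.trans ?_
  have : 0 ≤ V / (2 * N) * b ^ 2 := by positivity
  nlinarith

theorem arc_alg {A B P Q : ℝ} (hA : 0 < A) :
    1 / (1 + (B / A) ^ 2) * ((P * A - B * Q) / A ^ 2) = (A * P - B * Q) / (A ^ 2 + B ^ 2) := by
  have h1 : A ^ 2 + B ^ 2 ≠ 0 := by positivity
  have h2 : 1 + (B / A) ^ 2 = (A ^ 2 + B ^ 2) / A ^ 2 := by field_simp
  rw [h2, one_div_div]
  field_simp

theorem torus_lemma (r : Fin n → ℝ) {ε : ℝ} (hε : 0 < ε) (hr : ∀ j, 64 * n * ε ≤ r j)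
    (w : (Fin n → ℝ) → Phase n) (w' : (Fin n → ℝ) → ((Fin n → ℝ) →L[ℝ] Phase n))
    (hw : ∀ θ, HasFDerivAt w (w' θ) θ)
    (hper : ∀ (θ : Fin n → ℝ) (m : Fin n → ℤ), w (θ + fun j => (m j : ℝ) * (2 * π)) = w θ)
    (S : (Fin n → ℝ) → ℝ) (S' : (Fin n → ℝ) → ((Fin n → ℝ) →L[ℝ] ℝ))
    (hS : ∀ θ, HasFDerivAt S (S' θ) θ)
    (hSper : ∀ (θ : Fin n → ℝ) (m : Fin n → ℤ), S (θ + fun j => (m j : ℝ) * (2 * π)) = S θ)
    (hSw : ∀ θ v, S' θ v = omega (w θ) (w' θ v) - ∑ j, r j ^ 2 * v j)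
    (hc0 : ∀ θ, ‖w θ - ell r θ‖ ≤ ε)
    (hc1 : ∀ θ v, ‖w' θ v - dell r θ v‖ ≤ ε * ‖v‖) :
    ∃ θ, ∀ j, (w θ).1 j ^ 2 + (w θ).2 j ^ 2 = r j ^ 2 := by
  -- coordinatewise bounds
  have b1 : ∀ θ j, |(w θ).1 j - r j * cos (θ j)| ≤ ε := fun θ j => by
    have h := (norm_fst_le (w θ - ell r θ)).trans (hc0 θ)
    exact (norm_le_pi_norm (w θ - ell r θ).1 j).trans h
  have b2 : ∀ θ j, |(w θ).2 j - r j * sin (θ j)| ≤ ε := fun θ j => by
    have h := (norm_snd_le (w θ - ell r θ)).trans (hc0 θ)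
    exact (norm_le_pi_norm (w θ - ell r θ).2 j).trans h
  have b3 : ∀ θ v j, |(w' θ v).1 j - -(r j * sin (θ j) * v j)| ≤ ε * ‖v‖ := fun θ v j => by
    have h := (norm_fst_le (w' θ v - dell r θ v)).trans (hc1 θ v)
    exact (norm_le_pi_norm (w' θ v - dell r θ v).1 j).trans h
  have b4 : ∀ θ v j, |(w' θ v).2 j - r j * cos (θ j) * v j| ≤ ε * ‖v‖ := fun θ v j => by
    have h := (norm_snd_le (w' θ v - dell r θ v)).trans (hc1 θ v)
    exact (norm_le_pi_norm (w' θ v - dell r θ v).2 j).trans h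
  have hn : ∀ j : Fin n, (1 : ℝ) ≤ n := fun j => by
    have := j.pos
    exact_mod_cast this
  have hest := fun (θ v : Fin n → ℝ) (j : Fin n) =>
    est (c := cos (θ j)) (s := sin (θ j)) (v := v j) hε (hn j) (hr j) (cos_sq_add_sin_sq (θ j))
      (b1 θ j) (b2 θ j) (b3 θ v j) (b4 θ v j) (norm_le_pi_norm v j)
  -- the angle functions
  let a : Fin n → (Fin n → ℝ) → ℝ := fun j θ => (w θ).1 j * cos (θ j) + (w θ).2 j * sin (θ j)
  let b : Fin n → (Fin n → ℝ) → ℝ := fun j θ => (w θ).2 j * cos (θ j) - (w θ).1 j * sin (θ j)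
  have ha : ∀ j θ, 0 < a j θ := fun j θ => (hest θ 0 j).1
  let F : (Fin n → ℝ) → ℝ := fun θ => S θ - ∑ j, r j ^ 2 * arctan (b j θ / a j θ)
  have hwc : Continuous w := continuous_iff_continuousAt.2 fun θ => (hw θ).continuousAt
  have hSc : Continuous S := continuous_iff_continuousAt.2 fun θ => (hS θ).continuousAt
  have hFc : Continuous F := by
    refine hSc.sub (continuous_finsetSum _ fun j _ => continuous_const.mul
      (continuous_arctan.comp (Continuous.div ?_ ?_ fun θ => (ha j θ).ne')))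
    · fun_prop
    · fun_prop
  have hFper : ∀ (θ : Fin n → ℝ) (m : Fin n → ℤ), F (θ + fun j => (m j : ℝ) * (2 * π)) = F θ := by
    intro θ m
    simp only [F, a, b, hSper, hper, Pi.add_apply, cos_add_int_mul_two_pi, sin_add_int_mul_two_pi]
  obtain ⟨θ₀, -, hmax⟩ := (isCompact_Icc : IsCompact (Icc (0 : Fin n → ℝ) fun _ => 2 * π)).exists_isMaxOn
    ⟨0, ⟨le_rfl, fun _ => by positivity⟩⟩ hFc.continuousOn
  have hglob : ∀ θ, F θ ≤ F θ₀ := by
    intro θ
    rw [← hFper θ fun j => -⌊θ j / (2 * π)⌋]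
    apply hmax
    have hfl : ∀ j, θ j + ((-⌊θ j / (2 * π)⌋ : ℤ) : ℝ) * (2 * π) =
        Int.fract (θ j / (2 * π)) * (2 * π) := fun j => by
      have h2 : (2 * π) ≠ 0 := by positivity
      rw [Int.fract]
      push_cast
      field_simp
      ring
    refine ⟨fun j => ?_, fun j => ?_⟩
    · simp only [Pi.zero_apply, Pi.add_apply, hfl]
      have := Int.fract_nonneg (θ j / (2 * π))
      positivity
    · simp only [Pi.add_apply, hfl]
      have := (Int.fract_lt_one (θ j / (2 * π))).le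
      have h2 : (0 : ℝ) < 2 * π := by positivity
      nlinarith
  -- the direction
  obtain ⟨u, hu⟩ : ∃ u : Fin n → ℝ, ∀ j, u j = (w θ₀).1 j ^ 2 + (w θ₀).2 j ^ 2 - r j ^ 2 :=
    ⟨fun j => _, fun j => rfl⟩
  have hline : HasDerivAt (fun t : ℝ => θ₀ + t • u) u 0 := by
    simpa using ((hasDerivAt_id (0 : ℝ)).smul_const u).const_add θ₀
  have hθ : (θ₀ + (0 : ℝ) • u) = θ₀ := by simp
  have dw : HasDerivAt (fun t : ℝ => w (θ₀ + t • u)) (w' θ₀ u) 0 := by
    have h := (hw (θ₀ + (0 : ℝ) • u)).comp_hasDerivAt (0 : ℝ) hline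
    rwa [hθ] at h
  have dx : ∀ j, HasDerivAt (fun t : ℝ => (w (θ₀ + t • u)).1 j) ((w' θ₀ u).1 j) 0 := fun j => by
    have h1 : HasFDerivAt (fun z : Phase n => z.1 j)
        ((ContinuousLinearMap.proj (R := ℝ) j).comp (ContinuousLinearMap.fst ℝ (Fin n → ℝ) (Fin n → ℝ)))
        (w (θ₀ + (0 : ℝ) • u)) := ((ContinuousLinearMap.proj (R := ℝ) (φ := fun _ : Fin n => ℝ) j).comp
          (ContinuousLinearMap.fst ℝ (Fin n → ℝ) (Fin n → ℝ))).hasFDerivAt
    exact h1.comp_hasDerivAt (0 : ℝ) dw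
  have dy : ∀ j, HasDerivAt (fun t : ℝ => (w (θ₀ + t • u)).2 j) ((w' θ₀ u).2 j) 0 := fun j => by
    have h1 : HasFDerivAt (fun z : Phase n => z.2 j)
        ((ContinuousLinearMap.proj (R := ℝ) j).comp (ContinuousLinearMap.snd ℝ (Fin n → ℝ) (Fin n → ℝ)))
        (w (θ₀ + (0 : ℝ) • u)) := ((ContinuousLinearMap.proj (R := ℝ) (φ := fun _ : Fin n => ℝ) j).comp
          (ContinuousLinearMap.snd ℝ (Fin n → ℝ) (Fin n → ℝ))).hasFDerivAt
    exact h1.comp_hasDerivAt (0 : ℝ) dw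
  have dθ : ∀ j, HasDerivAt (fun t : ℝ => (θ₀ + t • u) j) (u j) 0 := fun j => by
    simpa using ((hasDerivAt_id (0 : ℝ)).mul_const (u j)).const_add (θ₀ j)
  -- abbreviations at the maximum
  have da : ∀ j, HasDerivAt (fun t : ℝ => a j (θ₀ + t • u))
      ((w' θ₀ u).1 j * cos (θ₀ j) + (w' θ₀ u).2 j * sin (θ₀ j) +
        u j * ((w θ₀).2 j * cos (θ₀ j) - (w θ₀).1 j * sin (θ₀ j))) 0 := fun j => by
    have h := ((dx j).mul (dθ j).cos).add ((dy j).mul (dθ j).sin)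
    simp only [hθ] at h
    refine h.congr_deriv ?_
    ring
  have db : ∀ j, HasDerivAt (fun t : ℝ => b j (θ₀ + t • u))
      ((w' θ₀ u).2 j * cos (θ₀ j) - (w' θ₀ u).1 j * sin (θ₀ j) -
        u j * ((w θ₀).2 j * sin (θ₀ j) + (w θ₀).1 j * cos (θ₀ j))) 0 := fun j => by
    have h := ((dy j).mul (dθ j).cos).sub ((dx j).mul (dθ j).sin)
    simp only [hθ] at h
    refine h.congr_deriv ?_
    ring
  obtain ⟨d, hd⟩ : ∃ d : Fin n → ℝ, ∀ j, d j =
      (((w θ₀).1 j * cos (θ₀ j) + (w θ₀).2 j * sin (θ₀ j)) *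
        ((w' θ₀ u).2 j * cos (θ₀ j) - (w' θ₀ u).1 j * sin (θ₀ j) -
          u j * ((w θ₀).2 j * sin (θ₀ j) + (w θ₀).1 j * cos (θ₀ j))) -
      ((w θ₀).2 j * cos (θ₀ j) - (w θ₀).1 j * sin (θ₀ j)) *
        ((w' θ₀ u).1 j * cos (θ₀ j) + (w' θ₀ u).2 j * sin (θ₀ j) +
          u j * ((w θ₀).2 j * cos (θ₀ j) - (w θ₀).1 j * sin (θ₀ j)))) /
        (((w θ₀).1 j * cos (θ₀ j) + (w θ₀).2 j * sin (θ₀ j)) ^ 2 +
          ((w θ₀).2 j * cos (θ₀ j) - (w θ₀).1 j * sin (θ₀ j)) ^ 2) :=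
    ⟨fun j => _, fun j => rfl⟩
  have hdb : ∀ j, |d j| ≤ ‖u‖ / (2 * n) := fun j => by
    rw [hd j]
    exact (hest θ₀ u j).2
  have darc : ∀ j, HasDerivAt (fun t : ℝ => arctan (b j (θ₀ + t • u) / a j (θ₀ + t • u))) (d j) 0 := by
    intro j
    have h := ((db j).fun_div (da j) (ha j _).ne').arctan
    refine h.congr_deriv ?_
    rw [arc_alg (ha j _), hd j, hθ]
  have dF : HasDerivAt (fun t : ℝ => F (θ₀ + t • u)) (S' θ₀ u - ∑ j, r j ^ 2 * d j) 0 := by
    have h1 : HasDerivAt (fun t : ℝ => S (θ₀ + t • u)) (S' θ₀ u) 0 := by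
      have h := (hS (θ₀ + (0 : ℝ) • u)).comp_hasDerivAt (0 : ℝ) hline
      rwa [hθ] at h
    exact h1.sub (HasDerivAt.fun_sum fun j _ => (darc j).const_mul (r j ^ 2))
  have hloc : IsLocalMax (fun t : ℝ => F (θ₀ + t • u)) 0 :=
    Filter.Eventually.of_forall fun t => by simpa using hglob (θ₀ + t • u)
  have hzero := hloc.hasDerivAt_eq_zero dF
  rw [hSw] at hzero
  have hkey : ∑ j, (u j ^ 2 + u j * d j) = 0 := by
    rw [← hzero]
    unfold omega
    rw [← Finset.sum_sub_distrib, ← Finset.sum_sub_distrib]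
    refine Finset.sum_congr rfl fun j _ => ?_
    have hA := ha j θ₀
    simp only [a] at hA
    have hρ : ((w θ₀).1 j * cos (θ₀ j) + (w θ₀).2 j * sin (θ₀ j)) ^ 2 +
          ((w θ₀).2 j * cos (θ₀ j) - (w θ₀).1 j * sin (θ₀ j)) ^ 2 =
          (w θ₀).1 j ^ 2 + (w θ₀).2 j ^ 2 := by
      linear_combination ((w θ₀).1 j ^ 2 + (w θ₀).2 j ^ 2) * cos_sq_add_sin_sq (θ₀ j)
    have hρ0 : 0 < (w θ₀).1 j ^ 2 + (w θ₀).2 j ^ 2 := by rw [← hρ]; positivity
    have hdj : d j * ((w θ₀).1 j ^ 2 + (w θ₀).2 j ^ 2) =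
        ((w θ₀).1 j * (w' θ₀ u).2 j - (w θ₀).2 j * (w' θ₀ u).1 j) -
          u j * ((w θ₀).1 j ^ 2 + (w θ₀).2 j ^ 2) := by
      rw [hd j, hρ, div_mul_cancel₀ _ hρ0.ne']
      linear_combination ((w θ₀).1 j * (w' θ₀ u).2 j - (w θ₀).2 j * (w' θ₀ u).1 j -
          u j * ((w θ₀).1 j ^ 2 + (w θ₀).2 j ^ 2)) * cos_sq_add_sin_sq (θ₀ j)
    have huj := hu j
    linear_combination hdj + (u j + d j) * huj
  refine ⟨θ₀, fun j => ?_⟩
  -- conclude that `u = 0`
  have hun : ‖u‖ = 0 := by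
    by_contra hne
    have hpos : 0 < ‖u‖ := lt_of_le_of_ne (norm_nonneg _) (Ne.symm hne)
    have hnn : (0 : ℝ) < n := by have := hn j; linarith
    have hNE : Nonempty (Fin n) := ⟨j⟩
    obtain ⟨i, hi⟩ : ∃ i, ‖u‖ = |u i| := by
      obtain ⟨i, -, hi⟩ := Finset.exists_mem_eq_sup' Finset.univ_nonempty fun i => ‖u i‖₊
      refine ⟨i, ?_⟩
      have := Pi.norm_def (f := u)
      rw [Finset.sup'_eq_sup] at hi
      rw [this, hi]
      simp
    have h1 : ‖u‖ ^ 2 ≤ ∑ j, u j ^ 2 := by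
      rw [hi, sq_abs]
      exact Finset.single_le_sum (f := fun j => u j ^ 2) (fun j _ => sq_nonneg _) (Finset.mem_univ i)
    have h2 : ∑ j, |u j * d j| ≤ ∑ _j : Fin n, ‖u‖ * (‖u‖ / (2 * n)) := by
      refine Finset.sum_le_sum fun j _ => ?_
      rw [abs_mul]
      exact mul_le_mul (norm_le_pi_norm u j) (hdb j) (abs_nonneg _) hpos.le
    have h3 : ∑ _j : Fin n, ‖u‖ * (‖u‖ / (2 * n)) = ‖u‖ ^ 2 / 2 := by
      rw [Finset.sum_const, Finset.card_univ, Fintype.card_fin, nsmul_eq_mul]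
      field_simp
    have h4 : |∑ j, u j * d j| ≤ ∑ j, |u j * d j| := Finset.abs_sum_le_sum_abs _ _
    rw [Finset.sum_add_distrib] at hkey
    have h5 := (abs_le.1 (h4.trans (h2.trans h3.le))).1
    nlinarith
  have : u j = 0 := by
    have h1 := norm_le_pi_norm u j
    rw [hun] at h1
    exact norm_le_zero_iff.1 h1
  rw [hu j] at this
  linarith

end Q169.Pack
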