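import Pool.Agent.Q169.PackExact
import Pool.Agent.Q169.PackTorus

/-!
A subset of `ℝ²ⁿ` which contains a product torus has only countable packings.
-/

set_option autoImplicit false

open Set Real
open scoped ContDiff Topology

namespace Q169.Pack

variable {n : ℕ}

/-- In a second countable space an uncountable family accumulates at one of its members. -/
theorem exists_accum {ι Y : Type*} [TopologicalSpace Y] [SecondCountableTopology Y] (f : ι → Y)
    (hι : ¬ Countable ι) : ∃ i, ∀ V ∈ 𝓝 (f i), ∃ j, j ≠ i ∧ f j ∈ V := by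
  by_contra hcon
  push Not at hcon
  apply hι
  have hb := TopologicalSpace.isBasis_countableBasis Y
  have h1 : ∀ i, ∃ b ∈ TopologicalSpace.countableBasis Y, f i ∈ b ∧ ∀ j, f j ∈ b → j = i := by
    intro i
    obtain ⟨V, hV, h⟩ := hcon i
    obtain ⟨b, hb1, hb2, hb3⟩ := hb.mem_nhds_iff.1 hV
    exact ⟨b, hb1, hb2, fun j hj => by_contra fun hne => h j hne (hb3 hj)⟩
  choose b hb1 hb2 hb3 using h1
  have : Countable (TopologicalSpace.countableBasis Y) :=
    (TopologicalSpace.countable_countableBasis Y).to_subtype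
  exact Function.Injective.countable (f := fun i => (⟨b i, hb1 i⟩ : TopologicalSpace.countableBasis Y))
    fun i j hij => by
      have h2 : b i = b j := congrArg Subtype.val hij
      exact hb3 j i (h2 ▸ hb2 i)

theorem ell_contDiff (r : Fin n → ℝ) : ContDiff ℝ ∞ (ell r) := by
  refine ContDiff.prodMk ?_ ?_
  · exact contDiff_pi.2 fun j => contDiff_const.mul (contDiff_cos.comp (contDiff_apply ℝ ℝ j))
  · exact contDiff_pi.2 fun j => contDiff_const.mul (contDiff_sin.comp (contDiff_apply ℝ ℝ j))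

theorem fderiv_ell (r : Fin n → ℝ) (θ v : Fin n → ℝ) : fderiv ℝ (ell r) θ v = dell r θ v := by
  have hd : DifferentiableAt ℝ (ell r) θ := ((ell_contDiff r).differentiable (by simp)) θ
  have hline : HasDerivAt (fun t : ℝ => θ + t • v) v 0 := by
    simpa using ((hasDerivAt_id (0 : ℝ)).smul_const v).const_add θ
  have hθ : (θ + (0 : ℝ) • v) = θ := by simp
  have h1 : HasDerivAt (fun t : ℝ => ell r (θ + t • v)) (fderiv ℝ (ell r) θ v) 0 := by
    have h : HasFDerivAt (ell r) (fderiv ℝ (ell r) θ) (θ + (0 : ℝ) • v) := by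
      rw [hθ]; exact hd.hasFDerivAt
    exact h.comp_hasDerivAt (0 : ℝ) hline
  have dθ : ∀ j, HasDerivAt (fun t : ℝ => (θ + t • v) j) (v j) 0 := fun j => by
    simpa using ((hasDerivAt_id (0 : ℝ)).mul_const (v j)).const_add (θ j)
  have h2 : HasDerivAt (fun t : ℝ => ell r (θ + t • v)) (dell r θ v) 0 := by
    refine HasDerivAt.prodMk (hasDerivAt_pi.2 fun j => ?_) (hasDerivAt_pi.2 fun j => ?_)
    · have h := ((dθ j).cos).const_mul (r j)
      simp only [hθ] at h
      exact h.congr_deriv (by ring)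
    · have h := ((dθ j).sin).const_mul (r j)
      simp only [hθ] at h
      exact h.congr_deriv (by ring)
  exact h1.unique h2

theorem omega_ell (r : Fin n → ℝ) (θ v : Fin n → ℝ) :
    omega (ell r θ) (dell r θ v) = ∑ j, r j ^ 2 * v j := by
  unfold omega ell dell
  refine Finset.sum_congr rfl fun j _ => ?_
  simp only
  linear_combination (r j ^ 2 * v j) * cos_sq_add_sin_sq (θ j)

theorem ell_periodic (r : Fin n → ℝ) (θ : Fin n → ℝ) (m : Fin n → ℤ) :
    ell r (θ + fun j => (m j : ℝ) * (2 * π)) = ell r θ := by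
  simp only [ell, Pi.add_apply, cos_add_int_mul_two_pi, sin_add_int_mul_two_pi]

theorem exists_shift (θ : Fin n → ℝ) : ∃ m : Fin n → ℤ,
    (θ + fun j => (m j : ℝ) * (2 * π)) ∈ Icc (0 : Fin n → ℝ) (fun _ => 2 * π) := by
  refine ⟨fun j => -⌊θ j / (2 * π)⌋, ?_⟩
  have hfl : ∀ j, θ j + ((-⌊θ j / (2 * π)⌋ : ℤ) : ℝ) * (2 * π) =
      Int.fract (θ j / (2 * π)) * (2 * π) := fun j => by
    have h2 : (2 * π) ≠ 0 := by positivity
    rw [Int.fract]
    push_cast
    field_simp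
    ring
  refine ⟨fun j => ?_, fun j => ?_⟩
  · simp only [Pi.zero_apply, Pi.add_apply, hfl]
    have := Int.fract_nonneg (θ j / (2 * π))
    positivity
  · simp only [Pi.add_apply, hfl]
    have := (Int.fract_lt_one (θ j / (2 * π))).le
    have h2 : (0 : ℝ) < 2 * π := by positivity
    nlinarith

/-- The one-jet of a map along the torus. -/
noncomputable def jet (r : Fin n → ℝ) (φ : Phase n → Phase n) (hφ : ContDiff ℝ ∞ φ) :
    C(Icc (0 : Fin n → ℝ) (fun _ => 2 * π), Phase n × ((Fin n → ℝ) →L[ℝ] Phase n)) where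
  toFun θ := (φ (ell r θ), fderiv ℝ (fun θ => φ (ell r θ)) θ)
  continuous_toFun := by
    have h : ContDiff ℝ ∞ fun θ => φ (ell r θ) := hφ.comp (ell_contDiff r)
    exact (h.continuous.comp continuous_subtype_val).prodMk
      ((h.continuous_fderiv (by simp)).comp continuous_subtype_val)

/-- Composition of one-jets with `ψ`. -/
noncomputable def jetComp (ψ : Phase n → Phase n) (hψ : ContDiff ℝ ∞ ψ) :
    C(Phase n × ((Fin n → ℝ) →L[ℝ] Phase n), Phase n × ((Fin n → ℝ) →L[ℝ] Phase n)) where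
  toFun p := (ψ p.1, (fderiv ℝ ψ p.1).comp p.2)
  continuous_toFun := (hψ.continuous.comp continuous_fst).prodMk
    (((hψ.continuous_fderiv (by simp)).comp continuous_fst).clm_comp continuous_snd)

theorem jetComp_jet (r : Fin n → ℝ) (φ : Phase n → Phase n) (hφ : ContDiff ℝ ∞ φ)
    (ψ : Phase n → Phase n) (hψ : ContDiff ℝ ∞ ψ) :
    (jetComp ψ hψ).comp (jet r φ hφ) = jet r (ψ ∘ φ) (hψ.comp hφ) := by
  ext1 θ
  have h : ContDiff ℝ ∞ fun θ => φ (ell r θ) := hφ.comp (ell_contDiff r)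
  have h1 : HasFDerivAt ψ (fderiv ℝ ψ (φ (ell r θ))) (φ (ell r θ)) :=
    ((hψ.differentiable (by simp)) _).hasFDerivAt
  have h2 : HasFDerivAt (fun θ => φ (ell r θ)) (fderiv ℝ (fun θ => φ (ell r θ)) θ) (θ : Fin n → ℝ) :=
    ((h.differentiable (by simp)) _).hasFDerivAt
  exact Prod.ext rfl (h1.comp (θ : Fin n → ℝ) h2).fderiv.symm

/-- **A set which contains a product torus admits only countable packings.** -/
theorem packing_countable {K : Set (Phase n)} (r : Fin n → ℝ) (hn : 0 < n) (hr : ∀ j, 0 < r j)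
    (hK : ∀ z : Phase n, (∀ j, z.1 j ^ 2 + z.2 j ^ 2 = r j ^ 2) → z ∈ K)
    {P : Set (Set (Phase n))} (hP : IsPacking K P) : P.Countable := by
  by_contra hcount
  obtain ⟨hdisj, hex⟩ := hP
  choose! φ hφ hφK using hex
  have hsm : ∀ S ∈ P, ContDiff ℝ ∞ (φ S) := by
    intro S hS
    obtain ⟨H, Φ, -, -, hΦ, -, -, h1, -⟩ := hφ S hS
    have : φ S = fun z => Φ (1, z) := funext h1
    rw [this]
    exact hΦ.comp (contDiff_const.prodMk contDiff_id)
  have hsc : SecondCountableTopology ((Fin n → ℝ) →L[ℝ] Phase n) := by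
    have : ProperSpace ((Fin n → ℝ) →L[ℝ] Phase n) := FiniteDimensional.proper ℝ _
    infer_instance
  obtain ⟨⟨S₀, hS₀⟩, hacc⟩ := exists_accum (fun S : P => jet r (φ S) (hsm S S.2))
    (fun h => hcount (Set.countable_coe_iff.1 h))
  have hdiff := (hφ S₀ hS₀)
  obtain ⟨H, Φ, -, -, -, -, -, -, ψ, hψ, hleft, hright⟩ := hdiff
  -- the size of the neighbourhood
  obtain ⟨ρ, hρ, hρr⟩ : ∃ ρ : ℝ, 0 < ρ ∧ ∀ j, ρ ≤ r j := by
    have : Nonempty (Fin n) := ⟨⟨0, hn⟩⟩
    obtain ⟨i, hi⟩ := Finite.exists_min r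
    exact ⟨r i, hr i, hi⟩
  have hnR : (0 : ℝ) < n := by exact_mod_cast hn
  set ε : ℝ := ρ / (64 * n) with hεdef
  have hε : 0 < ε := by positivity
  have hεr : ∀ j, 64 * n * ε ≤ r j := fun j => by
    have : 64 * n * ε = ρ := by rw [hεdef]; field_simp
    rw [this]; exact hρr j
  -- the identity jet
  set E₀ : C(Icc (0 : Fin n → ℝ) (fun _ => 2 * π), Phase n × ((Fin n → ℝ) →L[ℝ] Phase n)) :=
    jet r id contDiff_id with hE₀
  have hcomp0 : (jetComp ψ hψ).comp (jet r (φ S₀) (hsm S₀ hS₀)) = E₀ := by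
    rw [jetComp_jet]
    have : ψ ∘ φ S₀ = id := funext hleft
    simp only [this, hE₀]
  have hnb : (fun f : C(Icc (0 : Fin n → ℝ) (fun _ => 2 * π),
      Phase n × ((Fin n → ℝ) →L[ℝ] Phase n)) => (jetComp ψ hψ).comp f) ⁻¹' (Metric.ball E₀ ε) ∈
      𝓝 (jet r (φ S₀) (hsm S₀ hS₀)) := by
    apply (ContinuousMap.continuous_postcomp (jetComp ψ hψ)).continuousAt.preimage_mem_nhds
    rw [hcomp0]
    exact Metric.ball_mem_nhds E₀ hε
  obtain ⟨⟨S, hS⟩, hne, hmem⟩ := hacc _ hnb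
  have hneS : S ≠ S₀ := fun h => hne (Subtype.ext h)
  simp only [mem_preimage, Metric.mem_ball] at hmem
  rw [jetComp_jet] at hmem
  -- the map `w`
  have hws : ContDiff ℝ ∞ fun θ => (ψ ∘ φ S) (ell r θ) :=
    (hψ.comp (hsm S hS)).comp (ell_contDiff r)
  set w : (Fin n → ℝ) → Phase n := fun θ => (ψ ∘ φ S) (ell r θ) with hw
  have hwper : ∀ (θ : Fin n → ℝ) (m : Fin n → ℤ), w (θ + fun j => (m j : ℝ) * (2 * π)) = w θ := by
    intro θ m
    simp only [hw, ell_periodic]
  have hwd : ∀ θ, HasFDerivAt w (fderiv ℝ w θ) θ := fun θ =>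
    ((hws.differentiable (by simp)) θ).hasFDerivAt
  have hdper : ∀ (f : (Fin n → ℝ) → Phase n), (∀ (θ : Fin n → ℝ) (m : Fin n → ℤ),
      f (θ + fun j => (m j : ℝ) * (2 * π)) = f θ) → ∀ (θ : Fin n → ℝ) (m : Fin n → ℤ),
      fderiv ℝ f (θ + fun j => (m j : ℝ) * (2 * π)) = fderiv ℝ f θ := by
    intro f hf θ m
    rw [← fderiv_comp_add_right]
    congr 1
    funext x
    exact hf x m
  have hbox : ∀ θ ∈ Icc (0 : Fin n → ℝ) (fun _ => 2 * π), ‖w θ - ell r θ‖ ≤ ε ∧
      ‖fderiv ℝ w θ - fderiv ℝ (ell r) θ‖ ≤ ε := by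
    intro θ hθ
    have h := (ContinuousMap.dist_apply_le_dist (f := jet r (ψ ∘ φ S) (hψ.comp (hsm S hS)))
      (g := E₀) ⟨θ, hθ⟩).trans hmem.le
    rw [dist_eq_norm] at h
    exact ⟨(norm_fst_le _).trans h, (norm_snd_le _).trans h⟩
  have hc0 : ∀ θ, ‖w θ - ell r θ‖ ≤ ε := by
    intro θ
    obtain ⟨m, hm⟩ := exists_shift θ
    have := (hbox _ hm).1
    rwa [hwper, ell_periodic] at this
  have hc1 : ∀ θ v, ‖fderiv ℝ w θ v - dell r θ v‖ ≤ ε * ‖v‖ := by
    intro θ v
    obtain ⟨m, hm⟩ := exists_shift θ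
    have h := (hbox _ hm).2
    rw [hdper w hwper, hdper (ell r) (ell_periodic r)] at h
    rw [← fderiv_ell, ← sub_apply]
    exact (ContinuousLinearMap.le_opNorm _ v).trans (mul_le_mul_of_nonneg_right h (norm_nonneg v))
  -- exactness
  obtain ⟨S1, hS1⟩ := (hφ S hS).exact
  obtain ⟨S2, hS2⟩ := (hφ S₀ hS₀).exact
  choose S1' hS1a hS1b using hS1
  choose S2' hS2a hS2b using hS2
  have hell : ∀ θ, HasFDerivAt (ell r) (fderiv ℝ (ell r) θ) θ := fun θ =>
    (((ell_contDiff r).differentiable (by simp)) θ).hasFDerivAt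
  have hval : ∀ θ, φ S₀ (w θ) = φ S (ell r θ) := fun θ => hright _
  have hSw : ∀ θ v, ((S1' (ell r θ)).comp (fderiv ℝ (ell r) θ) - (S2' (w θ)).comp (fderiv ℝ w θ)) v =
      omega (w θ) (fderiv ℝ w θ v) - ∑ j, r j ^ 2 * v j := by
    intro θ v
    have e1 : fderiv ℝ (φ S₀) (w θ) (fderiv ℝ w θ v) =
        fderiv ℝ (φ S) (ell r θ) (fderiv ℝ (ell r) θ v) := by
      have g1 : HasFDerivAt (fun θ => φ S₀ (w θ)) ((fderiv ℝ (φ S₀) (w θ)).comp (fderiv ℝ w θ)) θ :=
        (((hsm S₀ hS₀).differentiable (by simp)) (w θ)).hasFDerivAt.comp θ (hwd θ)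
      have g2 : HasFDerivAt (fun θ => φ S (ell r θ))
          ((fderiv ℝ (φ S) (ell r θ)).comp (fderiv ℝ (ell r) θ)) θ :=
        (((hsm S hS).differentiable (by simp)) (ell r θ)).hasFDerivAt.comp θ (hell θ)
      have g3 : (fun θ => φ S₀ (w θ)) = fun θ => φ S (ell r θ) := funext hval
      rw [g3] at g1
      have := congrArg (fun L => L v) (g1.unique g2)
      simpa using this
    simp only [sub_apply, ContinuousLinearMap.comp_apply]
    rw [hS1b, hS2b, hval, e1, fderiv_ell, omega_ell]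
    ring
  obtain ⟨θ, hθ⟩ := torus_lemma r hε hεr w (fderiv ℝ w) hwd hwper
    (fun θ => S1 (ell r θ) - S2 (w θ))
    (fun θ => (S1' (ell r θ)).comp (fderiv ℝ (ell r) θ) - (S2' (w θ)).comp (fderiv ℝ w θ))
    (fun θ => ((hS1a _).comp θ (hell θ)).sub ((hS2a _).comp θ (hwd θ)))
    (fun θ m => by simp only [ell_periodic, hwper]) hSw hc0 hc1
  -- the intersection point
  have hdis := hdisj hS hS₀ hneS
  simp only [Function.onFun, id] at hdis
  have h1 : φ S (ell r θ) ∈ S := by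
    have h : φ S (ell r θ) ∈ φ S '' K := by
      refine mem_image_of_mem _ (hK _ fun j => ?_)
      simp only [ell]
      linear_combination (r j ^ 2) * cos_sq_add_sin_sq (θ j)
    rwa [← hφK S hS] at h
  have h2 : φ S (ell r θ) ∈ S₀ := by
    have h : φ S₀ (w θ) ∈ φ S₀ '' K := mem_image_of_mem _ (hK _ hθ)
    rwa [← hφK S₀ hS₀, hval θ] at h
  exact Set.disjoint_left.1 hdis h1 h2

end Q169.Pack
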