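import Mathlib

/-!
Definitions for `MP_e888d6_gt`: Hamiltonian diffeomorphisms of the standard symplectic space
`ℝ²ⁿ`, embedded submanifolds, coisotropic submanifolds and Hamiltonian packings.
-/

set_option autoImplicit false

open Set
open scoped ContDiff

namespace Q169.Pack

/-- The symplectic manifold `M = ℝ²ⁿ`, with points `z = (x, y)`. -/
abbrev Phase (n : ℕ) : Type := (Fin n → ℝ) × (Fin n → ℝ)

/-- The standard symplectic form `ω = ∑ dxᵢ ∧ dyᵢ` (the same at all points). -/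
def omega {n : ℕ} (u v : Phase n) : ℝ := ∑ i, (u.1 i * v.2 i - u.2 i * v.1 i)

/-- `φ` is a compactly supported Hamiltonian diffeomorphism: the time one map `Φ (1, ·)` of the
flow `Φ` of a smooth time dependent Hamiltonian `H` which vanishes outside a compact set for all
times `t ∈ [0,1]`. The Hamiltonian vector field `X` of `h = H (t, ·)` is given by
`ω (X, ·) = dh`. -/
def IsHamDiffeo {n : ℕ} (φ : Phase n → Phase n) : Prop :=
  ∃ (H : ℝ × Phase n → ℝ) (Φ : ℝ × Phase n → Phase n),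
    ContDiff ℝ ∞ H ∧ (∃ C : Set (Phase n), IsCompact C ∧ ∀ t ∈ Icc (0 : ℝ) 1, ∀ z ∉ C, H (t, z) = 0) ∧
    ContDiff ℝ ∞ Φ ∧ (∀ z, Φ (0, z) = z) ∧
    (∀ t ∈ Icc (0 : ℝ) 1, ∀ z v : Phase n,
      omega (deriv (fun s => Φ (s, z)) t) v = fderiv ℝ (fun w => H (t, w)) (Φ (t, z)) v) ∧
    (∀ z, φ z = Φ (1, z)) ∧
    ∃ ψ : Phase n → Phase n, ContDiff ℝ ∞ ψ ∧ Function.LeftInverse ψ φ ∧ Function.RightInverse ψ φ

/-- `K` is an embedded submanifold of dimension `d` of `ℝ²ⁿ`: near each of its points it is the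
zero set of a smooth map `g` to `ℝᵐ`, `m = 2 n - d`, whose derivative is surjective. -/
def IsSubmanifold {n : ℕ} (K : Set (Phase n)) (d : ℕ) : Prop :=
  ∀ z ∈ K, ∃ (U : Set (Phase n)) (m : ℕ) (g : Phase n → (Fin m → ℝ)),
    IsOpen U ∧ z ∈ U ∧ d + m = 2 * n ∧ ContDiffOn ℝ ∞ g U ∧
    (∀ w ∈ K ∩ U, Function.Surjective (fderiv ℝ g w)) ∧ K ∩ U = {w ∈ U | g w = 0}

/-- The tangent space `T_z K`: the velocities at `z` of the curves in `K`. -/
def tangentSpace {n : ℕ} (K : Set (Phase n)) (z : Phase n) : Set (Phase n) :=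
  {v | ∃ c : ℝ → Phase n, c 0 = z ∧ (∀ t, c t ∈ K) ∧ HasDerivAt c v 0}

/-- `K` is coisotropic at `z`: the `ω`-orthogonal of `T_z K` is contained in `T_z K`. -/
def IsCoisotropicAt {n : ℕ} (K : Set (Phase n)) (z : Phase n) : Prop :=
  ∀ u : Phase n, (∀ v ∈ tangentSpace K z, omega u v = 0) → u ∈ tangentSpace K z

/-- `K` is coisotropic. -/
def IsCoisotropic {n : ℕ} (K : Set (Phase n)) : Prop := ∀ z ∈ K, IsCoisotropicAt K z

/-- The normal bundle of `K` has a nowhere vanishing (smooth) section: there is a smooth vector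
field which is tangent to `K` at no point of `K`. -/
def HasNonvanishingNormalSection {n : ℕ} (K : Set (Phase n)) : Prop :=
  ∃ ν : Phase n → Phase n, ContDiff ℝ ∞ ν ∧ ∀ z ∈ K, ν z ∉ tangentSpace K z

/-- `P` is a packing of `K`: its members are pairwise disjoint images of `K` under compactly
supported Hamiltonian diffeomorphisms. -/
def IsPacking {n : ℕ} (K : Set (Phase n)) (P : Set (Set (Phase n))) : Prop :=
  P.PairwiseDisjoint id ∧ ∀ S ∈ P, ∃ φ : Phase n → Phase n, IsHamDiffeo φ ∧ S = φ '' K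

/-- `K` admits an uncountable packing. -/
def AdmitsUncountablePacking {n : ℕ} (K : Set (Phase n)) : Prop :=
  ∃ P : Set (Set (Phase n)), IsPacking K P ∧ ¬ P.Countable

end Q169.Pack
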