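import Pool.Agent.Q169.PackCount

/-!
The example for `MP_e888d6_gt`.
-/

set_option autoImplicit false

open Set Real
open scoped ContDiff Topology

namespace Q169.Pack

/-- The function `ρ_j = x_j² + y_j²`. -/
def rho {n : ℕ} (j : Fin n) (z : Phase n) : ℝ := z.1 j ^ 2 + z.2 j ^ 2

/-- The example. -/
def exK : Set (Phase 3) :=
  {z | (rho 0 z - 2) ^ 2 + (rho 1 z - 2) ^ 2 = 1 ∧ rho 2 z = 2 + (rho 1 z - 2) * z.2 1}

/-- The defining functions. -/
def F1 (z : Phase 3) : ℝ := (rho 0 z - 2) ^ 2 + (rho 1 z - 2) ^ 2 - 1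
/-- The defining functions. -/
def F2 (z : Phase 3) : ℝ := rho 2 z - 2 - (rho 1 z - 2) * z.2 1

/-- The differential of `ρ_j`. -/
def drho {n : ℕ} (j : Fin n) (z v : Phase n) : ℝ := 2 * (z.1 j * v.1 j + z.2 j * v.2 j)

/-- The differential of `F1`. -/
def dF1 (z v : Phase 3) : ℝ :=
  2 * (rho 0 z - 2) * drho 0 z v + 2 * (rho 1 z - 2) * drho 1 z v
/-- The differential of `F2`. -/
def dF2 (z v : Phase 3) : ℝ :=
  drho 2 z v - (drho 1 z v * z.2 1 + (rho 1 z - 2) * v.2 1)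

theorem mem_exK (z : Phase 3) : z ∈ exK ↔ F1 z = 0 ∧ F2 z = 0 := by
  unfold exK F1 F2
  simp only [mem_ofPred_eq]
  constructor
  · rintro ⟨h1, h2⟩
    exact ⟨by linarith, by linarith⟩
  · rintro ⟨h1, h2⟩
    exact ⟨by linarith, by linarith⟩

theorem hasDerivAt_rho {n : ℕ} (j : Fin n) {c : ℝ → Phase n} {v : Phase n} {t : ℝ}
    (h : HasDerivAt c v t) : HasDerivAt (fun t => rho j (c t)) (drho j (c t) v) t := by
  have h1 : HasDerivAt (fun t => (c t).1 j) (v.1 j) t := (hasDerivAt_pi.1 h.fst) j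
  have h2 : HasDerivAt (fun t => (c t).2 j) (v.2 j) t := (hasDerivAt_pi.1 h.snd) j
  refine ((h1.pow 2).add (h2.pow 2)).congr_deriv ?_
  simp only [drho]
  push_cast
  ring

theorem hasDerivAt_F1 {c : ℝ → Phase 3} {v : Phase 3} {t : ℝ}
    (h : HasDerivAt c v t) : HasDerivAt (fun t => F1 (c t)) (dF1 (c t) v) t := by
  have h0 := hasDerivAt_rho 0 h
  have h1 := hasDerivAt_rho 1 h
  refine ((((h0.sub_const 2).pow 2).add ((h1.sub_const 2).pow 2)).sub_const 1).congr_deriv ?_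
  simp only [dF1]
  push_cast
  ring

theorem hasDerivAt_F2 {c : ℝ → Phase 3} {v : Phase 3} {t : ℝ}
    (h : HasDerivAt c v t) : HasDerivAt (fun t => F2 (c t)) (dF2 (c t) v) t := by
  have h0 := hasDerivAt_rho 1 h
  have h1 := hasDerivAt_rho 2 h
  have h2 : HasDerivAt (fun t => (c t).2 1) (v.2 1) t := (hasDerivAt_pi.1 h.snd) 1
  exact ((h1.sub_const 2).sub ((h0.sub_const 2).mul h2))

theorem tangent_F1 {z v : Phase 3} (hv : v ∈ tangentSpace exK z) : dF1 z v = 0 := by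
  obtain ⟨c, rfl, hc, hd⟩ := hv
  have h1 := hasDerivAt_F1 hd
  have h2 : (fun t => F1 (c t)) = fun _ => 0 := funext fun t => ((mem_exK _).1 (hc t)).1
  rw [h2] at h1
  exact h1.unique (hasDerivAt_const _ _)

theorem tangent_F2 {z v : Phase 3} (hv : v ∈ tangentSpace exK z) : dF2 z v = 0 := by
  obtain ⟨c, rfl, hc, hd⟩ := hv
  have h1 := hasDerivAt_F2 hd
  have h2 : (fun t => F2 (c t)) = fun _ => 0 := funext fun t => ((mem_exK _).1 (hc t)).2
  rw [h2] at h1
  exact h1.unique (hasDerivAt_const _ _)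

theorem contDiff_rho {n : ℕ} (j : Fin n) : ContDiff ℝ ∞ (rho j : Phase n → ℝ) := by
  have h1 : ContDiff ℝ ∞ fun z : Phase n => z.1 j := (contDiff_apply ℝ ℝ j).comp contDiff_fst
  have h2 : ContDiff ℝ ∞ fun z : Phase n => z.2 j := (contDiff_apply ℝ ℝ j).comp contDiff_snd
  exact (h1.pow 2).add (h2.pow 2)

theorem contDiff_F1 : ContDiff ℝ ∞ F1 :=
  ((((contDiff_rho 0).sub contDiff_const).pow 2).add
    (((contDiff_rho 1).sub contDiff_const).pow 2)).sub contDiff_const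

theorem contDiff_F2 : ContDiff ℝ ∞ F2 := by
  have h2 : ContDiff ℝ ∞ fun z : Phase 3 => z.2 1 := (contDiff_apply ℝ ℝ 1).comp contDiff_snd
  exact ((contDiff_rho 2).sub contDiff_const).sub (((contDiff_rho 1).sub contDiff_const).mul h2)

/-- The bounds for the `ρ_j` on the example. -/
theorem exK_bounds {z : Phase 3} (hz : z ∈ exK) :
    1 ≤ rho 0 z ∧ rho 0 z ≤ 3 ∧ 1 ≤ rho 1 z ∧ rho 1 z ≤ 3 ∧ 1 / 5 ≤ rho 2 z ∧ rho 2 z ≤ 4 := by
  obtain ⟨h1, h2⟩ := hz
  have a0 : 1 ≤ rho 0 z := by nlinarith [sq_nonneg (rho 1 z - 2)]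
  have a1 : rho 0 z ≤ 3 := by nlinarith [sq_nonneg (rho 1 z - 2)]
  have b0 : 1 ≤ rho 1 z := by nlinarith [sq_nonneg (rho 0 z - 2)]
  have b1 : rho 1 z ≤ 3 := by nlinarith [sq_nonneg (rho 0 z - 2)]
  have c1 : (z.2 1) ^ 2 ≤ 3 := by
    have : rho 1 z = z.1 1 ^ 2 + z.2 1 ^ 2 := rfl
    nlinarith [sq_nonneg (z.1 1)]
  have c2 : (rho 1 z - 2) ^ 2 ≤ 1 := by nlinarith [sq_nonneg (rho 0 z - 2)]
  have c3 : ((rho 1 z - 2) * z.2 1) ^ 2 ≤ 3 := by
    rw [mul_pow]
    nlinarith [sq_nonneg (rho 1 z - 2), sq_nonneg (z.2 1)]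
  have c4 : -(9 / 5) ≤ (rho 1 z - 2) * z.2 1 := by nlinarith
  have c5 : (rho 1 z - 2) * z.2 1 ≤ 2 := by nlinarith
  exact ⟨a0, a1, b0, b1, by linarith, by linarith⟩

theorem isCompact_exK : IsCompact exK := by
  refine Metric.isCompact_of_isClosed_isBounded ?_ ?_
  · have : exK = F1 ⁻¹' {0} ∩ F2 ⁻¹' {0} := by
      ext z
      rw [mem_exK]
      rfl
    rw [this]
    exact (isClosed_singleton.preimage contDiff_F1.continuous).inter
      (isClosed_singleton.preimage contDiff_F2.continuous)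
  · refine (Metric.isBounded_closedBall (x := (0 : Phase 3)) (r := 2)).subset fun z hz => ?_
    obtain ⟨-, a1, -, b1, -, c1⟩ := exK_bounds hz
    rw [mem_closedBall_zero_iff]
    have hr : ∀ j, rho j z ≤ 4 := by
      intro j
      fin_cases j
      · exact a1.trans (by norm_num)
      · exact b1.trans (by norm_num)
      · exact c1
    have hx : ∀ j, |z.1 j| ≤ 2 := fun j => by
      have h : z.1 j ^ 2 + z.2 j ^ 2 ≤ 4 := hr j
      exact abs_le_of_sq_le_sq (by nlinarith [sq_nonneg (z.2 j)]) (by norm_num)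
    have hy : ∀ j, |z.2 j| ≤ 2 := fun j => by
      have h : z.1 j ^ 2 + z.2 j ^ 2 ≤ 4 := hr j
      exact abs_le_of_sq_le_sq (by nlinarith [sq_nonneg (z.1 j)]) (by norm_num)
    rw [Prod.norm_def]
    exact max_le ((pi_norm_le_iff_of_nonneg (by norm_num)).2 hx)
      ((pi_norm_le_iff_of_nonneg (by norm_num)).2 hy)

/-- The parametrization of the example by angles. -/
noncomputable def par (p : ℝ × ℝ × ℝ × ℝ) : Phase 3 :=
  (![√(2 + cos p.1) * cos p.2.1, √(2 + sin p.1) * cos p.2.2.1,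
      √(2 + sin p.1 * (√(2 + sin p.1) * sin p.2.2.1)) * cos p.2.2.2],
    ![√(2 + cos p.1) * sin p.2.1, √(2 + sin p.1) * sin p.2.2.1,
      √(2 + sin p.1 * (√(2 + sin p.1) * sin p.2.2.1)) * sin p.2.2.2])

theorem continuous_par : Continuous par := by
  refine Continuous.prodMk ?_ ?_
  · refine continuous_pi fun j => ?_
    fin_cases j
    · simp only [Fin.zero_eta, Matrix.cons_val_zero]; fun_prop
    · simp only [Fin.mk_one, Matrix.cons_val_one]; fun_prop
    · simp only [Fin.reduceFinMk, Matrix.cons_val]; fun_prop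
  · refine continuous_pi fun j => ?_
    fin_cases j
    · simp only [Fin.zero_eta, Matrix.cons_val_zero]; fun_prop
    · simp only [Fin.mk_one, Matrix.cons_val_one]; fun_prop
    · simp only [Fin.reduceFinMk, Matrix.cons_val]; fun_prop

theorem rho_par (p : ℝ × ℝ × ℝ × ℝ) :
    rho 0 (par p) = 2 + cos p.1 ∧ rho 1 (par p) = 2 + sin p.1 ∧
      rho 2 (par p) = 2 + sin p.1 * (√(2 + sin p.1) * sin p.2.2.1) := by
  have h0 : 0 ≤ 2 + cos p.1 := by linarith [neg_one_le_cos p.1]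
  have h1 : 0 ≤ 2 + sin p.1 := by linarith [neg_one_le_sin p.1]
  have h2 : 0 ≤ 2 + sin p.1 * (√(2 + sin p.1) * sin p.2.2.1) := by
    have h3 : √(2 + sin p.1) ^ 2 = 2 + sin p.1 := sq_sqrt h1
    have h4 : (sin p.1 * (√(2 + sin p.1) * sin p.2.2.1)) ^ 2 ≤ 4 := by
      rw [mul_pow, mul_pow, h3]
      have e1 : sin p.1 ^ 2 ≤ 1 := sin_sq_le_one _
      have e2 : sin p.2.2.1 ^ 2 ≤ 1 := sin_sq_le_one _
      have e3 : sin p.1 ≤ 1 := sin_le_one _
      calc sin p.1 ^ 2 * ((2 + sin p.1) * sin p.2.2.1 ^ 2)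
          ≤ 1 * ((2 + 1) * 1) := by gcongr
        _ ≤ 4 := by norm_num
    nlinarith
  refine ⟨?_, ?_, ?_⟩
  · change (√(2 + cos p.1) * cos p.2.1) ^ 2 + (√(2 + cos p.1) * sin p.2.1) ^ 2 = _
    rw [mul_pow, mul_pow, sq_sqrt h0, ← mul_add, cos_sq_add_sin_sq, mul_one]
  · change (√(2 + sin p.1) * cos p.2.2.1) ^ 2 + (√(2 + sin p.1) * sin p.2.2.1) ^ 2 = _
    rw [mul_pow, mul_pow, sq_sqrt h1, ← mul_add, cos_sq_add_sin_sq, mul_one]
  · change (√(2 + sin p.1 * (√(2 + sin p.1) * sin p.2.2.1)) * cos p.2.2.2) ^ 2 +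
      (√(2 + sin p.1 * (√(2 + sin p.1) * sin p.2.2.1)) * sin p.2.2.2) ^ 2 = _
    rw [mul_pow, mul_pow, sq_sqrt h2, ← mul_add, cos_sq_add_sin_sq, mul_one]

theorem par_mem (p : ℝ × ℝ × ℝ × ℝ) : par p ∈ exK := by
  obtain ⟨h0, h1, h2⟩ := rho_par p
  refine ⟨?_, ?_⟩
  · rw [h0, h1]
    linear_combination cos_sq_add_sin_sq p.1
  · rw [h1, h2]
    change _ = 2 + (2 + sin p.1 - 2) * (√(2 + sin p.1) * sin p.2.2.1)
    ring

/-- Polar coordinates. -/
theorem exists_polar (x y : ℝ) : ∃ θ, x = √(x ^ 2 + y ^ 2) * cos θ ∧ y = √(x ^ 2 + y ^ 2) * sin θ := by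
  refine ⟨Complex.arg ⟨x, y⟩, ?_, ?_⟩
  · have h := Complex.norm_mul_cos_arg ⟨x, y⟩
    have h2 : ‖(⟨x, y⟩ : ℂ)‖ = √(x ^ 2 + y ^ 2) := by
      rw [Complex.norm_def, Complex.normSq_mk]
      congr 1
      ring
    rw [h2] at h
    exact h.symm
  · have h := Complex.norm_mul_sin_arg ⟨x, y⟩
    have h2 : ‖(⟨x, y⟩ : ℂ)‖ = √(x ^ 2 + y ^ 2) := by
      rw [Complex.norm_def, Complex.normSq_mk]
      congr 1
      ring
    rw [h2] at h
    exact h.symm

theorem range_par : range par = exK := by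
  apply Subset.antisymm
  · rintro _ ⟨p, rfl⟩
    exact par_mem p
  · intro z hz
    obtain ⟨s, hs1, hs2⟩ := exists_polar (rho 0 z - 2) (rho 1 z - 2)
    have hz1 := hz.1
    rw [hz1, sqrt_one, one_mul] at hs1 hs2
    obtain ⟨a, ha1, ha2⟩ := exists_polar (z.1 0) (z.2 0)
    obtain ⟨b, hb1, hb2⟩ := exists_polar (z.1 1) (z.2 1)
    obtain ⟨c, hc1, hc2⟩ := exists_polar (z.1 2) (z.2 2)
    have e0 : z.1 0 ^ 2 + z.2 0 ^ 2 = 2 + cos s := by
      have : rho 0 z = z.1 0 ^ 2 + z.2 0 ^ 2 := rfl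
      linarith
    have e1 : z.1 1 ^ 2 + z.2 1 ^ 2 = 2 + sin s := by
      have : rho 1 z = z.1 1 ^ 2 + z.2 1 ^ 2 := rfl
      linarith
    rw [e0] at ha1 ha2
    rw [e1] at hb1 hb2
    have e2 : z.1 2 ^ 2 + z.2 2 ^ 2 = 2 + sin s * (√(2 + sin s) * sin b) := by
      have h := hz.2
      rw [hs2, ← hb2] at *
      exact h
    rw [e2] at hc1 hc2
    refine ⟨(s, a, b, c), ?_⟩
    refine Prod.ext ?_ ?_
    · funext j
      fin_cases j
      · exact ha1.symm
      · exact hb1.symm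
      · exact hc1.symm
    · funext j
      fin_cases j
      · exact ha2.symm
      · exact hb2.symm
      · exact hc2.symm

theorem isConnected_exK : IsConnected exK := by
  rw [← range_par]
  exact isConnected_range continuous_par

/-- The radial vector field in the `j`-th plane, scaled by `a j`. -/
def rad (a : Fin 3 → ℝ) (z : Phase 3) : Phase 3 := (fun j => a j * z.1 j, fun j => a j * z.2 j)

theorem drho_rad (a : Fin 3 → ℝ) (z : Phase 3) (j : Fin 3) :
    drho j z (rad a z) = 2 * (a j * rho j z) := by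
  simp only [drho, rad, rho]
  ring

theorem isSubmanifold_exK : IsSubmanifold exK 4 := by
  intro z hz
  refine ⟨univ, 2, fun w => ![F1 w, F2 w], isOpen_univ, mem_univ _, rfl, ?_, ?_, ?_⟩
  · refine ContDiff.contDiffOn (contDiff_pi.2 fun j => ?_)
    fin_cases j
    · exact contDiff_F1
    · exact contDiff_F2
  · rintro w ⟨hw, -⟩
    have hsm : ContDiff ℝ ∞ fun w : Phase 3 => ![F1 w, F2 w] := by
      refine contDiff_pi.2 fun j => ?_
      fin_cases j
      · exact contDiff_F1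
      · exact contDiff_F2
    have hfd : ∀ v, fderiv ℝ (fun w : Phase 3 => ![F1 w, F2 w]) w v = ![dF1 w v, dF2 w v] := by
      intro v
      have hline : HasDerivAt (fun t : ℝ => w + t • v) v 0 := by
        simpa using ((hasDerivAt_id (0 : ℝ)).smul_const v).const_add w
      have hw0 : (w + (0 : ℝ) • v) = w := by simp
      have h1 : HasDerivAt (fun t : ℝ => ![F1 (w + t • v), F2 (w + t • v)])
          (fderiv ℝ (fun w : Phase 3 => ![F1 w, F2 w]) w v) 0 := by
        have h : HasFDerivAt (fun w : Phase 3 => ![F1 w, F2 w])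
            (fderiv ℝ (fun w : Phase 3 => ![F1 w, F2 w]) w) (w + (0 : ℝ) • v) := by
          rw [hw0]; exact ((hsm.differentiable (by simp)) w).hasFDerivAt
        exact h.comp_hasDerivAt (0 : ℝ) hline
      have h2 : HasDerivAt (fun t : ℝ => ![F1 (w + t • v), F2 (w + t • v)])
          ![dF1 w v, dF2 w v] 0 := by
        refine hasDerivAt_pi.2 fun j => ?_
        have k1 := hasDerivAt_F1 hline
        have k2 := hasDerivAt_F2 hline
        rw [hw0] at k1 k2
        fin_cases j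
        · exact k1
        · exact k2
      exact h1.unique h2
    intro b
    obtain ⟨h1, -, h2, -, h3, -⟩ := exK_bounds hw
    set β : ℝ := (rho 1 w - 2) / (4 * rho 1 w) * b 0 with hβ
    set α : ℝ := (rho 0 w - 2) / (4 * rho 0 w) * b 0 with hα
    set γ : ℝ := (b 1 + (2 * (β * rho 1 w) * w.2 1 + (rho 1 w - 2) * (β * w.2 1))) / (2 * rho 2 w)
      with hγ
    refine ⟨rad ![α, β, γ] w, ?_⟩
    rw [hfd]
    have d0 := drho_rad ![α, β, γ] w 0
    have d1 := drho_rad ![α, β, γ] w 1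
    have d2 := drho_rad ![α, β, γ] w 2
    have v0 : (![α, β, γ] : Fin 3 → ℝ) 0 = α := rfl
    have v1 : (![α, β, γ] : Fin 3 → ℝ) 1 = β := rfl
    have v2 : (![α, β, γ] : Fin 3 → ℝ) 2 = γ := rfl
    rw [v0] at d0
    rw [v1] at d1
    rw [v2] at d2
    have p0 : rho 0 w ≠ 0 := by linarith
    have p1 : rho 1 w ≠ 0 := by linarith
    have p2 : rho 2 w ≠ 0 := by linarith
    funext j
    fin_cases j
    · change dF1 w (rad ![α, β, γ] w) = b 0
      rw [dF1, d0, d1, hα, hβ]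
      have h := hw.1
      field_simp
      linear_combination (4 * b 0) * h
    · change dF2 w (rad ![α, β, γ] w) = b 1
      have e : (rad ![α, β, γ] w).2 1 = β * w.2 1 := rfl
      rw [dF2, d1, d2, e, hγ]
      field_simp
      ring
  · ext w
    simp only [inter_univ, mem_ofPred_eq, mem_univ, true_and, mem_exK]
    constructor
    · rintro ⟨h1, h2⟩
      rw [h1, h2]
      funext j
      fin_cases j <;> rfl
    · intro h
      exact ⟨congrFun h 0, congrFun h 1⟩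

theorem normalSection_exK : HasNonvanishingNormalSection exK := by
  refine ⟨rad ![0, 0, 1], ?_, fun z hz hmem => ?_⟩
  · refine ContDiff.prodMk (contDiff_pi.2 fun j => ?_) (contDiff_pi.2 fun j => ?_)
    · exact contDiff_const.mul ((contDiff_apply ℝ ℝ j).comp contDiff_fst)
    · exact contDiff_const.mul ((contDiff_apply ℝ ℝ j).comp contDiff_snd)
  · have h := tangent_F2 hmem
    obtain ⟨-, -, -, -, h3, -⟩ := exK_bounds hz
    have d1 := drho_rad ![0, 0, 1] z 1
    have d2 := drho_rad ![0, 0, 1] z 2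
    have v1 : (![0, 0, 1] : Fin 3 → ℝ) 1 = 0 := rfl
    have v2 : (![0, 0, 1] : Fin 3 → ℝ) 2 = 1 := rfl
    rw [v1] at d1
    rw [v2] at d2
    have e : (rad ![0, 0, 1] z).2 1 = 0 * z.2 1 := rfl
    rw [dF2, d1, d2, e] at h
    linarith

/-- The Hamiltonian vector field of `F1`. -/
def XF1 (z : Phase 3) : Phase 3 :=
  (![2 * (rho 0 z - 2) * (2 * z.2 0), 2 * (rho 1 z - 2) * (2 * z.2 1), 0],
    ![-(2 * (rho 0 z - 2) * (2 * z.1 0)), -(2 * (rho 1 z - 2) * (2 * z.1 1)), 0])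

theorem not_coisotropicAt {z : Phase 3} (h : (rho 1 z - 2) * z.1 1 ≠ 0) :
    ¬ IsCoisotropicAt exK z := by
  intro hco
  have h1 : -XF1 z ∈ tangentSpace exK z := by
    refine hco _ fun v hv => ?_
    have h := tangent_F1 hv
    simp only [omega, Fin.sum_univ_three, XF1, Prod.fst_neg, Prod.snd_neg, Pi.neg_apply,
      Matrix.cons_val_zero, Matrix.cons_val_one, Matrix.cons_val]
    simp only [dF1, drho] at h
    linear_combination (-1) * h
  have h2 := tangent_F2 h1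
  simp only [dF2, drho, XF1, Prod.fst_neg, Prod.snd_neg, Pi.neg_apply,
      Matrix.cons_val_zero, Matrix.cons_val_one, Matrix.cons_val] at h2
  apply h
  have h3 : ((rho 1 z - 2) * z.1 1) * (rho 1 z - 2) = 0 := by linear_combination (-1/4) * h2
  rcases mul_eq_zero.1 h3 with h4 | h4
  · exact h4
  · rw [h4, zero_mul]

theorem dense_not_coisotropic : exK ⊆ closure {z ∈ exK | ¬ IsCoisotropicAt exK z} := by
  have hA : Dense {s : ℝ | sin s ≠ 0} := by
    have : {s : ℝ | sin s ≠ 0} = {s : ℝ | sin s = 0}ᶜ := rfl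
    rw [this]
    refine Set.Countable.dense_compl ℝ ((countable_range fun n : ℤ => (n : ℝ) * π).mono ?_)
    intro s hs
    obtain ⟨n, hn⟩ := sin_eq_zero_iff.1 hs
    exact ⟨n, hn⟩
  have hB : Dense {s : ℝ | cos s ≠ 0} := by
    have : {s : ℝ | cos s ≠ 0} = {s : ℝ | cos s = 0}ᶜ := rfl
    rw [this]
    refine Set.Countable.dense_compl ℝ ((countable_range fun n : ℤ => (2 * (n : ℝ) + 1) * π / 2).mono ?_)
    intro s hs
    obtain ⟨n, hn⟩ := cos_eq_zero_iff.1 hs
    exact ⟨n, hn.symm⟩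
  have hD : Dense ({s : ℝ | sin s ≠ 0} ×ˢ ((univ : Set ℝ) ×ˢ ({s : ℝ | cos s ≠ 0} ×ˢ (univ : Set ℝ)))) :=
    hA.prod (dense_univ.prod (hB.prod dense_univ))
  rw [← range_par, ← image_univ, ← hD.closure_eq]
  refine (image_closure_subset_closure_image continuous_par).trans (closure_mono ?_)
  rintro _ ⟨⟨s, a, b, c⟩, ⟨hs, -, hb, -⟩, rfl⟩
  rw [hD.closure_eq, image_univ, range_par]
  refine ⟨par_mem _, not_coisotropicAt ?_⟩
  obtain ⟨-, h1, -⟩ := rho_par (s, a, b, c)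
  rw [h1]
  change (2 + sin s - 2) * (√(2 + sin s) * cos b) ≠ 0
  have hpos : 0 < 2 + sin s := by linarith [neg_one_le_sin s]
  have := (sqrt_pos.2 hpos).ne'
  have e : 2 + sin s - 2 = sin s := by ring
  rw [e]
  exact mul_ne_zero hs (mul_ne_zero this hb)

theorem exK_packing {P : Set (Set (Phase 3))} (hP : IsPacking exK P) : P.Countable := by
  refine packing_countable ![√3, √2, √2] (by norm_num) ?_ ?_ hP
  · intro j
    fin_cases j
    · exact sqrt_pos.2 (by norm_num)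
    · exact sqrt_pos.2 (by norm_num)
    · exact sqrt_pos.2 (by norm_num)
  · intro z hz
    have h0 : z.1 0 ^ 2 + z.2 0 ^ 2 = √3 ^ 2 := hz 0
    have h1 : z.1 1 ^ 2 + z.2 1 ^ 2 = √2 ^ 2 := hz 1
    have h2 : z.1 2 ^ 2 + z.2 2 ^ 2 = √2 ^ 2 := hz 2
    rw [sq_sqrt (by norm_num)] at h0 h1 h2
    refine ⟨?_, ?_⟩
    · simp only [rho, h0, h1]
      norm_num
    · simp only [rho, h1, h2]
      norm_num

end Q169.Pack
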