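import Pool.Agent.Q169.PackDefs

/-!
Hamiltonian diffeomorphisms of `ℝ²ⁿ` are exact.
-/

set_option autoImplicit false

open Set MeasureTheory
open scoped ContDiff Topology

namespace Q169.Pack

variable {n : ℕ}

/-- `ω` as a bilinear map. -/
noncomputable def omL (n : ℕ) : Phase n →ₗ[ℝ] Phase n →ₗ[ℝ] ℝ :=
  LinearMap.mk₂ ℝ omega
    (fun u u' v => by simp only [omega, ← Finset.sum_add_distrib]; congr 1; ext i
                      simp; ring)
    (fun c u v => by simp only [omega, smul_eq_mul, Finset.mul_sum]; congr 1; ext i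
                     simp; ring)
    (fun u v v' => by simp only [omega, ← Finset.sum_add_distrib]; congr 1; ext i
                      simp; ring)
    (fun c u v => by simp only [omega, smul_eq_mul, Finset.mul_sum]; congr 1; ext i
                     simp; ring)

/-- `ω` as a continuous bilinear map. -/
noncomputable def omB (n : ℕ) : Phase n →L[ℝ] Phase n →L[ℝ] ℝ := (omL n).toContinuousBilinearMap

@[simp] theorem omB_apply (u v : Phase n) : omB n u v = omega u v := rfl

theorem omega_skew (u v : Phase n) : omega u v = - omega v u := by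
  simp only [omega, ← Finset.sum_neg_distrib]
  congr 1; ext i; ring

/-- Differentiation under the integral sign. -/
theorem hasFDerivAt_integral {E F : Type*} [NormedAddCommGroup E] [NormedSpace ℝ E]
    [FiniteDimensional ℝ E] [NormedAddCommGroup F] [NormedSpace ℝ F] [CompleteSpace F]
    {G : ℝ × E → F} (hG : ContDiff ℝ 1 G) (z : E) :
    HasFDerivAt (fun w => ∫ t in (0 : ℝ)..1, G (t, w))
      (∫ t in (0 : ℝ)..1, (fderiv ℝ G (t, z)).comp (ContinuousLinearMap.inr ℝ ℝ E)) z := by
  have : ProperSpace E := FiniteDimensional.proper ℝ E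
  have hc : Continuous fun p : ℝ × E =>
      (fderiv ℝ G p).comp (ContinuousLinearMap.inr ℝ ℝ E) :=
    (hG.continuous_fderiv one_ne_zero).clm_comp continuous_const
  obtain ⟨C, hC⟩ := (isCompact_Icc.prod (isCompact_closedBall z 1) :
    IsCompact (Icc (0 : ℝ) 1 ×ˢ Metric.closedBall z 1)).exists_bound_of_continuousOn hc.continuousOn
  refine intervalIntegral.hasFDerivAt_integral_of_dominated_of_fderiv_le
    (F := fun w t => G (t, w))
    (F' := fun w t => (fderiv ℝ G (t, w)).comp (ContinuousLinearMap.inr ℝ ℝ E))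
    (bound := fun _ => C) (Metric.closedBall_mem_nhds z one_pos) ?_ ?_ ?_ ?_ ?_ ?_
  · exact Filter.Eventually.of_forall fun w =>
      (hG.continuous.comp (by fun_prop)).aestronglyMeasurable
  · exact (hG.continuous.comp (by fun_prop)).intervalIntegrable _ _
  · exact (hc.comp (by fun_prop)).aestronglyMeasurable
  · refine Filter.Eventually.of_forall fun t ht w hw => hC (t, w) ⟨?_, hw⟩
    rw [uIoc_of_le zero_le_one] at ht
    exact Ioc_subset_Icc_self ht
  · exact intervalIntegrable_const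
  · refine Filter.Eventually.of_forall fun t _ w _ => ?_
    have h1 : HasFDerivAt G (fderiv ℝ G (t, w)) (t, w) :=
      ((hG.differentiable one_ne_zero) (t, w)).hasFDerivAt
    have h2 : HasFDerivAt (fun w : E => (t, w)) (ContinuousLinearMap.inr ℝ ℝ E) w :=
      hasFDerivAt_prodMk_right t w
    exact h1.comp w h2

/-- `φ^* λ - λ` is exact, where `2 λ_z (v) = ω (z, v)`. -/
def IsExactMap (φ : Phase n → Phase n) : Prop :=
  ∃ S : Phase n → ℝ, ∀ z, ∃ S' : Phase n →L[ℝ] ℝ, HasFDerivAt S S' z ∧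
    ∀ v, S' v = omega (φ z) (fderiv ℝ φ z v) - omega z v

theorem IsHamDiffeo.exact {φ : Phase n → Phase n} (h : IsHamDiffeo φ) : IsExactMap φ := by
  obtain ⟨H, Φ, hH, -, hΦ, h0, hfl, h1, -⟩ := h
  -- derivative in time and space
  have hd : ∀ p, HasFDerivAt Φ (fderiv ℝ Φ p) p := fun p =>
    ((hΦ.differentiable (by simp)) p).hasFDerivAt
  have hDc : ContDiff ℝ ∞ (fderiv ℝ Φ) := hΦ.fderiv_right (by simp)
  have hdd : ∀ p, HasFDerivAt (fderiv ℝ Φ) (fderiv ℝ (fderiv ℝ Φ) p) p := fun p =>
    ((hDc.differentiable (by simp)) p).hasFDerivAt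
  have hsymm : ∀ p u v, fderiv ℝ (fderiv ℝ Φ) p u v = fderiv ℝ (fderiv ℝ Φ) p v u := fun p u v =>
    (hΦ.contDiffAt.isSymmSndFDerivAt (by simp; exact WithTop.coe_le_coe.2 (le_top (a := (2 : ℕ∞))))).eq u v
  let G : ℝ × Phase n → ℝ := fun p =>
    omega (Φ p) (fderiv ℝ Φ p (1, 0)) + 2 * H (p.1, Φ p)
  have hG : ContDiff ℝ ∞ G := by
    have e1 : ContDiff ℝ ∞ fun p => omB n (Φ p) (fderiv ℝ Φ p (1, 0)) :=
      ((omB n).contDiff.comp hΦ).clm_apply (hDc.clm_apply contDiff_const)
    have e2 : ContDiff ℝ ∞ fun p : ℝ × Phase n => H (p.1, Φ p) :=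
      hH.comp (contDiff_fst.prodMk hΦ)
    exact e1.add (contDiff_const.mul e2)
  -- time derivative at fixed `z`
  have htime : ∀ t z, HasDerivAt (fun s => Φ (s, z)) (fderiv ℝ Φ (t, z) (1, 0)) t := by
    intro t z
    have e : HasDerivAt (fun s : ℝ => (s, z)) ((1 : ℝ), (0 : Phase n)) t :=
      (hasDerivAt_id t).prodMk (hasDerivAt_const t z)
    exact (hd (t, z)).comp_hasDerivAt t e
  have hspace : ∀ t z, HasFDerivAt (fun w => Φ (t, w))
      ((fderiv ℝ Φ (t, z)).comp (ContinuousLinearMap.inr ℝ ℝ (Phase n))) z := by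
    intro t z
    exact (hd (t, z)).comp z (hasFDerivAt_prodMk_right t z)
  -- the main identity
  have key : ∀ t ∈ Icc (0 : ℝ) 1, ∀ z v, HasDerivAt
      (fun s => omega (Φ (s, z)) (fderiv ℝ Φ (s, z) (0, v))) (fderiv ℝ G (t, z) (0, v)) t := by
    intro t ht z v
    have e : HasDerivAt (fun s : ℝ => (s, z)) ((1 : ℝ), (0 : Phase n)) t :=
      (hasDerivAt_id t).prodMk (hasDerivAt_const t z)
    have a1 := htime t z
    have a2 : HasDerivAt (fun s => fderiv ℝ Φ (s, z) (0, v))
        (fderiv ℝ (fderiv ℝ Φ) (t, z) (1, 0) (0, v)) t := by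
      have := (hdd (t, z)).comp_hasDerivAt t e
      exact this.clm_apply (hasDerivAt_const t _) |>.congr_deriv (by simp)
    have a3 : HasDerivAt (fun s => omB n (Φ (s, z)) (fderiv ℝ Φ (s, z) (0, v)))
        (omega (Φ (t, z)) (fderiv ℝ (fderiv ℝ Φ) (t, z) (1, 0) (0, v)) +
          omega (fderiv ℝ Φ (t, z) (1, 0)) (fderiv ℝ Φ (t, z) (0, v))) t := by
      have := (((omB n).hasFDerivAt.comp_hasDerivAt t a1).clm_apply a2)
      exact this.congr_deriv (by simp [add_comm])
    -- the derivative of `G`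
    have b1 : HasFDerivAt (fun p => fderiv ℝ Φ p (1, 0))
        ((fderiv ℝ (fderiv ℝ Φ) (t, z)).flip (1, 0)) (t, z) := by
      have := (hdd (t, z)).clm_apply (hasFDerivAt_const ((1 : ℝ), (0 : Phase n)) (t, z))
      exact this.congr_fderiv (by ext u <;> simp)
    have b2 := (omB n).hasFDerivAt_of_bilinear (hd (t, z)) b1
    have b3 : HasFDerivAt (fun p : ℝ × Phase n => H (p.1, Φ p))
        ((fderiv ℝ H (t, Φ (t, z))).comp ((ContinuousLinearMap.fst ℝ ℝ (Phase n)).prod
          (fderiv ℝ Φ (t, z)))) (t, z) := by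
      have c1 : HasFDerivAt H (fderiv ℝ H (t, Φ (t, z))) (t, Φ (t, z)) :=
        ((hH.differentiable (by simp)) _).hasFDerivAt
      exact HasFDerivAt.comp (t, z) c1 (hasFDerivAt_fst.prodMk (hd (t, z)))
    have b4 : HasFDerivAt G _ (t, z) := b2.add (b3.const_mul 2)
    have b5 := b4.fderiv
    have b6 : fderiv ℝ G (t, z) (0, v) =
        omega (Φ (t, z)) (fderiv ℝ (fderiv ℝ Φ) (t, z) (1, 0) (0, v)) +
          omega (fderiv ℝ Φ (t, z) (1, 0)) (fderiv ℝ Φ (t, z) (0, v)) := by
      rw [b5]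
      have c2 : fderiv ℝ H (t, Φ (t, z)) (0, fderiv ℝ Φ (t, z) (0, v)) =
          omega (fderiv ℝ Φ (t, z) (1, 0)) (fderiv ℝ Φ (t, z) (0, v)) := by
        have c3 := hfl t ht z (fderiv ℝ Φ (t, z) (0, v))
        rw [(htime t z).deriv] at c3
        rw [c3]
        have c1 : HasFDerivAt H (fderiv ℝ H (t, Φ (t, z))) (t, Φ (t, z)) :=
          ((hH.differentiable (by simp)) _).hasFDerivAt
        have c4 := (c1.comp (Φ (t, z)) (hasFDerivAt_prodMk_right t (Φ (t, z)))).fderiv
        have c5 : (fun w => H (t, w)) = H ∘ (fun w => (t, w)) := rfl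
        rw [c5, c4]
        simp
      have c6 := hsymm (t, z) (0, v) (1, 0)
      simp only [add_apply, smul_apply,
        ContinuousLinearMap.comp_apply, ContinuousLinearMap.prod_apply,
        ContinuousLinearMap.coe_fst', smul_eq_mul]
      rw [c2]
      simp only [ContinuousLinearMap.precompR_apply, ContinuousLinearMap.precompL_apply,
        ContinuousLinearMap.compL_apply, ContinuousLinearMap.comp_apply,
        ContinuousLinearMap.flip_apply, omB_apply]
      rw [c6, omega_skew (fderiv ℝ Φ (t, z) (0, v))]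
      ring
    rw [b6]
    exact a3
  refine ⟨fun z => ∫ t in (0 : ℝ)..1, G (t, z), fun z => ⟨_, hasFDerivAt_integral (hG.of_le (by simp)) z, ?_⟩⟩
  intro v
  have hcont : Continuous fun t : ℝ => (fderiv ℝ G (t, z)).comp (ContinuousLinearMap.inr ℝ ℝ (Phase n)) :=
    ((hG.continuous_fderiv (by simp)).comp (by fun_prop)).clm_comp continuous_const
  rw [ContinuousLinearMap.intervalIntegral_apply (hcont.intervalIntegrable _ _)]
  have hint : ∫ t in (0 : ℝ)..1, ((fderiv ℝ G (t, z)).comp (ContinuousLinearMap.inr ℝ ℝ (Phase n))) v =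
      omega (Φ (1, z)) (fderiv ℝ Φ (1, z) (0, v)) - omega (Φ (0, z)) (fderiv ℝ Φ (0, z) (0, v)) := by
    refine intervalIntegral.integral_eq_sub_of_hasDerivAt (f := fun s => omega (Φ (s, z)) (fderiv ℝ Φ (s, z) (0, v))) ?_ ?_
    · intro t ht
      rw [uIcc_of_le zero_le_one] at ht
      have := key t ht z v
      simpa using this
    · exact (hcont.clm_apply continuous_const).intervalIntegrable _ _
  rw [hint]
  have hφ : φ = fun z => Φ (1, z) := funext h1
  have e1 : fderiv ℝ φ z v = fderiv ℝ Φ (1, z) (0, v) := by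
    rw [hφ, (hspace 1 z).fderiv]
    simp
  have e0 : fderiv ℝ Φ (0, z) (0, v) = v := by
    have h2 : (fun w => Φ (0, w)) = id := funext h0
    have h3 := (hspace 0 z).fderiv
    rw [h2, fderiv_id] at h3
    have := congrArg (fun L => L v) h3
    simpa using this.symm
  rw [e0, h0, e1, h1]

end Q169.Pack
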