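import Mathlib

/-!
Auxiliary facts for `MP_bef951_gt`: a homeomorphism of the line which is a locally uniform limit of
diffeomorphisms and maps a compact set of positive measure onto a null set; linear symplectic maps
have determinant `± 1`; measures of compact sets do not decrease under locally uniform limits.
-/

set_option autoImplicit false

open MeasureTheory Set Filter Topology
open scoped ContDiff

namespace Q169.PoissonZero

/-! ### One-dimensional part -/

/-- A compact subset of `[0,1]` of positive measure whose complement is dense. -/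
theorem exists_fat : ∃ A : Set ℝ, IsCompact A ∧ A ⊆ Icc 0 1 ∧ 0 < volume A ∧ Dense Aᶜ := by
  have h0 : volume (range ((↑) : ℚ → ℝ)) < ENNReal.ofReal (1 / 2) := by
    rw [(countable_range _).measure_zero]
    simp
  obtain ⟨U, hU, hUo, hUm⟩ := Set.exists_isOpen_lt_of_lt _ _ h0
  refine ⟨Icc 0 1 \ U, isCompact_Icc.diff hUo, sdiff_subset, ?_, ?_⟩
  · have h1 : volume (Icc (0 : ℝ) 1) ≤ volume (Icc (0 : ℝ) 1 \ U) + volume U := by
      refine (measure_mono ?_).trans (measure_union_le _ _)
      intro x hx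
      by_cases hxU : x ∈ U
      · exact Or.inr hxU
      · exact Or.inl ⟨hx, hxU⟩
    rw [Real.volume_Icc] at h1
    by_contra hcon
    have h2 : volume (Icc (0 : ℝ) 1 \ U) = 0 := le_antisymm (not_lt.1 hcon) zero_le
    rw [h2, zero_add] at h1
    have h3 := lt_of_le_of_lt h1 hUm
    rw [ENNReal.ofReal_lt_ofReal_iff (by norm_num)] at h3
    norm_num at h3
  · have : Dense (range ((↑) : ℚ → ℝ)) := Rat.denseRange_cast
    refine this.mono ?_
    intro x hx hx2
    exact hx2.2 (hU hx)

section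

variable (A : Set ℝ)

/-- `x ↦ ∫₀ˣ 1_{Aᶜ}`. -/
noncomputable def g (x : ℝ) : ℝ := ∫ t in (0 : ℝ)..x, (Aᶜ).indicator (fun _ => (1 : ℝ)) t

variable {A}

theorem intble (hA : IsCompact A) (a b : ℝ) :
    IntervalIntegrable ((Aᶜ).indicator (fun _ => (1 : ℝ))) volume a b := by
  rw [intervalIntegrable_iff]
  refine Integrable.indicator ?_ hA.measurableSet.compl
  have : IntegrableOn (fun _ : ℝ => (1 : ℝ)) (uIoc a b) volume := by
    rw [← intervalIntegrable_iff]
    exact intervalIntegrable_const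
  exact this

theorem g_sub (hA : IsCompact A) (a b : ℝ) :
    g A b - g A a = ∫ t in a..b, (Aᶜ).indicator (fun _ => (1 : ℝ)) t := by
  unfold g
  rw [intervalIntegral.integral_interval_sub_left (intble hA _ _) (intble hA _ _)]

theorem g_sub_eq (hA : IsCompact A) {a b : ℝ} (hab : a ≤ b) :
    ENNReal.ofReal (g A b - g A a) = volume (Ioc a b ∩ Aᶜ) := by
  rw [g_sub hA, intervalIntegral.integral_of_le hab, integral_indicator hA.measurableSet.compl,
    Measure.restrict_restrict hA.measurableSet.compl, inter_comm]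
  rw [setIntegral_const]
  simp only [smul_eq_mul, mul_one, Measure.real]
  rw [ENNReal.ofReal_toReal]
  exact ne_top_of_le_ne_top (by simp) (measure_mono inter_subset_left)

theorem g_le (hA : IsCompact A) {a b : ℝ} (hab : a ≤ b) : g A b - g A a ≤ b - a := by
  have h := g_sub_eq hA hab
  have h2 : volume (Ioc a b ∩ Aᶜ) ≤ ENNReal.ofReal (b - a) := by
    rw [← Real.volume_Ioc]
    exact measure_mono inter_subset_left
  rw [← h] at h2
  exact (ENNReal.ofReal_le_ofReal_iff (by linarith)).1 h2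

theorem g_nonneg (hA : IsCompact A) {a b : ℝ} (hab : a ≤ b) : 0 ≤ g A b - g A a := by
  rw [g_sub hA]
  exact intervalIntegral.integral_nonneg hab fun t _ => indicator_nonneg (fun _ _ => zero_le_one) t

theorem g_strictMono (hA : IsCompact A) (hd : Dense Aᶜ) : StrictMono (g A) := by
  intro a b hab
  have h1 : (Ioo a b ∩ Aᶜ).Nonempty := hd.inter_open_nonempty _ isOpen_Ioo (nonempty_Ioo.2 hab)
  have h2 : 0 < volume (Ioo a b ∩ Aᶜ) :=
    (isOpen_Ioo.inter hA.isClosed.isOpen_compl).measure_pos _ h1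
  have h3 : 0 < volume (Ioc a b ∩ Aᶜ) :=
    lt_of_lt_of_le h2 (measure_mono (inter_subset_inter_left _ Ioo_subset_Ioc_self))
  rw [← g_sub_eq hA hab.le, ENNReal.ofReal_pos] at h3
  linarith

theorem g_dist (hA : IsCompact A) (a b : ℝ) : dist (g A a) (g A b) ≤ dist a b := by
  rw [Real.dist_eq, Real.dist_eq]
  rcases le_total a b with h | h
  · rw [abs_sub_comm, abs_sub_comm a b, abs_of_nonneg (g_nonneg hA h), abs_of_nonneg (by linarith)]
    exact g_le hA h
  · rw [abs_of_nonneg (g_nonneg hA h), abs_of_nonneg (by linarith)]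
    exact g_le hA h

theorem g_continuous (hA : IsCompact A) : Continuous (g A) :=
  (LipschitzWith.of_dist_le_mul (K := 1) (by simpa using g_dist hA)).continuous

theorem g_lower (hA : IsCompact A) (h01 : A ⊆ Icc 0 1) {x : ℝ} (hx : 0 ≤ x) : x - 1 ≤ g A x := by
  have h0 : g A 0 = 0 := by simp [g]
  have h := g_sub_eq hA hx
  rw [h0, sub_zero] at h
  have h1 : volume (Ioc 0 x) ≤ volume (Ioc 0 x ∩ Aᶜ) + volume (Icc (0 : ℝ) 1) := by
    refine (measure_mono ?_).trans (measure_union_le _ _)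
    intro t ht
    by_cases hA' : t ∈ A
    · exact Or.inr (h01 hA')
    · exact Or.inl ⟨ht, hA'⟩
  rw [← h, Real.volume_Ioc, Real.volume_Icc, ← ENNReal.ofReal_add (by
    have := g_nonneg hA hx; rwa [h0, sub_zero] at this) (by norm_num)] at h1
  have h2 := (ENNReal.ofReal_le_ofReal_iff (by
    have := g_nonneg hA hx; rw [h0, sub_zero] at this; linarith)).1 h1
  linarith

theorem g_neg (hA : IsCompact A) (h01 : A ⊆ Icc 0 1) {x : ℝ} (hx : x ≤ 0) : g A x = x := by
  have h0 : g A 0 = 0 := by simp [g]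
  have h := g_sub hA x 0
  rw [h0, zero_sub, intervalIntegral.integral_of_le hx] at h
  have : ∫ t in Ioc x 0, (Aᶜ).indicator (fun _ => (1 : ℝ)) t = ∫ t in Ioc x 0, (1 : ℝ) := by
    refine setIntegral_congr_ae measurableSet_Ioc ?_
    have hz : ∀ᵐ t : ℝ, t ≠ 0 := by
      rw [ae_iff]
      simp
    filter_upwards [hz] with t ht htx
    rw [indicator_of_mem]
    intro htA
    have := (h01 htA).1
    exact ht (le_antisymm htx.2 this)
  rw [this] at h
  simp at h
  rw [max_eq_left (by linarith)] at h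
  linarith

theorem tendsto_top_of_lower {f : ℝ → ℝ} {C : ℝ} (h : ∀ x, 0 ≤ x → x - C ≤ f x) :
    Tendsto f atTop atTop := by
  refine tendsto_atTop_mono' _ ?_ (tendsto_atTop_add_const_right _ (-C) tendsto_id)
  filter_upwards [eventually_ge_atTop 0] with x hx
  simpa [sub_eq_add_neg] using h x hx

theorem tendsto_bot_of_upper {f : ℝ → ℝ} {C : ℝ} (h : ∀ x, x ≤ 0 → f x ≤ x + C) :
    Tendsto f atBot atBot := by
  refine tendsto_atBot_mono' _ ?_ (tendsto_atBot_add_const_right _ C tendsto_id)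
  filter_upwards [eventually_le_atBot 0] with x hx
  simpa using h x hx

theorem g_surjective (hA : IsCompact A) (h01 : A ⊆ Icc 0 1) : Function.Surjective (g A) :=
  (g_continuous hA).surjective (tendsto_top_of_lower (C := 1) fun _ hx => g_lower hA h01 hx)
    (tendsto_bot_of_upper (C := 0) fun x hx => by rw [g_neg hA h01 hx]; simp)

/-- `g` as a homeomorphism. -/
noncomputable def gHomeo (hA : IsCompact A) (h01 : A ⊆ Icc 0 1) (hd : Dense Aᶜ) : ℝ ≃ₜ ℝ :=
  ((g_strictMono hA hd).orderIsoOfSurjective _ (g_surjective hA h01)).toHomeomorph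

theorem gHomeo_apply (hA : IsCompact A) (h01 : A ⊆ Icc 0 1) (hd : Dense Aᶜ) (x : ℝ) :
    gHomeo hA h01 hd x = g A x := rfl

theorem map_symm_eq (hA : IsCompact A) (h01 : A ⊆ Icc 0 1) (hd : Dense Aᶜ) :
    volume.map (gHomeo hA h01 hd).symm = volume.restrict Aᶜ := by
  symm
  refine Measure.ext_of_Ioc _ _ ?_
  intro a b hab
  rw [Measure.restrict_apply measurableSet_Ioc, ← g_sub_eq hA hab.le,
    Measure.map_apply (gHomeo hA h01 hd).symm.measurable measurableSet_Ioc]
  have : (gHomeo hA h01 hd).symm ⁻¹' Ioc a b = Ioc (g A a) (g A b) := by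
    ext y
    obtain ⟨x, rfl⟩ := (gHomeo hA h01 hd).surjective y
    simp only [mem_preimage, Homeomorph.symm_apply_apply, mem_Ioc]
    rw [gHomeo_apply, (g_strictMono hA hd).lt_iff_lt, (g_strictMono hA hd).le_iff_le]
  rw [this, Real.volume_Ioc]

theorem volume_image_g (hA : IsCompact A) (h01 : A ⊆ Icc 0 1) (hd : Dense Aᶜ) :
    volume (g A '' A) = 0 := by
  have h : g A '' A = (gHomeo hA h01 hd).symm ⁻¹' A := by
    rw [← Homeomorph.image_eq_preimage_symm]
    rfl
  rw [h, ← Measure.map_apply (gHomeo hA h01 hd).symm.measurable hA.measurableSet,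
    map_symm_eq, Measure.restrict_apply hA.measurableSet]
  simp

end

/-! ### Approximation by diffeomorphisms -/

/-- The bump used for mollification. -/
noncomputable def bump (k : ℕ) : ContDiffBump (0 : ℝ) where
  rIn := 1 / (k + 1) / 2
  rOut := 1 / (k + 1)
  rIn_pos := by positivity
  rIn_lt_rOut := by
    have : (0 : ℝ) < 1 / (k + 1) := by positivity
    linarith

/-- Mollification of `f`. -/
noncomputable def moll (f : ℝ → ℝ) (k : ℕ) : ℝ → ℝ :=
  convolution ((bump k).normed volume) f (ContinuousLinearMap.lsmul ℝ ℝ) volume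

theorem moll_eq (f : ℝ → ℝ) (k : ℕ) (x : ℝ) :
    moll f k x = ∫ t, (bump k).normed volume t * f (x - t) := rfl

theorem moll_contDiff {f : ℝ → ℝ} (hf : Continuous f) (k : ℕ) : ContDiff ℝ ∞ (moll f k) := by
  unfold moll
  exact HasCompactSupport.contDiff_convolution_left _ (bump k).hasCompactSupport_normed
    (bump k).contDiff_normed hf.locallyIntegrable

theorem moll_dist {f : ℝ → ℝ} (hf : ∀ a b, dist (f a) (f b) ≤ dist a b) (k : ℕ) (x : ℝ) :
    dist (moll f k x) (f x) ≤ 1 / (k + 1) := by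
  have hc : Continuous f := (LipschitzWith.of_dist_le_mul (K := 1) (by simpa using hf)).continuous
  refine ContDiffBump.dist_normed_convolution_le hc.aestronglyMeasurable ?_
  intro y hy
  exact (hf y x).trans (le_of_lt hy)

theorem moll_mono {f : ℝ → ℝ} (hf : Continuous f) (hm : Monotone f) (k : ℕ) :
    Monotone (moll f k) := by
  intro x y hxy
  rw [moll_eq, moll_eq]
  have hint : ∀ z : ℝ, Integrable (fun t => (bump k).normed volume t * f (z - t)) := fun z =>
    ((bump k).continuous_normed.mul (hf.comp (by fun_prop))).integrable_of_hasCompactSupport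
      ((bump k).hasCompactSupport_normed.mul_right)
  refine integral_mono (hint x) (hint y) fun t => ?_
  exact mul_le_mul_of_nonneg_left (hm (by linarith)) ((bump k).nonneg_normed t)

/-- The approximating diffeomorphisms. -/
noncomputable def appr (f : ℝ → ℝ) (k : ℕ) (x : ℝ) : ℝ := moll f k x + 1 / (k + 1) * x

theorem appr_contDiff {f : ℝ → ℝ} (hf : Continuous f) (k : ℕ) : ContDiff ℝ ∞ (appr f k) :=
  (moll_contDiff hf k).add (contDiff_const.mul contDiff_id)

theorem appr_hasDerivAt {f : ℝ → ℝ} (hf : Continuous f) (k : ℕ) (x : ℝ) :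
    HasDerivAt (appr f k) (deriv (moll f k) x + 1 / (k + 1)) x := by
  have h1 : HasDerivAt (moll f k) (deriv (moll f k) x) x :=
    ((moll_contDiff hf k).differentiable (by simp) x).hasDerivAt
  have h2 : HasDerivAt (fun x : ℝ => 1 / ((k : ℝ) + 1) * x) (1 / ((k : ℝ) + 1)) x := by
    simpa using (hasDerivAt_id x).const_mul (1 / ((k : ℝ) + 1))
  exact h1.add h2

theorem appr_deriv_pos {f : ℝ → ℝ} (hf : Continuous f) (hm : Monotone f) (k : ℕ) (x : ℝ) :
    0 < deriv (moll f k) x + 1 / (k + 1) := by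
  have h1 := (moll_mono hf hm k).deriv_nonneg (x := x)
  have h2 : (0 : ℝ) < 1 / (k + 1) := by positivity
  linarith

theorem appr_strictMono {f : ℝ → ℝ} (hf : Continuous f) (hm : Monotone f) (k : ℕ) :
    StrictMono (appr f k) := by
  refine strictMono_of_deriv_pos fun x => ?_
  rw [(appr_hasDerivAt hf k x).deriv]
  exact appr_deriv_pos hf hm k x

theorem one_div_le_one (k : ℕ) : (1 : ℝ) / (k + 1) ≤ 1 := by
  rw [div_le_one (by positivity)]
  have : (0 : ℝ) ≤ k := k.cast_nonneg
  linarith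

theorem appr_surjective {f : ℝ → ℝ} (hf : ∀ a b, dist (f a) (f b) ≤ dist a b) (C : ℝ) (h1 : ∀ x, 0 ≤ x → x - C ≤ f x) (h2 : ∀ x, x ≤ 0 → f x ≤ x + C)
    (k : ℕ) : Function.Surjective (appr f k) := by
  have hc : Continuous f := (LipschitzWith.of_dist_le_mul (K := 1) (by simpa using hf)).continuous
  have hk : (0 : ℝ) < 1 / (k + 1) := by positivity
  have hk1 := one_div_le_one k
  refine (appr_contDiff hc k).continuous.surjective
    (tendsto_top_of_lower (C := C + 1) fun x hx => ?_)
    (tendsto_bot_of_upper (C := C + 1) fun x hx => ?_)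
  · have h3 := abs_le.1 (moll_dist hf k x)
    have h4 := h1 x hx
    have h5 : 0 ≤ 1 / ((k : ℝ) + 1) * x := by positivity
    unfold appr
    linarith [h3.1]
  · have h3 := abs_le.1 (moll_dist hf k x)
    have h4 := h2 x hx
    have h5 : 1 / ((k : ℝ) + 1) * x ≤ 0 := mul_nonpos_of_nonneg_of_nonpos hk.le hx
    unfold appr
    linarith [h3.2]

/-- The approximating diffeomorphisms as homeomorphisms. -/
noncomputable def apprHomeo {f : ℝ → ℝ} (hf : ∀ a b, dist (f a) (f b) ≤ dist a b)
    (hm : Monotone f) (C : ℝ) (h1 : ∀ x, 0 ≤ x → x - C ≤ f x) (h2 : ∀ x, x ≤ 0 → f x ≤ x + C)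
    (k : ℕ) : ℝ ≃ₜ ℝ :=
  ((appr_strictMono (LipschitzWith.of_dist_le_mul (K := 1) (by simpa using hf)).continuous hm
    k).orderIsoOfSurjective _ (appr_surjective hf C h1 h2 k)).toHomeomorph

theorem appr_tendsto {f : ℝ → ℝ} (hf : ∀ a b, dist (f a) (f b) ≤ dist a b) (R : ℝ) (hR : 0 ≤ R)
    (k : ℕ) (x : ℝ) (hx : |x| ≤ R) : dist (f x) (appr f k x) ≤ (1 + R) * (1 / (k + 1)) := by
  have hk : (0 : ℝ) < 1 / (k + 1) := by positivity
  have h3 := moll_dist hf k x
  rw [dist_comm, Real.dist_eq] at *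
  unfold appr
  have h4 : |1 / ((k : ℝ) + 1) * x| ≤ 1 / (k + 1) * R := by
    rw [abs_mul, abs_of_pos hk]
    exact mul_le_mul_of_nonneg_left hx hk.le
  calc |moll f k x + 1 / (k + 1) * x - f x| = |(moll f k x - f x) + 1 / (k + 1) * x| := by
        ring_nf
    _ ≤ |moll f k x - f x| + |1 / (k + 1) * x| := abs_add_le _ _
    _ ≤ 1 / (k + 1) + 1 / (k + 1) * R := by
        rw [abs_sub_comm] at h3
        gcongr
    _ = _ := by ring

/-- Main one-dimensional statement. -/
theorem exists_line : ∃ (A : Set ℝ) (φ : ℝ ≃ₜ ℝ) (f : ℕ → ℝ ≃ₜ ℝ), IsCompact A ∧ 0 < volume A ∧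
    volume (φ '' A) = 0 ∧ (∀ k, ContDiff ℝ ∞ (f k) ∧ ContDiff ℝ ∞ (f k).symm) ∧
    ∀ R : ℝ, 0 ≤ R → ∀ (k : ℕ) (x : ℝ), |x| ≤ R →
      dist (φ x) (f k x) ≤ (1 + R) * (1 / (k + 1)) := by
  obtain ⟨A, hA, h01, hpos, hd⟩ := exists_fat
  have hf := g_dist hA
  have hc : Continuous (g A) := g_continuous hA
  have hm : Monotone (g A) := (g_strictMono hA hd).monotone
  have h1 : ∀ x, 0 ≤ x → x - 1 ≤ g A x := fun _ hx => g_lower hA h01 hx
  have h2 : ∀ x, x ≤ 0 → g A x ≤ x + 1 := fun x hx => by rw [g_neg hA h01 hx]; linarith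
  refine ⟨A, gHomeo hA h01 hd, fun k => apprHomeo hf hm 1 h1 h2 k, hA, hpos,
    volume_image_g hA h01 hd, fun k => ⟨appr_contDiff hc k, ?_⟩,
    fun R hR k x hx => appr_tendsto hf R hR k x hx⟩
  exact Homeomorph.contDiff_symm_deriv _ (fun x => (appr_deriv_pos hc hm k x).ne')
    (fun x => appr_hasDerivAt hc k x) (appr_contDiff hc k)

/-! ### Measures -/

/-- Volumes of compact sets do not decrease under locally uniform limits. -/
theorem volume_le_of_limit {V : Type*} [NormedAddCommGroup V] [NormedSpace ℝ V]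
    [FiniteDimensional ℝ V] [MeasurableSpace V] [BorelSpace V] (μ : Measure V)
    [IsFiniteMeasureOnCompacts μ] {K : Set V} (hK : IsCompact K) (f : ℕ → V → V) (F : V → V)
    (hF : Continuous F) (hf : TendstoUniformlyOn f F atTop K)
    (hv : ∀ k, μ K ≤ μ (f k '' K)) : μ K ≤ μ (F '' K) := by
  have : ProperSpace V := FiniteDimensional.proper ℝ V
  have hc : IsCompact (F '' K) := hK.image hF
  have ht : Tendsto (fun r => μ (Metric.cthickening r (F '' K))) (𝓝[>] 0) (𝓝 (μ (F '' K))) :=
    (tendsto_measure_cthickening_of_isCompact hc).mono_left nhdsWithin_le_nhds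
  refine ge_of_tendsto ht ?_
  filter_upwards [self_mem_nhdsWithin] with r hr
  rw [Metric.tendstoUniformlyOn_iff] at hf
  obtain ⟨k, hk⟩ := (hf r hr).exists
  refine (hv k).trans (measure_mono ?_)
  rintro _ ⟨x, hx, rfl⟩
  refine Metric.mem_cthickening_of_dist_le _ (F x) _ _ (mem_image_of_mem _ hx) ?_
  rw [dist_comm]
  exact (hk x hx).le

/-- A linear map preserving a nondegenerate bilinear form has determinant `± 1`. -/
theorem abs_det_eq_one {V : Type*} [NormedAddCommGroup V] [NormedSpace ℝ V]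
    [FiniteDimensional ℝ V] {ι : Type*} [Fintype ι] [DecidableEq ι] (b : Module.Basis ι ℝ V)
    (B : LinearMap.BilinForm ℝ V) (hB : B.Nondegenerate) (L : V →L[ℝ] V)
    (hL : ∀ u v, B (L u) (L v) = B u v) : |L.det| = 1 := by
  have h1 : B.comp (L : V →ₗ[ℝ] V) (L : V →ₗ[ℝ] V) = B := by
    ext u v
    exact hL u v
  have h2 := LinearMap.BilinForm.toMatrix_comp b b B (L : V →ₗ[ℝ] V) (L : V →ₗ[ℝ] V)
  rw [h1] at h2
  have h3 := congrArg Matrix.det h2
  rw [Matrix.det_mul, Matrix.det_mul, Matrix.det_transpose, LinearMap.det_toMatrix] at h3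
  have h4 := (LinearMap.BilinForm.nondegenerate_iff_det_ne_zero b).1 hB
  have h5 : (LinearMap.det (L : V →ₗ[ℝ] V)) ^ 2 = 1 := by
    have : (LinearMap.BilinForm.toMatrix b B).det * ((LinearMap.det (L : V →ₗ[ℝ] V)) ^ 2 - 1) = 0 := by
      linear_combination -h3
    rcases mul_eq_zero.1 this with h | h
    · exact absurd h h4
    · linarith
  have h6 : L.det = LinearMap.det (L : V →ₗ[ℝ] V) := rfl
  rw [h6]
  have h7 := congrArg Real.sqrt h5
  rwa [Real.sqrt_sq_eq_abs, Real.sqrt_one] at h7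

end Q169.PoissonZero
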